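import Mathlib

/-!
# MP_2a8a61_ag, part A: non-zero-divisors modulo ideals generated by elements linear in separate variables
-/

set_option autoImplicit false

namespace Pool.Agent.H435.Assoc

open Polynomial in
/-- If `u` is a non-zero-divisor modulo an ideal generated by elements free of a variable `T`, then so is
`u T + v` (`u`, `v` free of `T`). -/
theorem lin {C0 C : Type*} [CommRing C0] [CommRing C] (φ : Polynomial C0 ≃+* C) (S : Set C)
    (hS : ∀ s ∈ S, ∃ s0, φ (Polynomial.C s0) = s) (u v : C0)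
    (hu : ∀ h, φ (Polynomial.C u) * h ∈ Ideal.span S → h ∈ Ideal.span S) :
    ∀ h, φ (Polynomial.C u * Polynomial.X + Polynomial.C v) * h ∈ Ideal.span S →
      h ∈ Ideal.span S := by
  set S0 : Set C0 := {s0 | φ (Polynomial.C s0) ∈ S} with hS0
  set I0 : Ideal C0 := Ideal.span S0 with hI0
  have hspan : Ideal.span S = Ideal.map (φ : Polynomial C0 →+* C) (Ideal.map Polynomial.C I0) := by
    rw [hI0, Ideal.map_span, Ideal.map_span]
    congr 1
    ext s
    constructor
    · intro hs
      obtain ⟨s0, rfl⟩ := hS s hs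
      exact ⟨Polynomial.C s0, ⟨s0, hs, rfl⟩, rfl⟩
    · rintro ⟨_, ⟨s0, hs0, rfl⟩, rfl⟩
      exact hs0
  have hmem : ∀ p : Polynomial C0, φ p ∈ Ideal.span S ↔ ∀ m, p.coeff m ∈ I0 := by
    intro p
    rw [hspan, ← Ideal.mem_map_C_iff]
    constructor
    · intro h
      rw [Ideal.mem_map_iff_of_surjective (φ : Polynomial C0 →+* C) φ.surjective] at h
      obtain ⟨q, hq, hqp⟩ := h
      have : q = p := φ.injective hqp
      rw [← this]
      exact hq
    · intro h
      exact Ideal.mem_map_of_mem _ h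
  have hu0 : ∀ a : C0, u * a ∈ I0 → a ∈ I0 := by
    intro a ha
    have h1 : φ (Polynomial.C u) * φ (Polynomial.C a) ∈ Ideal.span S := by
      rw [← map_mul, ← Polynomial.C_mul, hmem]
      intro m
      rw [Polynomial.coeff_C]
      split_ifs
      · exact ha
      · exact I0.zero_mem
    have h2 := (hmem _).1 (hu _ h1) 0
    rwa [Polynomial.coeff_C_zero] at h2
  intro h hh
  obtain ⟨p, rfl⟩ := φ.surjective h
  rw [← map_mul, hmem] at hh
  rw [hmem]
  by_contra hcon
  push Not at hcon
  classical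
  set M : Finset ℕ := p.support.filter fun m => p.coeff m ∉ I0 with hM
  have hMne : M.Nonempty := by
    obtain ⟨m, hm⟩ := hcon
    refine ⟨m, Finset.mem_filter.2 ⟨?_, hm⟩⟩
    rw [Polynomial.mem_support_iff]
    intro h0
    exact hm (h0 ▸ I0.zero_mem)
  set m := M.max' hMne with hm
  have hmM : m ∈ M := M.max'_mem hMne
  have hm1 : p.coeff m ∉ I0 := (Finset.mem_filter.1 hmM).2
  have hm2 : p.coeff (m + 1) ∈ I0 := by
    by_contra h'
    have : m + 1 ∈ M := by
      refine Finset.mem_filter.2 ⟨?_, h'⟩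
      rw [Polynomial.mem_support_iff]
      intro h0
      exact h' (h0 ▸ I0.zero_mem)
    have := M.le_max' _ this
    omega
  have h3 := hh (m + 1)
  rw [add_mul, Polynomial.coeff_add, mul_assoc, Polynomial.coeff_C_mul, Polynomial.coeff_X_mul,
    Polynomial.coeff_C_mul] at h3
  have h4 : u * p.coeff m ∈ I0 := by
    have := I0.sub_mem h3 (I0.mul_mem_left v hm2)
    rwa [add_sub_cancel_right] at this
  exact hm1 (hu0 _ h4)

variable {n : ℕ} {C : Type} [CommRing C]

/-- the ideal generated by some of the `g i` and by powers of some of the `x j` -/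
def IJ (x g : Fin n → C) (M J : Finset (Fin n)) (N : Fin n → ℕ) : Ideal C :=
  Ideal.span ((fun i => g i) '' (M : Set (Fin n)) ∪ (fun j => x j ^ N j) '' (J : Set (Fin n)))

/-- `g i` is linear in a variable which is in no other `g j` and in no `x j`, with leading
coefficient a unit multiple of a power of `x i` -/
def LinIn (x g : Fin n → C) (m : ℕ) (i : Fin n) : Prop :=
  ∃ (C0 : Type) (_ : CommRing C0) (φ : Polynomial C0 ≃+* C) (c x0 v0 : C0),
    (∀ j, ∃ y0, φ (Polynomial.C y0) = x j) ∧ (∀ j, j ≠ i → ∃ g0, φ (Polynomial.C g0) = g j) ∧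
    IsUnit c ∧ φ (Polynomial.C x0) = x i ∧
    φ (Polynomial.C (c * x0 ^ m) * Polynomial.X + Polynomial.C v0) = g i

theorem nzd_pow {I : Ideal C} {a : C} (h : ∀ b, a * b ∈ I → b ∈ I) (m : ℕ) :
    ∀ b, a ^ m * b ∈ I → b ∈ I := by
  induction m with
  | zero => intro b hb; simpa using hb
  | succ m ih =>
    intro b hb
    rw [pow_succ, mul_assoc] at hb
    exact h b (ih _ hb)

/-- if `x i` is a non-zero-divisor modulo the ideal, so is `g i` -/
theorem nzd_g (x g : Fin n → C) (m : ℕ) (i : Fin n) (hlin : LinIn x g m i)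
    (M J : Finset (Fin n)) (N : Fin n → ℕ) (hi : i ∉ M)
    (hx : ∀ h, x i * h ∈ IJ x g M J N → h ∈ IJ x g M J N) :
    ∀ h, g i * h ∈ IJ x g M J N → h ∈ IJ x g M J N := by
  obtain ⟨C0, _, φ, c, x0, v0, h1, h2, hc, h3, h4⟩ := hlin
  rw [← h4]
  unfold IJ at hx ⊢
  refine lin φ _ ?_ _ v0 ?_
  · rintro s (⟨j, hj, rfl⟩ | ⟨j, hj, rfl⟩)
    · exact h2 j (fun h => hi (h ▸ hj))
    · obtain ⟨y0, hy0⟩ := h1 j
      refine ⟨y0 ^ N j, ?_⟩
      rw [Polynomial.C_pow, map_pow, hy0]
  · intro h hh
    obtain ⟨c', hc'⟩ := hc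
    have h5 : x i ^ m * h ∈ Ideal.span ((fun i => g i) '' (M : Set (Fin n)) ∪
        (fun j => x j ^ N j) '' (J : Set (Fin n))) := by
      have h6 := Ideal.mul_mem_left _ (φ (Polynomial.C (↑c'⁻¹ : C0))) hh
      have h7 : φ (Polynomial.C (↑c'⁻¹ : C0)) * (φ (Polynomial.C (c * x0 ^ m)) * h) =
          x i ^ m * h := by
        rw [← mul_assoc, ← map_mul, ← Polynomial.C_mul, ← mul_assoc, ← hc', Units.inv_mul, one_mul,
          Polynomial.C_pow, map_pow, h3]
      rwa [h7] at h6
    exact nzd_pow hx m h h5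

/-- **Non-zero-divisors.** -/
theorem nzd_x (x g : Fin n → C) (m : ℕ) (hlin : ∀ i, LinIn x g m i)
    (hx : ∀ (k : Fin n) (J : Finset (Fin n)) (N : Fin n → ℕ), k ∉ J →
      ∀ h, x k * h ∈ IJ x g ∅ J N → h ∈ IJ x g ∅ J N) (M : Finset (Fin n)) :
    ∀ (k : Fin n) (J : Finset (Fin n)) (N : Fin n → ℕ), k ∉ M → k ∉ J → Disjoint M J →
      ∀ h, x k * h ∈ IJ x g M J N → h ∈ IJ x g M J N := by
  classical
  induction M using Finset.induction_on with
  | empty => intro k J N _ hkJ _; exact hx k J N hkJ
  | insert i M' hi ih =>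
    intro k J N hkM hkJ hMJ h hh
    have hki : k ≠ i := fun h => hkM (h ▸ Finset.mem_insert_self _ _)
    have hkM' : k ∉ M' := fun h => hkM (Finset.mem_insert_of_mem h)
    have hiJ : i ∉ J := fun h => (Finset.disjoint_left.1 hMJ) (Finset.mem_insert_self _ _) h
    have hM'J : Disjoint M' J := hMJ.mono_left (Finset.subset_insert _ _)
    -- the ideal with `g i`
    have e1 : IJ x g (insert i M') J N = IJ x g M' J N ⊔ Ideal.span {g i} := by
      unfold IJ
      rw [← Ideal.span_union]
      congr 1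
      rw [Finset.coe_insert, Set.image_insert_eq, Set.insert_union, Set.union_singleton]
    -- the ideal with `x k`
    set N' : Fin n → ℕ := Function.update N k 1 with hN'
    have e2 : IJ x g M' (insert k J) N' = IJ x g M' J N ⊔ Ideal.span {x k} := by
      unfold IJ
      rw [← Ideal.span_union]
      congr 1
      rw [Finset.coe_insert, Set.image_insert_eq, Set.union_insert, Set.union_singleton]
      have e3 : (fun j => x j ^ N' j) '' (J : Set (Fin n)) = (fun j => x j ^ N j) '' (J : Set (Fin n)) := by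
        refine Set.image_congr fun j hj => ?_
        have : j ≠ k := fun h => hkJ (h ▸ hj)
        simp only [hN', Function.update_of_ne this]
      rw [e3]
      simp only [hN', Function.update_self, pow_one]
    have hgi : ∀ h, g i * h ∈ IJ x g M' (insert k J) N' → h ∈ IJ x g M' (insert k J) N' := by
      refine nzd_g x g m i (hlin i) M' (insert k J) N' hi (ih i (insert k J) N' hi ?_ ?_)
      · rw [Finset.mem_insert]
        rintro (h | h)
        · exact hki h.symm
        · exact hiJ h
      · rw [Finset.disjoint_insert_right]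
        exact ⟨hkM', hM'J⟩
    rw [e1] at hh ⊢
    obtain ⟨p, hp, q, hq, hpq⟩ := Submodule.mem_sup.1 hh
    obtain ⟨s, rfl⟩ := Ideal.mem_span_singleton'.1 hq
    have h1 : g i * s ∈ IJ x g M' (insert k J) N' := by
      rw [e2]
      have : g i * s = h * x k - p := by
        rw [mul_comm h]
        rw [← hpq]
        ring
      rw [this]
      exact Ideal.sub_mem _ (Ideal.mem_sup_right (Ideal.mul_mem_left _ _ (Ideal.mem_span_singleton_self _)))
        (Ideal.mem_sup_left hp)
    have h2 := hgi s h1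
    rw [e2] at h2
    obtain ⟨p', hp', q', hq', hpq'⟩ := Submodule.mem_sup.1 h2
    obtain ⟨s', rfl⟩ := Ideal.mem_span_singleton'.1 hq'
    have h3 : x k * (h - g i * s') ∈ IJ x g M' J N := by
      have : x k * (h - g i * s') = p + g i * p' := by
        rw [mul_sub, ← hpq, ← hpq']
        ring
      rw [this]
      exact Ideal.add_mem _ hp (Ideal.mul_mem_left _ _ hp')
    have h4 := ih k J N hkM' hkJ hM'J _ h3
    have : h = (h - g i * s') + s' * g i := by ring
    rw [this]
    exact Ideal.add_mem _ (Ideal.mem_sup_left h4)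
      (Ideal.mem_sup_right (Ideal.mul_mem_left _ _ (Ideal.mem_span_singleton_self _)))

end Pool.Agent.H435.Assoc
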