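import Pool.Agent.H435.AssocA

/-!
# MP_2a8a61_ag, part B: the exchange of the `g i` with powers of the variables
-/

set_option autoImplicit false

namespace Pool.Agent.H435.Assoc

open MvPolynomial

attribute [local instance] MvPolynomial.gradedAlgebra

variable {n : ℕ} {A : Type} [CommRing A]

theorem decompose_eq (p : MvPolynomial (Fin n) A) (i : ℕ) :
    ((DirectSum.decompose (homogeneousSubmodule (Fin n) A) p i :
      homogeneousSubmodule (Fin n) A i) : MvPolynomial (Fin n) A) = homogeneousComponent i p :=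
  decomposition.decompose'_apply p i

/-- `homogeneousComponent` of a product with a homogeneous factor -/
theorem comp_mul {a b : MvPolynomial (Fin n) A} {i m : ℕ} (ha : a.IsHomogeneous i) (h : i ≤ m) :
    homogeneousComponent m (a * b) = a * homogeneousComponent (m - i) b := by
  have h1 := DirectSum.coe_decompose_mul_of_left_mem_of_le (𝒜 := homogeneousSubmodule (Fin n) A)
    (a := a) (b := b) ((mem_homogeneousSubmodule i a).2 ha) h
  rw [decompose_eq, decompose_eq] at h1
  exact h1

theorem comp_mul_zero {a b : MvPolynomial (Fin n) A} {i m : ℕ} (ha : a.IsHomogeneous i)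
    (h : ¬ i ≤ m) : homogeneousComponent m (a * b) = 0 := by
  have h1 := DirectSum.coe_decompose_mul_of_left_mem_of_not_le (𝒜 := homogeneousSubmodule (Fin n) A)
    (a := a) (b := b) ((mem_homogeneousSubmodule i a).2 ha) h
  rw [decompose_eq] at h1
  exact h1

/-- ideals generated by homogeneous elements contain the components of their elements -/
theorem comp_mem (S : Set (MvPolynomial (Fin n) A)) (hS : ∀ s ∈ S, ∃ i, s.IsHomogeneous i)
    {p : MvPolynomial (Fin n) A} (hp : p ∈ Ideal.span S) (m : ℕ) :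
    homogeneousComponent m p ∈ Ideal.span S := by
  refine homogeneousComponent_mem_of_mem ?_ hp m
  refine Ideal.homogeneous_span _ _ fun x hx => ?_
  obtain ⟨i, hi⟩ := hS x hx
  exact ⟨i, (mem_homogeneousSubmodule i x).2 hi⟩

section chain

variable (g : Fin n → MvPolynomial (Fin n) A) (G : Matrix (Fin n) (Fin n) (MvPolynomial (Fin n) A))
  (N e : ℕ)

/-- the ideal of the `g i`, `i < k`, and the `X j ^ N`, `j ≥ k` -/
noncomputable def JJ (k : ℕ) : Ideal (MvPolynomial (Fin n) A) :=
  IJ X g (Finset.univ.filter fun i => i.val < k) (Finset.univ.filter fun j => k ≤ j.val) (fun _ => N)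

/-- the ideal of the `g i`, `i < k`, and the `X j ^ N`, `j > k` -/
noncomputable def SS (k : Fin n) : Ideal (MvPolynomial (Fin n) A) :=
  IJ X g (Finset.univ.filter fun i => i.val < k.val) (Finset.univ.filter fun j => k.val < j.val)
    (fun _ => N)

/-- the mixed matrix -/
noncomputable def MM (k : ℕ) : Matrix (Fin n) (Fin n) (MvPolynomial (Fin n) A) :=
  Matrix.of fun i j => if i.val < k then G i j else if i = j then X i ^ (N - 1) else 0

theorem JJ_succ (k : Fin n) : JJ g N (k.val + 1) = SS g N k ⊔ Ideal.span {g k} := by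
  unfold JJ SS IJ
  rw [← Ideal.span_union]
  congr 1
  ext s
  simp only [Set.mem_union, Set.mem_image, Finset.mem_coe, Finset.mem_filter, Finset.mem_univ,
    true_and, Set.mem_singleton_iff]
  constructor
  · rintro (⟨i, hi, rfl⟩ | ⟨j, hj, rfl⟩)
    · rcases Nat.lt_or_ge i.val k.val with h | h
      · exact Or.inl (Or.inl ⟨i, h, rfl⟩)
      · have : i = k := Fin.ext (by omega)
        exact Or.inr (by rw [this])
    · exact Or.inl (Or.inr ⟨j, by omega, rfl⟩)
  · rintro ((⟨i, hi, rfl⟩ | ⟨j, hj, rfl⟩) | rfl)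
    · exact Or.inl ⟨i, by omega, rfl⟩
    · exact Or.inr ⟨j, by omega, rfl⟩
    · exact Or.inl ⟨k, by omega, rfl⟩

theorem JJ_self (k : Fin n) : JJ g N k.val = SS g N k ⊔ Ideal.span {X k ^ N} := by
  unfold JJ SS IJ
  rw [← Ideal.span_union]
  congr 1
  ext s
  simp only [Set.mem_union, Set.mem_image, Finset.mem_coe, Finset.mem_filter, Finset.mem_univ,
    true_and, Set.mem_singleton_iff]
  constructor
  · rintro (⟨i, hi, rfl⟩ | ⟨j, hj, rfl⟩)
    · exact Or.inl (Or.inl ⟨i, hi, rfl⟩)
    · rcases Nat.lt_or_ge k.val j.val with h | h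
      · exact Or.inl (Or.inr ⟨j, h, rfl⟩)
      · have : j = k := Fin.ext (by omega)
        exact Or.inr (by rw [this])
  · rintro ((⟨i, hi, rfl⟩ | ⟨j, hj, rfl⟩) | rfl)
    · exact Or.inl ⟨i, hi, rfl⟩
    · exact Or.inr ⟨j, by omega, rfl⟩
    · exact Or.inr ⟨k, le_refl _, rfl⟩

theorem g_mem_SS (k i : Fin n) (h : i.val < k.val) : g i ∈ SS g N k := by
  refine Ideal.subset_span (Or.inl ⟨i, ?_, rfl⟩)
  simpa using h

theorem X_mem_SS (k j : Fin n) (h : k.val < j.val) : X j ^ N ∈ SS g N k := by
  refine Ideal.subset_span (Or.inr ⟨j, ?_, rfl⟩)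
  simpa using h

/-- the exchange relation of the determinants -/
theorem swap_det (hG : ∀ i, g i = ∑ j, G i j * X j) (hN : 1 ≤ N) (k : Fin n) :
    X k ^ N * (MM G N (k.val + 1)).det - g k * (MM G N k.val).det ∈ SS g N k := by
  classical
  set P := MM G N (k.val + 1) with hP
  set Q := MM G N k.val with hQ
  have hPQ : ∀ i j, i ≠ k → P i j = Q i j := by
    intro i j hik
    have h1 : i.val ≠ k.val := fun h => hik (Fin.ext h)
    simp only [hP, hQ, MM, Matrix.of_apply]
    by_cases h2 : i.val < k.val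
    · rw [if_pos h2, if_pos (by omega)]
    · rw [if_neg h2, if_neg (by omega)]
  have hadj : P.adjugate k k = Q.adjugate k k := by
    rw [Matrix.adjugate_apply, Matrix.adjugate_apply]
    congr 1
    ext i j
    by_cases hik : i = k
    · subst hik
      rw [Matrix.updateRow_self, Matrix.updateRow_self]
    · rw [Matrix.updateRow_ne hik, Matrix.updateRow_ne hik, hPQ i j hik]
  -- the row sums
  have hrow : ∀ i, i ≠ k → ∑ j, P i j * X j ∈ SS g N k := by
    intro i hik
    have h1 : i.val ≠ k.val := fun h => hik (Fin.ext h)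
    rcases Nat.lt_or_ge i.val k.val with h | h
    · have h2 : ∑ j, P i j * X j = g i := by
        rw [hG i]
        refine Finset.sum_congr rfl fun j _ => ?_
        simp only [hP, MM, Matrix.of_apply]
        rw [if_pos (by omega)]
      rw [h2]
      exact g_mem_SS g N k i h
    · have h2 : ∑ j, P i j * X j = X i ^ N := by
        rw [Finset.sum_eq_single i]
        · simp only [hP, MM, Matrix.of_apply]
          rw [if_neg (by omega), if_pos trivial, ← pow_succ, Nat.sub_add_cancel hN]
        · intro j _ hj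
          simp only [hP, MM, Matrix.of_apply]
          rw [if_neg (by omega), if_neg (fun h => hj h.symm), zero_mul]
        · intro h
          exact absurd (Finset.mem_univ _) h
      rw [h2]
      exact X_mem_SS g N k i (by omega)
  have hrowk : ∑ j, P k j * X j = g k := by
    rw [hG k]
    refine Finset.sum_congr rfl fun j _ => ?_
    simp only [hP, MM, Matrix.of_apply]
    rw [if_pos (by omega)]
  -- Cramer
  have hcr : P.det * X k = ∑ i, P.adjugate k i * ∑ j, P i j * X j := by
    have h1 : (P.adjugate * P).mulVec (fun j => (X j : MvPolynomial (Fin n) A)) k = P.det * X k := by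
      rw [Matrix.adjugate_mul, Matrix.smul_mulVec, Matrix.one_mulVec, Pi.smul_apply, smul_eq_mul]
    rw [← h1, ← Matrix.mulVec_mulVec]
    rfl
  have h2 : P.det * X k - P.adjugate k k * g k ∈ SS g N k := by
    rw [hcr, ← Finset.add_sum_erase _ _ (Finset.mem_univ k), hrowk, add_sub_cancel_left]
    refine Ideal.sum_mem _ fun i hi => Ideal.mul_mem_left _ _ (hrow i (Finset.ne_of_mem_erase hi))
  have h3 : Q.det = X k ^ (N - 1) * Q.adjugate k k := by
    rw [Matrix.det_eq_sum_mul_adjugate_row Q k, Finset.sum_eq_single k]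
    · congr 1
      simp only [hQ, MM, Matrix.of_apply]
      rw [if_neg (by omega), if_pos trivial]
    · intro j _ hj
      simp only [hQ, MM, Matrix.of_apply]
      rw [if_neg (by omega), if_neg (fun h => hj h.symm), zero_mul]
    · intro h
      exact absurd (Finset.mem_univ _) h
  have h4 : X k ^ N * P.det - g k * Q.det =
      X k ^ (N - 1) * (P.det * X k - P.adjugate k k * g k) := by
    rw [h3, hadj]
    have : (X k : MvPolynomial (Fin n) A) ^ N = X k ^ (N - 1) * X k := by
      rw [← pow_succ, Nat.sub_add_cancel hN]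
    rw [this]
    ring
  rw [h4]
  exact Ideal.mul_mem_left _ _ h2

/-- the last ideal is a monomial ideal -/
theorem mem_JJ_zero {p : MvPolynomial (Fin n) A} :
    p ∈ JJ g N 0 ↔ ∀ γ ∈ p.support, ∃ j, N ≤ γ j := by
  have h1 : JJ g N 0 = Ideal.span ((fun s => monomial s (1 : A)) ''
      (Set.range fun j : Fin n => Finsupp.single j N)) := by
    unfold JJ IJ
    congr 1
    ext s
    simp only [Nat.not_lt_zero, Finset.filter_false, Finset.coe_empty, Set.image_empty,
      Set.empty_union, Nat.zero_le, Finset.filter_true, Finset.coe_univ, Set.image_univ,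
      Set.mem_range, Set.mem_image, exists_exists_eq_and]
    constructor
    · rintro ⟨j, rfl⟩
      exact ⟨j, by rw [X_pow_eq_monomial]⟩
    · rintro ⟨j, rfl⟩
      exact ⟨j, by rw [X_pow_eq_monomial]⟩
  rw [h1, mem_ideal_span_monomial_image]
  refine forall₂_congr fun γ _ => ?_
  simp only [Set.mem_range, exists_exists_eq_and, Finsupp.single_le_iff]

theorem MM_zero_det : (MM G N 0).det = monomial (Finsupp.equivFunOnFinite.symm fun _ : Fin n => N - 1) 1 := by
  have h1 : MM G N 0 = Matrix.diagonal fun i => (X i : MvPolynomial (Fin n) A) ^ (N - 1) := by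
    ext i j
    simp only [MM, Matrix.of_apply, Nat.not_lt_zero, if_false, Matrix.diagonal_apply]
  rw [h1, Matrix.det_diagonal, monomial_eq, C_1, one_mul, Finsupp.prod_fintype]
  · rfl
  · intro i
    exact pow_zero _

/-- the top degree -/
theorem top_degree (hN : 1 ≤ N) (h : MvPolynomial (Fin n) A) (hh : h.IsHomogeneous (n * (N - 1))) :
    ∃ r : A, h - C r * (MM G N 0).det ∈ JJ g N 0 := by
  classical
  set δ : Fin n →₀ ℕ := Finsupp.equivFunOnFinite.symm fun _ : Fin n => N - 1 with hδ
  refine ⟨coeff δ h, ?_⟩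
  rw [MM_zero_det, mem_JJ_zero, C_mul_monomial, mul_one]
  intro γ hγ
  rw [mem_support_iff, coeff_sub, coeff_monomial] at hγ
  by_cases hγδ : δ = γ
  · rw [if_pos hγδ, hγδ, sub_self] at hγ
    exact absurd rfl hγ
  · rw [if_neg hγδ, sub_zero] at hγ
    have hdeg := hh hγ
    by_contra hcon
    push Not at hcon
    apply hγδ
    have h1 : ∑ j, γ j = n * (N - 1) := by
      rw [← hdeg, ← Finsupp.degree_eq_sum, Finsupp.degree_eq_weight_one]
      rfl
    have h2 : ∀ j ∈ (Finset.univ : Finset (Fin n)), γ j ≤ N - 1 := fun j _ => by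
      have := hcon j
      omega
    have h3 : ∑ j : Fin n, γ j = ∑ _j : Fin n, (N - 1) := by
      rw [h1, Finset.sum_const, Finset.card_univ, Fintype.card_fin, smul_eq_mul]
    ext j
    exact ((Finset.sum_eq_sum_iff_of_le h2).1 h3 j (Finset.mem_univ j)).symm

/-- **Theorem A** (existence). -/
theorem chain_exists (hg : ∀ i, (g i).IsHomogeneous e) (hG : ∀ i, g i = ∑ j, G i j * X j)
    (hN : 1 ≤ N) (heN : e ≤ N)
    (hX : ∀ k : Fin n, ∀ h, X k * h ∈ SS g N k → h ∈ SS g N k)
    (hgz : ∀ k : Fin n, ∀ h, g k * h ∈ SS g N k → h ∈ SS g N k) (k : ℕ) (hk : k ≤ n) :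
    ∀ (m : ℕ) (h : MvPolynomial (Fin n) A), m + k * (N - e) = n * (N - 1) → h.IsHomogeneous m →
      (∀ j, X j ^ N * h ∈ JJ g N k) → (∀ i, g i * h ∈ JJ g N k) →
      ∃ r : A, h - C r * (MM G N k).det ∈ JJ g N k := by
  induction k with
  | zero =>
    intro m h hm hh _ _
    rw [Nat.zero_mul, Nat.add_zero] at hm
    rw [hm] at hh
    exact top_degree g G N hN h hh
  | succ k ih =>
    intro m h hm hh hXh hgh
    set κ : Fin n := ⟨k, hk⟩ with hκ
    have hκv : κ.val = k := rfl
    have hJ1 : JJ g N (k + 1) = SS g N κ ⊔ Ideal.span {g κ} := JJ_succ g N κ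
    have hJ0 : JJ g N k = SS g N κ ⊔ Ideal.span {X κ ^ N} := JJ_self g N κ
    have hsw := swap_det g G N hG hN κ
    rw [hκv] at hsw
    have hXN : ∀ h, X κ ^ N * h ∈ SS g N κ → h ∈ SS g N κ := nzd_pow (hX κ) N
    -- the exchange
    have h1 := hXh κ
    rw [hJ1] at h1
    obtain ⟨s, hs, q, hq, hsq⟩ := Submodule.mem_sup.1 h1
    obtain ⟨t, rfl⟩ := Ideal.mem_span_singleton'.1 hq
    set h' := homogeneousComponent (m + N - e) t with hh'
    set s' := homogeneousComponent (m + N) s with hs'
    have hs'mem : s' ∈ SS g N κ := by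
      refine comp_mem _ ?_ hs _
      rintro x (⟨i, -, rfl⟩ | ⟨j, -, rfl⟩)
      · exact ⟨e, hg i⟩
      · exact ⟨_, (isHomogeneous_X A j).pow N⟩
    have hrel : X κ ^ N * h = s' + g κ * h' := by
      have h2 : homogeneousComponent (m + N) (X κ ^ N * h) = X κ ^ N * h := by
        refine homogeneousComponent_eq_self ?_
        have := ((isHomogeneous_X A κ).pow N).mul hh
        rwa [one_mul, add_comm] at this
      rw [← h2, ← hsq, map_add, mul_comm t, comp_mul (hg κ) (by omega)]
    have hh'hom : h'.IsHomogeneous (m + N - e) := homogeneousComponent_isHomogeneous _ _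
    have hdeg' : (m + N - e) + k * (N - e) = n * (N - 1) := by
      rw [← hm, Nat.add_mul, Nat.one_mul]
      omega
    -- conditions for `h'`
    have hcond : ∀ z, z * h ∈ JJ g N (k + 1) → z * h' ∈ JJ g N k := by
      intro z hz
      rw [hJ1] at hz
      obtain ⟨s1, hs1, q1, hq1, hsq1⟩ := Submodule.mem_sup.1 hz
      obtain ⟨t1, rfl⟩ := Ideal.mem_span_singleton'.1 hq1
      have h3 : g κ * (z * h' - X κ ^ N * t1) ∈ SS g N κ := by
        have : g κ * (z * h' - X κ ^ N * t1) = X κ ^ N * s1 - z * s' := by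
          have e1 : g κ * h' = X κ ^ N * h - s' := by rw [hrel]; ring
          calc g κ * (z * h' - X κ ^ N * t1) = z * (g κ * h') - X κ ^ N * (t1 * g κ) := by ring
            _ = z * (X κ ^ N * h - s') - X κ ^ N * (z * h - s1) := by rw [e1, ← hsq1]; ring
            _ = _ := by ring
        rw [this]
        exact Ideal.sub_mem _ (Ideal.mul_mem_left _ _ hs1) (Ideal.mul_mem_left _ _ hs'mem)
      have h4 := hgz κ _ h3
      rw [hJ0]
      have : z * h' = (z * h' - X κ ^ N * t1) + t1 * X κ ^ N := by ring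
      rw [this]
      exact Ideal.add_mem _ (Ideal.mem_sup_left h4)
        (Ideal.mem_sup_right (Ideal.mul_mem_left _ _ (Ideal.mem_span_singleton_self _)))
    obtain ⟨r, hr⟩ := ih (by omega) (m + N - e) h' hdeg' hh'hom (fun j => hcond _ (hXh j))
      (fun i => hcond _ (hgh i))
    refine ⟨r, ?_⟩
    rw [hJ0] at hr
    obtain ⟨s2, hs2, q2, hq2, hsq2⟩ := Submodule.mem_sup.1 hr
    obtain ⟨t2, rfl⟩ := Ideal.mem_span_singleton'.1 hq2
    have h5 : X κ ^ N * (h - C r * (MM G N (k + 1)).det - t2 * g κ) ∈ SS g N κ := by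
      have : X κ ^ N * (h - C r * (MM G N (k + 1)).det - t2 * g κ) =
          s' + g κ * s2 - C r * (X κ ^ N * (MM G N (k + 1)).det - g κ * (MM G N k).det) := by
        have e1 : h' = s2 + t2 * X κ ^ N + C r * (MM G N k).det := by rw [hsq2]; ring
        calc X κ ^ N * (h - C r * (MM G N (k + 1)).det - t2 * g κ)
            = X κ ^ N * h - C r * (X κ ^ N * (MM G N (k + 1)).det) - X κ ^ N * t2 * g κ := by ring
          _ = s' + g κ * (s2 + t2 * X κ ^ N + C r * (MM G N k).det)
              - C r * (X κ ^ N * (MM G N (k + 1)).det) - X κ ^ N * t2 * g κ := by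
                rw [hrel, ← e1]
          _ = _ := by ring
      rw [this]
      exact Ideal.sub_mem _ (Ideal.add_mem _ hs'mem (Ideal.mul_mem_left _ _ hs2))
        (Ideal.mul_mem_left _ _ hsw)
    have h6 := hXN _ h5
    rw [hJ1]
    have : h - C r * (MM G N (k + 1)).det =
        (h - C r * (MM G N (k + 1)).det - t2 * g κ) + t2 * g κ := by ring
    rw [this]
    exact Ideal.add_mem _ (Ideal.mem_sup_left h6)
      (Ideal.mem_sup_right (Ideal.mul_mem_left _ _ (Ideal.mem_span_singleton_self _)))

/-- **Theorem B** (non-vanishing). -/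
theorem chain_unique (hG : ∀ i, g i = ∑ j, G i j * X j) (hN : 1 ≤ N)
    (hgz : ∀ k : Fin n, ∀ h, g k * h ∈ SS g N k → h ∈ SS g N k) (q : A) (k : ℕ) (hk : k ≤ n) :
    C q * (MM G N k).det ∈ JJ g N k → q = 0 := by
  classical
  induction k with
  | zero =>
    intro h
    rw [MM_zero_det, mem_JJ_zero, C_mul_monomial, mul_one] at h
    by_contra hq
    obtain ⟨j, hj⟩ := h (Finsupp.equivFunOnFinite.symm fun _ : Fin n => N - 1)
      (by rw [mem_support_iff, coeff_monomial, if_pos rfl]; exact hq)
    rw [Finsupp.equivFunOnFinite_symm_apply_apply] at hj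
    omega
  | succ k ih =>
    intro h
    refine ih (by omega) ?_
    set κ : Fin n := ⟨k, hk⟩ with hκ
    have hκv : κ.val = k := rfl
    have hJ1 : JJ g N (k + 1) = SS g N κ ⊔ Ideal.span {g κ} := JJ_succ g N κ
    have hJ0 : JJ g N k = SS g N κ ⊔ Ideal.span {X κ ^ N} := JJ_self g N κ
    have hsw := swap_det g G N hG hN κ
    rw [hκv] at hsw
    rw [hJ1] at h
    obtain ⟨s1, hs1, q1, hq1, hsq1⟩ := Submodule.mem_sup.1 h
    obtain ⟨t1, rfl⟩ := Ideal.mem_span_singleton'.1 hq1
    have h3 : g κ * (C q * (MM G N k).det - X κ ^ N * t1) ∈ SS g N κ := by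
      have : g κ * (C q * (MM G N k).det - X κ ^ N * t1) =
          X κ ^ N * s1 - C q * (X κ ^ N * (MM G N (k + 1)).det - g κ * (MM G N k).det) := by
        calc g κ * (C q * (MM G N k).det - X κ ^ N * t1)
            = C q * (g κ * (MM G N k).det) - X κ ^ N * (t1 * g κ) := by ring
          _ = C q * (g κ * (MM G N k).det) - X κ ^ N * (C q * (MM G N (k + 1)).det - s1) := by
              rw [← hsq1]; ring
          _ = _ := by ring
      rw [this]
      exact Ideal.sub_mem _ (Ideal.mul_mem_left _ _ hs1) (Ideal.mul_mem_left _ _ hsw)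
    have h4 := hgz κ _ h3
    rw [hJ0]
    have : C q * (MM G N k).det = (C q * (MM G N k).det - X κ ^ N * t1) + t1 * X κ ^ N := by ring
    rw [this]
    exact Ideal.add_mem _ (Ideal.mem_sup_left h4)
      (Ideal.mem_sup_right (Ideal.mul_mem_left _ _ (Ideal.mem_span_singleton_self _)))

theorem JJ_top : JJ g N n = Ideal.span (Set.range g) := by
  unfold JJ IJ
  congr 1
  ext s
  simp only [Set.mem_union, Set.mem_image, Finset.mem_coe, Finset.mem_filter, Finset.mem_univ,
    true_and, Set.mem_range]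
  constructor
  · rintro (⟨i, -, rfl⟩ | ⟨j, hj, rfl⟩)
    · exact ⟨i, rfl⟩
    · exact absurd j.2 (by omega)
  · rintro ⟨i, rfl⟩
    exact Or.inl ⟨i, i.2, rfl⟩

theorem MM_top : MM G N n = G := by
  ext i j
  simp only [MM, Matrix.of_apply]
  rw [if_pos i.2]

end chain

end Pool.Agent.H435.Assoc
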