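import Mathlib

/-!
# MP_2a8a61_ag, definitions
-/

set_option autoImplicit false

namespace Pool.Agent.H435.Assoc

open MvPolynomial

/-- The exponents `α` of the monomials `z ^ α` of degree `d` in `n` variables. -/
abbrev Exps (n d : ℕ) : Type :=
  {α : Fin n →₀ ℕ // α ∈ Finset.finsuppAntidiag (Finset.univ : Finset (Fin n)) d}

/-- The form of degree `d` with the coefficient vector `c`: `∑_α c_α z ^ α`. Every form of degree `d`
is `form c` for exactly one `c`, so `Exps n d → ℂ` is the affine space of the forms of degree `d`. -/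
noncomputable def form {n d : ℕ} {R : Type} [CommSemiring R] (c : Exps n d → R) :
    MvPolynomial (Fin n) R :=
  ∑ α, monomial α.1 (c α)

/-- The form with coefficient vector `c` is nondegenerate: its partial derivatives have no common
zero except the origin. -/
def Nondeg {n d : ℕ} (c : Exps n d → ℂ) : Prop :=
  ∀ z : Fin n → ℂ, (∀ i, eval z (pderiv i (form c)) = 0) → z = 0

/-- The Hessian determinant of a polynomial. -/
noncomputable def hess {n : ℕ} {R : Type} [CommRing R] (f : MvPolynomial (Fin n) R) :
    MvPolynomial (Fin n) R :=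
  (Matrix.of fun i j => pderiv i (pderiv j f)).det

/-- The ideal `(∂f/∂z_1, …, ∂f/∂z_n)` of the ring `ℂ[[z_1, …, z_n]]`, the quotient by which is the
Milnor algebra `M_f`. -/
noncomputable def milnorIdeal {n : ℕ} (f : MvPolynomial (Fin n) ℂ) :
    Ideal (MvPowerSeries (Fin n) ℂ) :=
  Ideal.span (Set.range fun i => ((pderiv i f : MvPolynomial (Fin n) ℂ) : MvPowerSeries (Fin n) ℂ))

/-- `G`, a form of degree `n (d - 2)`, is the associated form of `f`, a form of degree `d`: for every
`w = (z_1^*, …, z_n^*)` the number `G (w)` is a scalar `a` with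
`(z_1^* z_1 + ⋯ + z_n^* z_n) ^ (n (d - 2)) ≡ a Hess (f)` modulo the ideal of the partial derivatives
of `f` in `ℂ[[z_1, …, z_n]]`. -/
def IsAssociatedForm {n : ℕ} (d : ℕ) (f G : MvPolynomial (Fin n) ℂ) : Prop :=
  G.IsHomogeneous (n * (d - 2)) ∧
  ∀ w : Fin n → ℂ,
    (((∑ i, C (w i) * X i) ^ (n * (d - 2)) - C (eval w G) * hess f : MvPolynomial (Fin n) ℂ) :
      MvPowerSeries (Fin n) ℂ) ∈ milnorIdeal f

/-- `Δ` is a discriminant of the forms of degree `d` in `n` variables: an irreducible polynomial in
the coefficients, which vanishes exactly at the degenerate forms. (It is unique up to a nonzero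
constant factor.) -/
def IsDiscriminant (n d : ℕ) (Δ : MvPolynomial (Exps n d) ℂ) : Prop :=
  Irreducible Δ ∧ ∀ c : Exps n d → ℂ, eval c Δ = 0 ↔ ¬ Nondeg c

/-- `D Φ` extends to a morphism, where `Φ` sends a nondegenerate form of degree `d` to its associated
form and `D` is a polynomial in the coefficients: there are polynomials `P β` in the coefficients of
the forms of degree `d` (one for each coefficient of the forms of degree `n (d - 2)`) which are the
coefficients of `D Φ` at all nondegenerate forms. -/
def Extends (n d : ℕ) (D : MvPolynomial (Exps n d) ℂ) : Prop :=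
  ∃ P : Exps n (n * (d - 2)) → MvPolynomial (Exps n d) ℂ,
    ∀ c : Exps n d → ℂ, Nondeg c → ∀ G : MvPolynomial (Fin n) ℂ, IsAssociatedForm d (form c) G →
      C (eval c D) * G = form fun β => eval c (P β)

end Pool.Agent.H435.Assoc
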