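import Pool.Agent.H435.AssocB
import Pool.Agent.H435.AssocDefs

/-!
# MP_2a8a61_ag, part C: the generic form
-/

set_option autoImplicit false

namespace Pool.Agent.H435.Assoc

open MvPolynomial

variable {n d : ℕ}

theorem mem_exps {α : Fin n →₀ ℕ} :
    α ∈ Finset.finsuppAntidiag (Finset.univ : Finset (Fin n)) d ↔ α.degree = d := by
  rw [Finset.mem_finsuppAntidiag, Finsupp.degree_eq_sum]
  constructor
  · rintro ⟨h, -⟩
    exact h
  · intro h
    exact ⟨h, Finset.subset_univ _⟩

theorem form_isHomogeneous {R : Type} [CommSemiring R] (c : Exps n d → R) :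
    (form c).IsHomogeneous d := by
  unfold form
  refine IsHomogeneous.sum _ _ _ fun α _ => ?_
  exact isHomogeneous_monomial _ (mem_exps.1 α.2)

theorem coeff_form {R : Type} [CommSemiring R] (c : Exps n d → R) (α : Exps n d) :
    coeff α.1 (form c) = c α := by
  classical
  unfold form
  rw [coeff_sum, Finset.sum_eq_single α]
  · rw [coeff_monomial, if_pos rfl]
  · intro β _ hβ
    rw [coeff_monomial, if_neg]
    intro h
    exact hβ (Subtype.ext h)
  · intro h
    exact absurd (Finset.mem_univ _) h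

theorem form_coeff {R : Type} [CommSemiring R] (p : MvPolynomial (Fin n) R) (hp : p.IsHomogeneous d) :
    form (fun α : Exps n d => coeff α.1 p) = p := by
  classical
  ext γ
  by_cases hγ : γ.degree = d
  · exact coeff_form _ (⟨γ, mem_exps.2 hγ⟩ : Exps n d)
  · rw [(form_isHomogeneous _).coeff_eq_zero hγ, hp.coeff_eq_zero hγ]

theorem map_form {R S : Type} [CommSemiring R] [CommSemiring S] (φ : R →+* S) (c : Exps n d → R) :
    map φ (form c) = form (fun α => φ (c α)) := by
  unfold form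
  rw [map_sum]
  refine Finset.sum_congr rfl fun α _ => ?_
  rw [map_monomial]

/-- the generic form -/
noncomputable def gen (n d : ℕ) : MvPolynomial (Fin n) (MvPolynomial (Exps n d) ℂ) :=
  form fun α => X α

theorem gen_isHomogeneous : (gen n d).IsHomogeneous d := form_isHomogeneous _

theorem map_gen (c : Exps n d → ℂ) : map (eval c) (gen n d) = form c := by
  unfold gen
  rw [map_form]
  congr 1
  funext α
  exact eval_X α

/-- the exponent of `z_i ^ d` -/
noncomputable def dE (d : ℕ) (i : Fin n) : Exps n d :=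
  ⟨Finsupp.single i d, mem_exps.2 (Finsupp.degree_single i d)⟩

/-- the isomorphism which isolates the coefficient of `z_i ^ d` -/
noncomputable def iso (i : Fin n) :
    Polynomial (MvPolynomial {s : Fin n ⊕ Exps n d // s ≠ Sum.inr (dE d i)} ℂ) ≃ₐ[ℂ]
      MvPolynomial (Fin n) (MvPolynomial (Exps n d) ℂ) :=
  ((optionEquivLeft ℂ {s : Fin n ⊕ Exps n d // s ≠ Sum.inr (dE d i)}).symm.trans
    (renameEquiv ℂ (Equiv.optionSubtypeNe (Sum.inr (dE d i) : Fin n ⊕ Exps n d)))).trans
      (sumAlgEquiv ℂ (Fin n) (Exps n d))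

theorem iso_X (i : Fin n) : iso (d := d) i Polynomial.X = C (X (dE d i)) := by
  unfold iso
  rw [AlgEquiv.trans_apply, AlgEquiv.trans_apply, optionEquivLeft_symm_X, renameEquiv_apply,
    rename_X, Equiv.optionSubtypeNe_none, sumAlgEquiv_X_inr]

theorem iso_C_C (i : Fin n) (a : ℂ) : iso (d := d) i (Polynomial.C (C a)) = C (C a) := by
  unfold iso
  rw [AlgEquiv.trans_apply, AlgEquiv.trans_apply, optionEquivLeft_symm_C_C, renameEquiv_apply,
    rename_C, sumAlgEquiv_C_inl]

theorem iso_C_inl (i j : Fin n) :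
    iso (d := d) i (Polynomial.C (X ⟨Sum.inl j, Sum.inl_ne_inr⟩)) = X j := by
  unfold iso
  rw [AlgEquiv.trans_apply, AlgEquiv.trans_apply, optionEquivLeft_symm_C_X, renameEquiv_apply,
    rename_X, Equiv.optionSubtypeNe_some, sumAlgEquiv_X_inl]

theorem iso_C_inr (i : Fin n) (α : Exps n d) (h : (Sum.inr α : Fin n ⊕ Exps n d) ≠ Sum.inr (dE d i)) :
    iso (d := d) i (Polynomial.C (X ⟨Sum.inr α, h⟩)) = C (X α) := by
  unfold iso
  rw [AlgEquiv.trans_apply, AlgEquiv.trans_apply, optionEquivLeft_symm_C_X, renameEquiv_apply,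
    rename_X, Equiv.optionSubtypeNe_some, sumAlgEquiv_X_inr]

/-- the inclusion of the elements free of the coefficient of `z_i ^ d` -/
noncomputable def freeHom (i : Fin n) :
    MvPolynomial {s : Fin n ⊕ Exps n d // s ≠ Sum.inr (dE d i)} ℂ →+*
      MvPolynomial (Fin n) (MvPolynomial (Exps n d) ℂ) :=
  ((iso (d := d) i).toRingEquiv.toRingHom).comp Polynomial.C

/-- the elements free of the coefficient of `z_i ^ d` -/
noncomputable def freeRing (i : Fin n) : Subring (MvPolynomial (Fin n) (MvPolynomial (Exps n d) ℂ)) :=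
  (freeHom (d := d) i).range

theorem mem_freeRing {i : Fin n} {p : MvPolynomial (Fin n) (MvPolynomial (Exps n d) ℂ)} :
    p ∈ freeRing i ↔ ∃ p0, (iso (d := d) i).toRingEquiv (Polynomial.C p0) = p := Iff.rfl

theorem X_mem_freeRing (i j : Fin n) :
    (X j : MvPolynomial (Fin n) (MvPolynomial (Exps n d) ℂ)) ∈ freeRing i :=
  mem_freeRing.2 ⟨_, iso_C_inl i j⟩

theorem CC_mem_freeRing (i : Fin n) (a : ℂ) :
    (C (C a) : MvPolynomial (Fin n) (MvPolynomial (Exps n d) ℂ)) ∈ freeRing i :=
  mem_freeRing.2 ⟨_, iso_C_C i a⟩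

theorem CX_mem_freeRing (i : Fin n) (α : Exps n d) (h : α ≠ dE d i) :
    (C (X α) : MvPolynomial (Fin n) (MvPolynomial (Exps n d) ℂ)) ∈ freeRing i :=
  mem_freeRing.2 ⟨_, iso_C_inr i α (fun h' => h (Sum.inr_injective h'))⟩

theorem monomial_mem_freeRing (i : Fin n) (γ : Fin n →₀ ℕ) (a : MvPolynomial (Exps n d) ℂ)
    (ha : C a ∈ freeRing (d := d) i) :
    monomial γ a ∈ freeRing (d := d) i := by
  rw [monomial_eq]
  refine Subring.mul_mem _ ha ?_
  exact Subring.prod_mem _ fun j _ => Subring.pow_mem _ (X_mem_freeRing i j) _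

theorem pderiv_gen (i : Fin n) :
    pderiv i (gen n d) = ∑ α : Exps n d, monomial (α.1 - Finsupp.single i 1) (X α * (α.1 i : MvPolynomial (Exps n d) ℂ)) := by
  unfold gen form
  rw [map_sum]
  refine Finset.sum_congr rfl fun α _ => ?_
  rw [pderiv_monomial]

theorem cast_mem_freeRing (i : Fin n) (α : Exps n d) (h : α ≠ dE d i) (m : ℕ) :
    (C (X α * (m : MvPolynomial (Exps n d) ℂ)) : MvPolynomial (Fin n) (MvPolynomial (Exps n d) ℂ)) ∈
      freeRing i := by
  rw [C_mul]
  refine Subring.mul_mem _ (CX_mem_freeRing i α h) ?_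
  have : (C (m : MvPolynomial (Exps n d) ℂ) : MvPolynomial (Fin n) (MvPolynomial (Exps n d) ℂ)) =
      C (C (m : ℂ)) := by
    rw [map_natCast (C : ℂ →+* MvPolynomial (Exps n d) ℂ)]
  rw [this]
  exact CC_mem_freeRing i _

theorem linIn (hd : 1 ≤ d) (i : Fin n) :
    LinIn (C := MvPolynomial (Fin n) (MvPolynomial (Exps n d) ℂ)) X (fun i => pderiv i (gen n d))
      (d - 1) i := by
  classical
  -- the part free of the variable
  set rest : MvPolynomial (Fin n) (MvPolynomial (Exps n d) ℂ) :=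
    ∑ α ∈ Finset.univ.erase (dE d i),
      monomial (α.1 - Finsupp.single i 1) (X α * (α.1 i : MvPolynomial (Exps n d) ℂ)) with hrest
  have hrm : rest ∈ freeRing (d := d) i := by
    refine Subring.sum_mem _ fun α hα => ?_
    exact monomial_mem_freeRing i _ _ (cast_mem_freeRing i α (Finset.ne_of_mem_erase hα) _)
  obtain ⟨v0, hv0⟩ := mem_freeRing.1 hrm
  refine ⟨_, inferInstance, (iso (d := d) i).toRingEquiv, C (d : ℂ),
    X ⟨Sum.inl i, Sum.inl_ne_inr⟩, v0, ?_, ?_, ?_, iso_C_inl i i, ?_⟩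
  · intro j
    exact mem_freeRing.1 (X_mem_freeRing i j)
  · intro j hj
    refine mem_freeRing.1 ?_
    change pderiv j (gen n d) ∈ freeRing i
    rw [pderiv_gen]
    refine Subring.sum_mem _ fun α _ => ?_
    by_cases hα : α = dE d i
    · have h0 : (α.1 j) = 0 := by
        rw [hα]
        change (Finsupp.single i d) j = 0
        rw [Finsupp.single_apply, if_neg (fun h => hj h.symm)]
      rw [h0, Nat.cast_zero, mul_zero, monomial_zero]
      exact Subring.zero_mem _
    · exact monomial_mem_freeRing i _ _ (cast_mem_freeRing i α hα _)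
  · refine IsUnit.map C ?_
    rw [isUnit_iff_ne_zero]
    exact_mod_cast (by omega : d ≠ 0)
  · have h1 : (dE d i).1 - Finsupp.single i 1 = Finsupp.single i (d - 1) := by
      change Finsupp.single i d - Finsupp.single i 1 = _
      rw [← Finsupp.single_tsub]
    have h2 : (dE d i).1 i = d := by
      change (Finsupp.single i d) i = d
      rw [Finsupp.single_eq_same]
    have h3 : (iso (d := d) i).toRingEquiv (Polynomial.C (C (d : ℂ))) = C (C (d : ℂ)) := iso_C_C i _
    have h4 : (iso (d := d) i).toRingEquiv (Polynomial.C (X ⟨Sum.inl i, Sum.inl_ne_inr⟩)) = X i :=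
      iso_C_inl i i
    have h5 : (iso (d := d) i).toRingEquiv Polynomial.X = C (X (dE d i)) := iso_X i
    have h6 : pderiv i (gen n d) = monomial (Finsupp.single i (d - 1)) (X (dE d i) * (d : MvPolynomial (Exps n d) ℂ)) + rest := by
      rw [pderiv_gen, ← Finset.add_sum_erase _ _ (Finset.mem_univ (dE d i)), h1, h2]
    have h7 : (C (C (d : ℂ)) : MvPolynomial (Fin n) (MvPolynomial (Exps n d) ℂ)) =
        C (d : MvPolynomial (Exps n d) ℂ) := by
      rw [map_natCast (C : ℂ →+* MvPolynomial (Exps n d) ℂ) d]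
    have h8 : (iso (d := d) i).toRingEquiv
        (Polynomial.C (C (d : ℂ) * X ⟨Sum.inl i, Sum.inl_ne_inr⟩ ^ (d - 1)) * Polynomial.X +
          Polynomial.C v0) = C (C (d : ℂ)) * X i ^ (d - 1) * C (X (dE d i)) + rest := by
      rw [map_add, map_mul, hv0, Polynomial.C_mul, Polynomial.C_pow, map_mul, map_pow, h3, h4, h5]
    have h9 : (C (C (d : ℂ)) * X i ^ (d - 1) * C (X (dE d i)) + rest :
        MvPolynomial (Fin n) (MvPolynomial (Exps n d) ℂ)) = pderiv i (gen n d) := by
      rw [h6, ← C_mul_X_pow_eq_monomial, C_mul, h7]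
      ring
    exact h8.trans h9

theorem mem_IJ_empty {A : Type} [CommRing A] (g : Fin n → MvPolynomial (Fin n) A) (J : Finset (Fin n))
    (N : Fin n → ℕ) {p : MvPolynomial (Fin n) A} :
    p ∈ IJ X g ∅ J N ↔ ∀ γ ∈ p.support, ∃ j ∈ J, N j ≤ γ j := by
  have h1 : IJ X g ∅ J N = Ideal.span ((fun s => monomial s (1 : A)) ''
      ((fun j : Fin n => Finsupp.single j (N j)) '' (J : Set (Fin n)))) := by
    unfold IJ
    congr 1
    rw [Finset.coe_empty, Set.image_empty, Set.empty_union, Set.image_image]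
    refine Set.image_congr fun j _ => ?_
    rw [X_pow_eq_monomial]
  rw [h1, mem_ideal_span_monomial_image]
  refine forall₂_congr fun γ _ => ?_
  simp only [Set.mem_image, Finset.mem_coe, exists_exists_and_eq_and, Finsupp.single_le_iff]

theorem X_nzd {A : Type} [CommRing A] (g : Fin n → MvPolynomial (Fin n) A) (k : Fin n)
    (J : Finset (Fin n)) (N : Fin n → ℕ) (hk : k ∉ J) :
    ∀ h, X k * h ∈ IJ X g ∅ J N → h ∈ IJ X g ∅ J N := by
  intro h hh
  rw [mem_IJ_empty] at hh ⊢
  intro γ hγ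
  have h1 : γ + Finsupp.single k 1 ∈ (X k * h).support := by
    rw [mem_support_iff, add_comm, coeff_X_mul]
    exact mem_support_iff.1 hγ
  obtain ⟨j, hj, hN⟩ := hh _ h1
  refine ⟨j, hj, ?_⟩
  have hjk : k ≠ j := fun h => hk (h ▸ hj)
  rwa [Finsupp.add_apply, Finsupp.single_apply, if_neg hjk, add_zero] at hN

/-- the partial derivatives of the generic form -/
noncomputable abbrev gg (n d : ℕ) : Fin n → MvPolynomial (Fin n) (MvPolynomial (Exps n d) ℂ) :=
  fun i => pderiv i (gen n d)

theorem SS_X (hd : 1 ≤ d) (N : ℕ) (k : Fin n) :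
    ∀ h, X k * h ∈ SS (gg n d) N k → h ∈ SS (gg n d) N k := by
  unfold SS
  refine nzd_x X (gg n d) (d - 1) (fun i => linIn hd i) (fun k J N hk => X_nzd _ k J N hk) _ k _ _ ?_ ?_ ?_
  · simp
  · simp
  · rw [Finset.disjoint_left]
    intro i hi hi'
    simp only [Finset.mem_filter, Finset.mem_univ, true_and] at hi hi'
    omega

theorem SS_g (hd : 1 ≤ d) (N : ℕ) (k : Fin n) :
    ∀ h, gg n d k * h ∈ SS (gg n d) N k → h ∈ SS (gg n d) N k := by
  unfold SS
  refine nzd_g X (gg n d) (d - 1) k (linIn hd k) _ _ _ ?_ (SS_X hd N k)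
  simp

end Pool.Agent.H435.Assoc
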