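import Pool.Agent.H435.AssocC

/-!
# MP_2a8a61_ag, part D: polynomials vanishing at the degenerate forms are inertia forms
-/

set_option autoImplicit false

namespace Pool.Agent.H435.Assoc

open MvPolynomial

variable {n d : ℕ}

/-- evaluation at a form and a point -/
noncomputable def ev (c : Exps n d → ℂ) (z : Fin n → ℂ) :
    MvPolynomial (Fin n) (MvPolynomial (Exps n d) ℂ) →+* ℂ :=
  (eval z).comp (map (eval c))

theorem ev_apply (c : Exps n d → ℂ) (z : Fin n → ℂ)
    (p : MvPolynomial (Fin n) (MvPolynomial (Exps n d) ℂ)) :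
    ev c z p = eval z (map (eval c) p) := rfl

theorem eq_zero_of_ev {p : MvPolynomial (Fin n) (MvPolynomial (Exps n d) ℂ)}
    (h : ∀ c z, ev c z p = 0) : p = 0 := by
  ext1 γ
  rw [coeff_zero]
  refine MvPolynomial.funext fun c => ?_
  rw [map_zero]
  have h1 : map (eval c) p = 0 := MvPolynomial.funext fun z => by
    rw [map_zero]
    exact h c z
  have h2 := congrArg (coeff γ) h1
  rwa [coeff_map, coeff_zero] at h2

theorem ev_pderiv (c : Exps n d → ℂ) (z : Fin n → ℂ) (i : Fin n) :
    ev c z (pderiv i (gen n d)) = eval z (pderiv i (form c)) := by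
  rw [ev_apply, ← pderiv_map, map_gen]

theorem ev_gen (c : Exps n d → ℂ) (z : Fin n → ℂ) :
    ev c z (gen n d) = eval z (form c) := by
  rw [ev_apply, map_gen]

theorem euler {R : Type} [CommRing R] {p : MvPolynomial (Fin n) R} {m : ℕ} (hp : p.IsHomogeneous m)
    (z : Fin n → R) : ∑ i, z i * eval z (pderiv i p) = m * eval z p := by
  have h := congrArg (eval z) hp.sum_X_mul_pderiv
  rw [map_sum, nsmul_eq_mul, map_mul, map_natCast] at h
  rw [← h]
  refine Finset.sum_congr rfl fun i _ => ?_
  rw [map_mul, eval_X]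

/-- the corrected form has vanishing gradient at the point -/
theorem corrected (hd : 2 ≤ d) (c : Exps n d → ℂ) (z : Fin n → ℂ) (j : Fin n) (ℓ : Fin n → ℂ)
    (hℓ : ∀ i, ℓ i = z j * eval z (pderiv i (form c)) -
      (if i = j then ((d : ℂ) - 1) * eval z (form c) else 0)) (k : Fin n) :
    eval z (pderiv k (C (z j ^ d) * form c - ∑ i, C (ℓ i) * (X i * X j ^ (d - 1)))) = 0 := by
  classical
  obtain ⟨e, rfl⟩ : ∃ e, d = e + 2 := ⟨d - 2, by omega⟩
  have hE := euler (form_isHomogeneous c) z
  set f := form c with hf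
  have e1 : e + 2 - 1 = e + 1 := rfl
  have h1 : ∑ i, C (ℓ i) * (X i * X j ^ (e + 2 - 1)) =
      (∑ i, C (ℓ i) * X i) * (X j : MvPolynomial (Fin n) ℂ) ^ (e + 1) := by
    rw [e1, Finset.sum_mul]
    exact Finset.sum_congr rfl fun i _ => (mul_assoc _ _ _).symm
  have h2 : pderiv k (∑ i, C (ℓ i) * X i : MvPolynomial (Fin n) ℂ) = C (ℓ k) := by
    rw [map_sum, Finset.sum_eq_single k]
    · rw [pderiv_C_mul, pderiv_X_self, mul_one]
    · intro i _ hi
      rw [pderiv_C_mul, pderiv_X_of_ne hi, mul_zero]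
    · intro h
      exact absurd (Finset.mem_univ _) h
  have h3 : ∑ i, ℓ i * z i = z j * eval z f := by
    have h4 : ∑ i, ℓ i * z i = z j * (∑ i, z i * eval z (pderiv i f)) -
        ∑ i, (if i = j then (((e + 2 : ℕ) : ℂ) - 1) * eval z f * z i else 0) := by
      rw [Finset.mul_sum, ← Finset.sum_sub_distrib]
      refine Finset.sum_congr rfl fun i _ => ?_
      rw [hℓ i]
      split_ifs <;> ring
    rw [h4, hE, Finset.sum_ite_eq' Finset.univ j, if_pos (Finset.mem_univ _)]
    push_cast
    ring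
  have h5 : eval z (∑ i, C (ℓ i) * X i : MvPolynomial (Fin n) ℂ) = z j * eval z f := by
    rw [← h3, map_sum]
    exact Finset.sum_congr rfl fun i _ => by rw [map_mul, eval_C, eval_X]
  rw [h1, map_sub, pderiv_C_mul, pderiv_mul, h2, map_sub, map_mul, map_add, map_mul, map_mul, h5,
    eval_C, eval_C, map_pow, eval_X]
  by_cases hkj : k = j
  · subst hkj
    rw [pderiv_pow, pderiv_X_self, mul_one, Nat.add_sub_cancel, map_mul, map_natCast, map_pow, eval_X,
      hℓ k, if_pos rfl]
    push_cast
    ring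
  · rw [pderiv_pow, pderiv_X_of_ne (fun h => hkj h.symm), mul_zero, map_zero, hℓ k, if_neg hkj]
    ring

/-- the coefficients of the corrected generic form -/
noncomputable def corr (j : Fin n) (α : Exps n d) :
    MvPolynomial (Fin n) (MvPolynomial (Exps n d) ℂ) :=
  ∑ i, (X j * gg n d i - (if i = j then C (C ((d : ℂ) - 1)) * gen n d else 0)) *
    C (C (coeff α.1 (X i * X j ^ (d - 1) : MvPolynomial (Fin n) ℂ)))

theorem gen_mem (hd : 1 ≤ d) : gen n d ∈ Ideal.span (Set.range (gg n d)) := by
  have h1 := (gen_isHomogeneous (n := n) (d := d)).sum_X_mul_pderiv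
  have h2 : (d : MvPolynomial (Fin n) (MvPolynomial (Exps n d) ℂ)) * gen n d ∈
      Ideal.span (Set.range (gg n d)) := by
    rw [← nsmul_eq_mul, ← h1]
    exact Ideal.sum_mem _ fun i _ => Ideal.mul_mem_left _ _ (Ideal.subset_span ⟨i, rfl⟩)
  have h3 := Ideal.mul_mem_left _ (C (C ((d : ℂ)⁻¹))) h2
  have h4 : (C (C ((d : ℂ)⁻¹)) : MvPolynomial (Fin n) (MvPolynomial (Exps n d) ℂ)) *
      ((d : MvPolynomial (Fin n) (MvPolynomial (Exps n d) ℂ)) * gen n d) = gen n d := by
    have h5 : (d : MvPolynomial (Fin n) (MvPolynomial (Exps n d) ℂ)) = C (C (d : ℂ)) := by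
      rw [map_natCast, map_natCast]
    have h6 : (d : ℂ) ≠ 0 := by exact_mod_cast (by omega : d ≠ 0)
    rw [h5, ← mul_assoc, ← C_mul, ← C_mul, inv_mul_cancel₀ h6, C_1, C_1, one_mul]
  rwa [h4] at h3

theorem corr_mem (hd : 1 ≤ d) (j : Fin n) (α : Exps n d) :
    corr j α ∈ Ideal.span (Set.range (gg n d)) := by
  unfold corr
  refine Ideal.sum_mem _ fun i _ => Ideal.mul_mem_right _ _ (Ideal.sub_mem _
    (Ideal.mul_mem_left _ _ (Ideal.subset_span ⟨i, rfl⟩)) ?_)
  split_ifs
  · exact Ideal.mul_mem_left _ _ (gen_mem hd)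
  · exact Ideal.zero_mem _

/-- the substitution annihilates polynomials vanishing at the degenerate forms -/
theorem subst_eq_zero (hd : 2 ≤ d) (D : MvPolynomial (Exps n d) ℂ)
    (hD : ∀ c : Exps n d → ℂ, ¬ Nondeg c → eval c D = 0) (j : Fin n) :
    aeval (fun α : Exps n d => (X j ^ d * C (X α) - corr j α :
      MvPolynomial (Fin n) (MvPolynomial (Exps n d) ℂ))) D = 0 := by
  classical
  refine eq_zero_of_ev fun c z => ?_
  set ℓ : Fin n → ℂ := fun i => z j * eval z (pderiv i (form c)) -
      (if i = j then ((d : ℂ) - 1) * eval z (form c) else 0) with hℓ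
  set c' : Exps n d → ℂ := fun α => ev c z (X j ^ d * C (X α) - corr j α) with hc'
  have h1 : ev c z (aeval (fun α : Exps n d => (X j ^ d * C (X α) - corr j α :
      MvPolynomial (Fin n) (MvPolynomial (Exps n d) ℂ))) D) = eval c' D := by
    rw [aeval_def, hom_eval₂]
    have h2 : (ev c z).comp (algebraMap ℂ (MvPolynomial (Fin n) (MvPolynomial (Exps n d) ℂ))) =
        RingHom.id ℂ := by
      ext a
      change ev c z (C (C a)) = a
      rw [ev_apply, map_C, eval_C, eval_C]
    rw [h2]
    rfl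
  rw [h1]
  refine hD c' ?_
  have h3 : ∀ α : Exps n d, c' α = coeff α.1 (C (z j ^ d) * form c -
      ∑ i, C (ℓ i) * (X i * X j ^ (d - 1))) := by
    intro α
    rw [hc']
    simp only
    rw [map_sub, map_mul, map_pow]
    have e1 : ev c z (X j) = z j := by rw [ev_apply, map_X, eval_X]
    have e2 : ev c z (C (X α)) = c α := by rw [ev_apply, map_C, eval_C, eval_X]
    rw [e1, e2, coeff_sub, coeff_C_mul, coeff_form, coeff_sum]
    congr 1
    unfold corr
    rw [map_sum]
    refine Finset.sum_congr rfl fun i _ => ?_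
    rw [coeff_C_mul, map_mul, map_sub, map_mul, e1]
    have e3 : ∀ a : ℂ, ev c z (C (C a)) = a := fun a => by
      rw [ev_apply, map_C, eval_C, eval_C]
    rw [e3, ev_pderiv]
    congr 1
    rw [hℓ]
    simp only
    congr 1
    split_ifs
    · rw [map_mul, e3, ev_gen]
    · rw [map_zero]
  have hhom : (C (z j ^ d) * form c - ∑ i, C (ℓ i) * (X i * X j ^ (d - 1)) :
      MvPolynomial (Fin n) ℂ).IsHomogeneous d := by
    refine IsHomogeneous.sub ?_ ?_
    · have := (isHomogeneous_C (Fin n) (z j ^ d)).mul (form_isHomogeneous c)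
      rwa [zero_add] at this
    · refine IsHomogeneous.sum _ _ _ fun i _ => ?_
      have h4 := (isHomogeneous_C (Fin n) (ℓ i)).mul
        ((isHomogeneous_X ℂ i).mul ((isHomogeneous_X ℂ j).pow (d - 1)))
      have e5 : 0 + (1 + 1 * (d - 1)) = d := by omega
      rwa [e5] at h4
  have h4 : form c' = C (z j ^ d) * form c - ∑ i, C (ℓ i) * (X i * X j ^ (d - 1)) := by
    have : c' = fun α : Exps n d => coeff α.1 (C (z j ^ d) * form c -
      ∑ i, C (ℓ i) * (X i * X j ^ (d - 1))) := funext h3
    rw [this]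
    exact form_coeff _ hhom
  have hgrad : ∀ k, eval z (pderiv k (form c')) = 0 := by
    intro k
    rw [h4]
    exact corrected hd c z j ℓ (fun i => rfl) k
  intro hnd
  have hz : z = 0 := hnd z hgrad
  -- then the form itself is zero
  have hf0 : eval z (form c) = 0 := by
    have h5 := euler (form_isHomogeneous c) z
    rw [hz] at h5 ⊢
    simp only [Pi.zero_apply, zero_mul, Finset.sum_const_zero] at h5
    have h6 : (d : ℂ) ≠ 0 := by exact_mod_cast (by omega : d ≠ 0)
    exact (mul_eq_zero.1 h5.symm).resolve_left h6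
  have hℓ0 : ∀ i, ℓ i = 0 := by
    intro i
    rw [hℓ]
    simp only
    rw [hf0, hz, Pi.zero_apply, zero_mul, mul_zero, zero_sub]
    split_ifs <;> simp
  have hform0 : form c' = 0 := by
    rw [h4]
    simp only [hℓ0, C_0, zero_mul, Finset.sum_const_zero, sub_zero]
    rw [hz, Pi.zero_apply, zero_pow (by omega), C_0, zero_mul]
  have h7 := hnd (fun _ => 1) (fun i => by rw [hform0, map_zero, map_zero])
  have h8 := congrFun h7 j
  simp at h8

/-- congruent substitutions -/
theorem aeval_congr {C' : Type} [CommRing C'] [Algebra ℂ C'] (I : Ideal C') {τ : Type} (a b : τ → C')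
    (h : ∀ t, a t - b t ∈ I) (D : MvPolynomial τ ℂ) : aeval a D - aeval b D ∈ I := by
  rw [← Ideal.Quotient.eq]
  have h1 : ∀ a : τ → C', Ideal.Quotient.mk I (aeval a D) =
      aeval (fun t => Ideal.Quotient.mk I (a t)) D := by
    intro a
    have := (Ideal.Quotient.mkₐ ℂ I).comp_algebraMap
    change (Ideal.Quotient.mkₐ ℂ I) (aeval a D) = _
    rw [← AlgHom.comp_apply, comp_aeval]
    rfl
  rw [h1, h1]
  congr 2
  funext t
  exact (Ideal.Quotient.eq).2 (h t)

/-- scaling -/
theorem aeval_scale {C' : Type} [CommRing C'] [Algebra ℂ C'] {τ : Type} (t : C') (y : τ → C')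
    {m : ℕ} (D : MvPolynomial τ ℂ) (hD : D.IsHomogeneous m) :
    aeval (fun a => t * y a) D = t ^ m * aeval y D := by
  rw [aeval_def, aeval_def, eval₂_eq, eval₂_eq, Finset.mul_sum]
  refine Finset.sum_congr rfl fun γ hγ => ?_
  have h1 := hD (mem_support_iff.1 hγ)
  have h2 : ∏ i ∈ γ.support, (t * y i) ^ γ i = t ^ m * ∏ i ∈ γ.support, y i ^ γ i := by
    rw [← h1]
    simp only [mul_pow, Finset.prod_mul_distrib]
    congr 1
    rw [Finset.prod_pow_eq_pow_sum]
    congr 1
    rw [Finsupp.weight_apply, Finsupp.sum]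
    simp
  rw [h2]
  ring

theorem inertia_hom (hd : 2 ≤ d) (D : MvPolynomial (Exps n d) ℂ) {m : ℕ} (hm : D.IsHomogeneous m)
    (hD : ∀ c : Exps n d → ℂ, ¬ Nondeg c → eval c D = 0) (j : Fin n) :
    X j ^ (d * m) * C D ∈ Ideal.span (Set.range (gg n d)) := by
  have h1 := aeval_congr (Ideal.span (Set.range (gg n d)))
    (fun α : Exps n d => (X j ^ d * C (X α) :
      MvPolynomial (Fin n) (MvPolynomial (Exps n d) ℂ)))
    (fun α : Exps n d => (X j ^ d * C (X α) - corr j α :
      MvPolynomial (Fin n) (MvPolynomial (Exps n d) ℂ)))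
    (fun α => by rw [sub_sub_cancel]; exact corr_mem (by omega) j α) D
  rw [subst_eq_zero hd D hD j, sub_zero, aeval_scale _ _ D hm, ← pow_mul] at h1
  have h2 : aeval (fun α : Exps n d => (C (X α) :
      MvPolynomial (Fin n) (MvPolynomial (Exps n d) ℂ))) D = C D := by
    have h3 : (aeval (fun α : Exps n d => (C (X α) :
      MvPolynomial (Fin n) (MvPolynomial (Exps n d) ℂ)))) =
        (IsScalarTower.toAlgHom ℂ (MvPolynomial (Exps n d) ℂ)
          (MvPolynomial (Fin n) (MvPolynomial (Exps n d) ℂ))) := by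
      ext α : 1
      rw [aeval_X]
      rfl
    rw [h3]
    rfl
  rwa [h2] at h1

/-- the homogeneous components vanish at the degenerate forms, too -/
theorem comp_vanish (D : MvPolynomial (Exps n d) ℂ)
    (hD : ∀ c : Exps n d → ℂ, ¬ Nondeg c → eval c D = 0) (m : ℕ) :
    ∀ c : Exps n d → ℂ, ¬ Nondeg c → eval c (homogeneousComponent m D) = 0 := by
  classical
  intro c hc
  have hsm : ∀ t : ℂ, ¬ Nondeg (t • c) := by
    intro t hnd
    apply hc
    intro z hz
    refine hnd z fun i => ?_
    have h1 : form (t • c) = C t * form c := by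
      unfold form
      rw [Finset.mul_sum]
      exact Finset.sum_congr rfl fun α _ => by rw [C_mul_monomial]; rfl
    rw [h1, pderiv_C_mul, map_mul, hz i, mul_zero]
  set p : Polynomial ℂ := ∑ i ∈ Finset.range (D.totalDegree + 1),
    Polynomial.C (eval c (homogeneousComponent i D)) * Polynomial.X ^ i with hp
  have hp0 : p = 0 := by
    refine Polynomial.funext fun t => ?_
    rw [Polynomial.eval_zero, ← hD (t • c) (hsm t), hp, Polynomial.eval_finsetSum]
    conv_rhs => rw [← sum_homogeneousComponent D, map_sum]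
    refine Finset.sum_congr rfl fun i _ => ?_
    rw [Polynomial.eval_mul, Polynomial.eval_C, Polynomial.eval_pow, Polynomial.eval_X]
    have h2 := aeval_scale t c (homogeneousComponent i D) (homogeneousComponent_isHomogeneous i D)
    have h3 : ∀ (y : Exps n d → ℂ) (q : MvPolynomial (Exps n d) ℂ), aeval y q = eval y q :=
      fun y q => by rw [← coe_aeval_eq_eval]; rfl
    rw [h3, h3] at h2
    change _ = eval (fun a => t * c a) _
    rw [h2, mul_comm]
  rcases Nat.lt_or_ge D.totalDegree m with h | h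
  · rw [homogeneousComponent_eq_zero m D h, map_zero]
  · have h3 := congrArg (fun q => Polynomial.coeff q m) hp0
    simp only [hp, Polynomial.finsetSum_coeff, Polynomial.coeff_C_mul_X_pow, Polynomial.coeff_zero] at h3
    rw [Finset.sum_ite_eq (Finset.range (D.totalDegree + 1)) m, if_pos (Finset.mem_range.2 (by omega))] at h3
    exact h3

/-- **Inertia forms.** -/
theorem inertia (hd : 2 ≤ d) (D : MvPolynomial (Exps n d) ℂ)
    (hD : ∀ c : Exps n d → ℂ, ¬ Nondeg c → eval c D = 0) (N : ℕ) (hN : d * D.totalDegree ≤ N)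
    (j : Fin n) : X j ^ N * C D ∈ Ideal.span (Set.range (gg n d)) := by
  have h0 : (X j ^ N * C D : MvPolynomial (Fin n) (MvPolynomial (Exps n d) ℂ)) =
      ∑ i ∈ Finset.range (D.totalDegree + 1), X j ^ N * C (homogeneousComponent i D) := by
    rw [← Finset.mul_sum, ← map_sum, sum_homogeneousComponent]
  rw [h0]
  refine Ideal.sum_mem _ fun m hm => ?_
  have h1 := inertia_hom hd (homogeneousComponent m D) (homogeneousComponent_isHomogeneous m D)
    (comp_vanish D hD m) j
  have hm' : d * m ≤ N := (Nat.mul_le_mul_left d (Nat.lt_succ_iff.1 (Finset.mem_range.1 hm))).trans hN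
  obtain ⟨k, hk⟩ := Nat.exists_eq_add_of_le hm'
  rw [hk, pow_add, mul_comm (X j ^ (d * m)), mul_assoc]
  exact Ideal.mul_mem_left _ _ h1

end Pool.Agent.H435.Assoc
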