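import Pool.Agent.H435.AssocD

/-!
# MP_2a8a61_ag, part E: existence and uniqueness of the associated form
-/

set_option autoImplicit false

namespace Pool.Agent.H435.Assoc

open MvPolynomial

attribute [local instance] MvPolynomial.gradedAlgebra

variable {n d : ℕ}

theorem gg_isHomogeneous (i : Fin n) : (gg n d i).IsHomogeneous (d - 1) :=
  gen_isHomogeneous.pderiv

/-- the scaled matrix of the second derivatives -/
noncomputable def GG (n d : ℕ) : Matrix (Fin n) (Fin n) (MvPolynomial (Fin n) (MvPolynomial (Exps n d) ℂ)) :=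
  Matrix.of fun i j => C (C (((d : ℂ) - 1)⁻¹)) * pderiv j (pderiv i (gen n d))

theorem GG_spec (hd : 2 ≤ d) (i : Fin n) : gg n d i = ∑ j, GG n d i j * X j := by
  have h1 := (gg_isHomogeneous (n := n) (d := d) i).sum_X_mul_pderiv
  have h2 : ((d : ℂ) - 1) ≠ 0 := by
    have : ((d : ℂ) - 1) = ((d - 1 : ℕ) : ℂ) := by
      rw [Nat.cast_sub (by omega), Nat.cast_one]
    rw [this]
    exact_mod_cast (by omega : d - 1 ≠ 0)
  have h3 : ∑ j, GG n d i j * X j = C (C (((d : ℂ) - 1)⁻¹)) * ∑ j, X j * pderiv j (gg n d i) := by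
    rw [Finset.mul_sum]
    refine Finset.sum_congr rfl fun j _ => ?_
    simp only [GG, Matrix.of_apply]
    ring
  rw [h3, h1, nsmul_eq_mul]
  have h5 : ((d - 1 : ℕ) : MvPolynomial (Fin n) (MvPolynomial (Exps n d) ℂ)) = C (C ((d : ℂ) - 1)) := by
    have : ((d : ℂ) - 1) = ((d - 1 : ℕ) : ℂ) := by
      rw [Nat.cast_sub (by omega), Nat.cast_one]
    rw [this, map_natCast, map_natCast]
  rw [h5, ← mul_assoc, ← C_mul, ← C_mul, inv_mul_cancel₀ h2, C_1, C_1, one_mul]

theorem GG_det : (GG n d).det = C (C (((d : ℂ) - 1)⁻¹ ^ n)) * hess (gen n d) := by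
  have h1 : GG n d = (C (C (((d : ℂ) - 1)⁻¹)) : MvPolynomial (Fin n) (MvPolynomial (Exps n d) ℂ)) •
      (Matrix.of fun i j => pderiv i (pderiv j (gen n d))).transpose := by
    ext1 i j
    simp only [GG, Matrix.of_apply, Matrix.smul_apply, Matrix.transpose_apply, smul_eq_mul]
  rw [h1, Matrix.det_smul, Matrix.det_transpose, Fintype.card_fin, ← C_pow, ← C_pow]
  rfl

theorem hess_isHomogeneous {R : Type} [CommRing R] {f : MvPolynomial (Fin n) R} (hf : f.IsHomogeneous d) :
    (hess f).IsHomogeneous (n * (d - 2)) := by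
  unfold hess
  rw [Matrix.det_apply]
  refine IsHomogeneous.sum _ _ _ fun σ _ => ?_
  have h1 : (∏ i : Fin n, (Matrix.of fun i j => pderiv i (pderiv j f)) (σ i) i :
      MvPolynomial (Fin n) R).IsHomogeneous (∑ _i : Fin n, (d - 2)) := by
    refine IsHomogeneous.prod _ _ _ fun i _ => ?_
    simp only [Matrix.of_apply]
    have := (hf.pderiv (i := i)).pderiv (i := σ i)
    rwa [Nat.sub_sub] at this
  rw [Finset.sum_const, Finset.card_univ, Fintype.card_fin, smul_eq_mul] at h1
  rcases Int.units_eq_one_or (Equiv.Perm.sign σ) with h | h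
  · rw [h, one_smul]
    exact h1
  · rw [h, Units.neg_smul, one_smul]
    exact h1.neg

theorem map_hess {R S : Type} [CommRing R] [CommRing S] (φ : R →+* S) (f : MvPolynomial (Fin n) R) :
    map φ (hess f) = hess (map φ f) := by
  unfold hess
  rw [RingHom.map_det]
  congr 1
  ext1 i j
  simp only [RingHom.mapMatrix_apply, Matrix.map_apply, Matrix.of_apply]
  rw [← pderiv_map, ← pderiv_map]

theorem scale_ne (hd : 2 ≤ d) : ((d : ℂ) - 1)⁻¹ ^ n ≠ 0 := by
  have : ((d : ℂ) - 1) = ((d - 1 : ℕ) : ℂ) := by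
    rw [Nat.cast_sub (by omega), Nat.cast_one]
  rw [this]
  refine pow_ne_zero _ (inv_ne_zero ?_)
  exact_mod_cast (by omega : d - 1 ≠ 0)

/-- polynomials vanishing at the degenerate forms multiply the monomials of the socle degree into
the span of the Hessian -/
theorem exists_r (hd : 2 ≤ d) (D : MvPolynomial (Exps n d) ℂ)
    (hD : ∀ c : Exps n d → ℂ, ¬ Nondeg c → eval c D = 0) (β : Exps n (n * (d - 2))) :
    ∃ r : MvPolynomial (Exps n d) ℂ,
      C D * monomial β.1 1 - C r * hess (gen n d) ∈ Ideal.span (Set.range (gg n d)) := by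
  set N : ℕ := d * D.totalDegree + d with hN
  have h1 := chain_exists (gg n d) (GG n d) N (d - 1) gg_isHomogeneous (GG_spec hd) (by omega)
    (by omega) (SS_X (by omega) N) (SS_g (by omega) N) n le_rfl (n * (d - 2))
    (C D * monomial β.1 1) ?_ ?_ ?_ ?_
  · obtain ⟨r, hr⟩ := h1
    rw [JJ_top, MM_top, GG_det, ← mul_assoc, ← C_mul] at hr
    exact ⟨_, hr⟩
  · rw [← Nat.mul_add]
    congr 1
    omega
  · have := (isHomogeneous_C (Fin n) D).mul
      (isHomogeneous_monomial (1 : MvPolynomial (Exps n d) ℂ) (mem_exps.1 β.2))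
    rwa [zero_add] at this
  · intro j
    rw [JJ_top, ← mul_assoc]
    exact Ideal.mul_mem_right _ _ (inertia hd D hD N (by omega) j)
  · intro i
    rw [JJ_top]
    exact Ideal.mul_mem_right _ _ (Ideal.subset_span ⟨i, rfl⟩)

/-- the Hessian of the generic form is not torsion modulo the partial derivatives -/
theorem hess_torsion (hd : 2 ≤ d) (q : MvPolynomial (Exps n d) ℂ)
    (hq : C q * hess (gen n d) ∈ Ideal.span (Set.range (gg n d))) : q = 0 := by
  have h1 := chain_unique (gg n d) (GG n d) 1 (GG_spec hd) le_rfl (SS_g (by omega) 1) q n le_rfl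
  rw [JJ_top, MM_top, GG_det] at h1
  refine h1 ?_
  have : C q * (C (C (((d : ℂ) - 1)⁻¹ ^ n)) * hess (gen n d)) =
      C (C (((d : ℂ) - 1)⁻¹ ^ n)) * (C q * hess (gen n d)) := by ring
  rw [this]
  exact Ideal.mul_mem_left _ _ hq

/-- the ideal of the partial derivatives of a form -/
noncomputable abbrev idl (c : Exps n d → ℂ) : Ideal (MvPolynomial (Fin n) ℂ) :=
  Ideal.span (Set.range fun i => pderiv i (form c))

theorem map_mem {c : Exps n d → ℂ} {p : MvPolynomial (Fin n) (MvPolynomial (Exps n d) ℂ)}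
    (hp : p ∈ Ideal.span (Set.range (gg n d))) : map (eval c) p ∈ idl c := by
  have h1 := Ideal.mem_map_of_mem (map (eval c)) hp
  rw [Ideal.map_span, ← Set.range_comp] at h1
  have h2 : (map (eval c)) ∘ gg n d = fun i => pderiv i (form c) := by
    funext i
    change map (eval c) (pderiv i (gen n d)) = _
    rw [← pderiv_map, map_gen]
  rwa [h2] at h1

/-- if all the monomials of some degree are in the ideal of a form, then a polynomial not vanishing at
the form multiplies them into the ideal of the generic form -/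
theorem exists_q (c : Exps n d → ℂ) (ν : ℕ)
    (h : ∀ β : Exps n ν, (monomial β.1 1 : MvPolynomial (Fin n) ℂ) ∈ idl c) :
    ∃ q : MvPolynomial (Exps n d) ℂ, eval c q = 1 ∧
      ∀ β : Exps n ν, C q * monomial β.1 1 ∈ Ideal.span (Set.range (gg n d)) := by
  classical
  have h1 : ∀ β : Exps n ν, ∃ a : Fin n → MvPolynomial (Fin n) ℂ,
      ∑ i, a i * pderiv i (form c) = monomial β.1 1 := fun β =>
    Ideal.mem_span_range_iff_exists_fun.1 (h β)
  choose a ha using h1
  set p : Exps n ν → MvPolynomial (Fin n) (MvPolynomial (Exps n d) ℂ) := fun β =>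
    ∑ i, map C (a β i) * gg n d i with hp
  have hpm : ∀ β, p β ∈ Ideal.span (Set.range (gg n d)) := fun β =>
    Ideal.sum_mem _ fun i _ => Ideal.mul_mem_left _ _ (Ideal.subset_span ⟨i, rfl⟩)
  have hpe : ∀ β, map (eval c) (p β) = monomial β.1 1 := by
    intro β
    rw [hp]
    simp only
    rw [map_sum, ← ha β]
    refine Finset.sum_congr rfl fun i _ => ?_
    rw [map_mul, map_map]
    have e1 : (eval c).comp (C : ℂ →+* MvPolynomial (Exps n d) ℂ) = RingHom.id ℂ := by
      ext x
      exact eval_C x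
    rw [e1, map_id]
    congr 1
    change map (eval c) (pderiv i (gen n d)) = _
    rw [← pderiv_map, map_gen]
  set M : Matrix (Exps n ν) (Exps n ν) (MvPolynomial (Exps n d) ℂ) :=
    Matrix.of fun β γ => coeff γ.1 (p β) with hM
  refine ⟨M.det, ?_, ?_⟩
  · rw [RingHom.map_det]
    have h2 : (eval c).mapMatrix M = 1 := by
      ext1 β γ
      rw [RingHom.mapMatrix_apply, Matrix.map_apply, hM, Matrix.of_apply, ← coeff_map, hpe,
        coeff_monomial, Matrix.one_apply]
      simp only [Subtype.ext_iff]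
    rw [h2, Matrix.det_one]
  · intro γ
    have h3 : ∀ β, homogeneousComponent ν (p β) = ∑ γ' : Exps n ν, monomial γ'.1 (M β γ') := by
      intro β
      have h4 := form_coeff (d := ν) _ (homogeneousComponent_isHomogeneous ν (p β))
      rw [← h4]
      unfold form
      refine Finset.sum_congr rfl fun γ' _ => ?_
      have h5 : coeff γ'.1 (homogeneousComponent ν (p β)) = coeff γ'.1 (p β) := by
        rw [coeff_homogeneousComponent, if_pos (mem_exps.1 γ'.2)]
      exact congrArg (monomial γ'.1) h5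
    have h5 : ∑ β, C (M.adjugate γ β) * homogeneousComponent ν (p β) =
        C M.det * monomial γ.1 1 := by
      have h6 : ∀ β, C (M.adjugate γ β) * homogeneousComponent ν (p β) =
          ∑ γ' : Exps n ν, monomial γ'.1 (M.adjugate γ β * M β γ') := by
        intro β
        rw [h3, Finset.mul_sum]
        exact Finset.sum_congr rfl fun γ' _ => by rw [C_mul_monomial]
      rw [Finset.sum_congr rfl fun β _ => h6 β, Finset.sum_comm]
      have h7 : ∀ γ' : Exps n ν, ∑ β, monomial γ'.1 (M.adjugate γ β * M β γ') =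
          monomial γ'.1 ((M.adjugate * M) γ γ') := by
        intro γ'
        rw [← map_sum, Matrix.mul_apply]
      rw [Finset.sum_congr rfl fun γ' _ => h7 γ', Matrix.adjugate_mul, Finset.sum_eq_single γ]
      · rw [Matrix.smul_apply, Matrix.one_apply_eq, smul_eq_mul, mul_one, C_mul_monomial, mul_one]
      · intro γ' _ hγ'
        rw [Matrix.smul_apply, Matrix.one_apply_ne (fun h => hγ' h.symm), smul_zero, map_zero]
      · intro h
        exact absurd (Finset.mem_univ _) h
    rw [← h5]
    refine Ideal.sum_mem _ fun β _ => Ideal.mul_mem_left _ _ (comp_mem _ ?_ (hpm β) ν)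
    rintro x ⟨i, rfl⟩
    exact ⟨_, gg_isHomogeneous i⟩

/-- for a nondegenerate form all the monomials of some degree are in the ideal -/
theorem exists_degree (c : Exps n d → ℂ) (hc : Nondeg c) :
    ∃ ν, ∀ β : Exps n ν, (monomial β.1 1 : MvPolynomial (Fin n) ℂ) ∈ idl c := by
  classical
  have h1 : ∀ j, (X j : MvPolynomial (Fin n) ℂ) ∈ (idl c).radical := by
    intro j
    rw [← vanishingIdeal_zeroLocus_eq_radical (K := ℂ), mem_vanishingIdeal_iff]
    intro x hx
    rw [mem_zeroLocus_iff] at hx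
    have h2 : x = 0 := by
      refine hc x fun i => ?_
      have := hx _ (Ideal.subset_span ⟨i, rfl⟩)
      rwa [aeval_eq_eval] at this
    rw [aeval_X, h2, Pi.zero_apply]
  choose m hm using fun j => Ideal.mem_radical_iff.1 (h1 j)
  set K : ℕ := ∑ j, m j with hK
  refine ⟨n * K + 1, fun β => ?_⟩
  have hβ := mem_exps.1 β.2
  rw [Finsupp.degree_eq_sum] at hβ
  obtain ⟨j, hj⟩ : ∃ j, K ≤ β.1 j := by
    by_contra hcon
    push Not at hcon
    have : ∑ j, β.1 j ≤ ∑ _j : Fin n, K := Finset.sum_le_sum fun j _ => (hcon j).le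
    rw [hβ, Finset.sum_const, Finset.card_univ, Fintype.card_fin, smul_eq_mul] at this
    omega
  have hmj : m j ≤ β.1 j := (Finset.single_le_sum (fun _ _ => Nat.zero_le _) (Finset.mem_univ j)).trans hj
  have h3 : (monomial β.1 1 : MvPolynomial (Fin n) ℂ) =
      monomial (β.1 - Finsupp.single j (m j)) 1 * X j ^ m j := by
    rw [X_pow_eq_monomial, monomial_mul, mul_one, tsub_add_cancel_of_le]
    exact Finsupp.single_le_iff.2 hmj
  rw [h3]
  exact Ideal.mul_mem_left _ _ (hm j)

/-- the degenerate forms are Zariski closed -/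
theorem exists_D (c : Exps n d → ℂ) (hc : Nondeg c) :
    ∃ D : MvPolynomial (Exps n d) ℂ, eval c D = 1 ∧
      ∀ c' : Exps n d → ℂ, ¬ Nondeg c' → eval c' D = 0 := by
  classical
  obtain ⟨ν, hν⟩ := exists_degree c hc
  obtain ⟨q, hq1, hq⟩ := exists_q c ν hν
  refine ⟨q, hq1, fun c' hc' => ?_⟩
  unfold Nondeg at hc'
  push Not at hc'
  obtain ⟨z, hz, hz0⟩ := hc'
  obtain ⟨j, hj⟩ : ∃ j, z j ≠ 0 := by
    by_contra hcon
    push Not at hcon
    exact hz0 (funext hcon)
  have h1 := map_mem (c := c') (hq ⟨Finsupp.single j ν, mem_exps.2 (Finsupp.degree_single j ν)⟩)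
  have h2 : ∀ p ∈ idl c', eval z p = 0 := by
    intro p hp
    have h3 : idl c' ≤ RingHom.ker (eval z) := by
      rw [Ideal.span_le]
      rintro _ ⟨i, rfl⟩
      exact hz i
    exact h3 hp
  have h4 := h2 _ h1
  rw [map_mul, map_C, map_monomial, map_one, map_mul, eval_C, ← X_pow_eq_monomial, map_pow, eval_X] at h4
  exact (mul_eq_zero.1 h4).resolve_right (pow_ne_zero _ hj)

/-- **The Hessian is not in the ideal.** -/
theorem hess_notMem (hd : 2 ≤ d) (c : Exps n d → ℂ) (hc : Nondeg c) :
    hess (form c) ∉ idl c := by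
  classical
  intro hmem
  obtain ⟨D, hD1, hD⟩ := exists_D c hc
  have h1 : ∀ β : Exps n (n * (d - 2)), (monomial β.1 1 : MvPolynomial (Fin n) ℂ) ∈ idl c := by
    intro β
    obtain ⟨r, hr⟩ := exists_r hd D hD β
    have h2 := map_mem (c := c) hr
    rw [map_sub, map_mul, map_mul, map_C, map_C, map_hess, map_gen, hD1, C_1, one_mul, map_monomial,
      map_one] at h2
    have h3 := Ideal.add_mem _ h2 (Ideal.mul_mem_left _ (C (eval c r)) hmem)
    rwa [sub_add_cancel] at h3
  obtain ⟨q, hq1, hq⟩ := exists_q c _ h1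
  have h4 : C q * hess (gen n d) ∈ Ideal.span (Set.range (gg n d)) := by
    rw [← form_coeff _ (hess_isHomogeneous (n := n) (gen_isHomogeneous (n := n) (d := d)))]
    unfold form
    rw [Finset.mul_sum]
    refine Ideal.sum_mem _ fun β _ => ?_
    have h5 : ∀ x : MvPolynomial (Exps n d) ℂ, C q * monomial β.1 x = C x * (C q * monomial β.1 1) := by
      intro x
      rw [C_mul_monomial, C_mul_monomial, C_mul_monomial, mul_one]
      exact congrArg (monomial β.1) (mul_comm _ _)
    rw [h5]
    exact Ideal.mul_mem_left _ _ (hq β)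
  have h6 := hess_torsion hd q h4
  rw [h6, map_zero] at hq1
  exact zero_ne_one hq1

/-- from power series to polynomials -/
theorem of_powerSeries {e m : ℕ} (f : Fin n → MvPolynomial (Fin n) ℂ) (hf : ∀ i, (f i).IsHomogeneous e)
    (p : MvPolynomial (Fin n) ℂ) (hp : p.IsHomogeneous m)
    (h : (p : MvPowerSeries (Fin n) ℂ) ∈
      Ideal.span (Set.range fun i => ((f i : MvPolynomial (Fin n) ℂ) : MvPowerSeries (Fin n) ℂ))) :
    p ∈ Ideal.span (Set.range f) := by
  classical
  obtain ⟨a, ha⟩ := Ideal.mem_span_range_iff_exists_fun.1 h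
  set S : Finset (Fin n →₀ ℕ) := (Finset.range (m + 1)).biUnion fun k =>
    Finset.finsuppAntidiag (Finset.univ : Finset (Fin n)) k with hS
  set b : Fin n → MvPolynomial (Fin n) ℂ := fun i =>
    ∑ γ ∈ S, monomial γ (MvPowerSeries.coeff γ (a i)) with hb
  have hbc : ∀ i γ, γ.degree ≤ m → coeff γ (b i) = MvPowerSeries.coeff γ (a i) := by
    intro i γ hγ
    rw [hb]
    simp only
    rw [coeff_sum, Finset.sum_eq_single γ]
    · rw [coeff_monomial, if_pos rfl]
    · intro δ _ hδ
      rw [coeff_monomial, if_neg hδ]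
    · intro hγS
      exfalso
      apply hγS
      exact Finset.mem_biUnion.2 ⟨γ.degree, Finset.mem_range.2 (by omega), mem_exps.2 rfl⟩
  have h1 : homogeneousComponent m (∑ i, b i * f i) = p := by
    ext γ
    rw [coeff_homogeneousComponent]
    by_cases hγ : γ.degree = m
    · rw [if_pos hγ]
      have h2 : coeff γ p = MvPowerSeries.coeff γ (p : MvPowerSeries (Fin n) ℂ) :=
        (MvPolynomial.coeff_coe p γ).symm
      rw [h2, ← ha, map_sum, coeff_sum]
      refine Finset.sum_congr rfl fun i _ => ?_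
      rw [MvPowerSeries.coeff_mul, MvPolynomial.coeff_mul]
      refine Finset.sum_congr rfl fun x hx => ?_
      rw [MvPolynomial.coeff_coe, hbc]
      have h3 := Finset.HasAntidiagonal.mem_antidiagonal.1 hx
      have h4 : x.1.degree + x.2.degree = γ.degree := by
        rw [← h3, map_add]
      omega
    · rw [if_neg hγ, hp.coeff_eq_zero hγ]
  rw [← h1]
  refine comp_mem _ ?_ (Ideal.sum_mem _ fun i _ => Ideal.mul_mem_left _ _
    (Ideal.subset_span (Set.mem_range_self i))) m
  rintro x ⟨i, rfl⟩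
  exact ⟨_, hf i⟩

theorem toPowerSeries {c : Exps n d → ℂ} {p : MvPolynomial (Fin n) ℂ} (hp : p ∈ idl c) :
    (p : MvPowerSeries (Fin n) ℂ) ∈ milnorIdeal (form c) := by
  have h1 := Ideal.mem_map_of_mem (MvPolynomial.coeToMvPowerSeries.ringHom (R := ℂ) (σ := Fin n)) hp
  rw [Ideal.map_span, ← Set.range_comp] at h1
  exact h1

theorem linearForm_isHomogeneous (w : Fin n → ℂ) (m : ℕ) :
    ((∑ i, C (w i) * X i : MvPolynomial (Fin n) ℂ) ^ m).IsHomogeneous m := by
  have h1 : (∑ i, C (w i) * X i : MvPolynomial (Fin n) ℂ).IsHomogeneous 1 := by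
    refine IsHomogeneous.sum _ _ _ fun i _ => ?_
    have := (isHomogeneous_C (Fin n) (w i)).mul (isHomogeneous_X ℂ i)
    rwa [zero_add] at this
  have := h1.pow m
  rwa [one_mul] at this

/-- the congruence in the ring of polynomials -/
theorem assoc_mem (c : Exps n d → ℂ) {G : MvPolynomial (Fin n) ℂ}
    (hG : IsAssociatedForm d (form c) G) (w : Fin n → ℂ) :
    (∑ i, C (w i) * X i) ^ (n * (d - 2)) - C (eval w G) * hess (form c) ∈ idl c := by
  refine of_powerSeries (e := d - 1) (m := n * (d - 2)) _ (fun i => (form_isHomogeneous c).pderiv) _ ?_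
    (hG.2 w)
  refine IsHomogeneous.sub (linearForm_isHomogeneous w _) ?_
  have := (isHomogeneous_C (Fin n) (eval w G)).mul (hess_isHomogeneous (form_isHomogeneous c))
  rwa [zero_add] at this

/-- two polynomials which satisfy the same congruence are equal -/
theorem eq_of_cong (hd : 2 ≤ d) (c : Exps n d → ℂ) (hc : Nondeg c)
    (Q : (Fin n → ℂ) → MvPolynomial (Fin n) ℂ) (G G' : MvPolynomial (Fin n) ℂ)
    (hG : ∀ w, Q w - C (eval w G) * hess (form c) ∈ idl c)
    (hG' : ∀ w, Q w - C (eval w G') * hess (form c) ∈ idl c) : G = G' := by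
  refine MvPolynomial.funext fun w => ?_
  by_contra hne
  apply hess_notMem hd c hc
  have h1 := Ideal.sub_mem _ (hG' w) (hG w)
  have h2 : Q w - C (eval w G') * hess (form c) - (Q w - C (eval w G) * hess (form c)) =
      C (eval w G - eval w G') * hess (form c) := by
    rw [C_sub]
    ring
  rw [h2] at h1
  have h3 := Ideal.mul_mem_left _ (C (eval w G - eval w G')⁻¹) h1
  rwa [← mul_assoc, ← C_mul, inv_mul_cancel₀ (sub_ne_zero.2 hne), C_1, one_mul] at h3

/-- the multinomial expansion -/
theorem multinomial_expansion (w : Fin n → ℂ) (m : ℕ) :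
    (∑ i, C (w i) * X i : MvPolynomial (Fin n) ℂ) ^ m =
      ∑ β : Exps n m, C ((Nat.multinomial Finset.univ β.1 : ℂ) * ∏ i, w i ^ β.1 i) * monomial β.1 1 := by
  classical
  rw [Finset.sum_pow_eq_sum_piAntidiag]
  refine Finset.sum_bij' (fun k hk => ⟨Finsupp.equivFunOnFinite.symm k, ?_⟩) (fun β _ => β.1)
    (fun _ _ => Finset.mem_univ _) ?_ ?_ ?_ ?_
  · rw [mem_exps, Finsupp.degree_eq_sum]
    exact (Finset.mem_piAntidiag.1 hk).1
  · intro β _
    rw [Finset.mem_piAntidiag]
    refine ⟨?_, fun i _ => Finset.mem_univ i⟩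
    have := mem_exps.1 β.2
    rwa [Finsupp.degree_eq_sum] at this
  · intro k _
    rfl
  · intro β _
    exact Subtype.ext (Finsupp.equivFunOnFinite.symm_apply_apply β.1)
  · intro k _
    simp only [mul_pow, Finset.prod_mul_distrib]
    have h1 : (monomial (Finsupp.equivFunOnFinite.symm k) (1 : ℂ) : MvPolynomial (Fin n) ℂ) =
        ∏ i, X i ^ k i := by
      rw [monomial_eq, C_1, one_mul, Finsupp.prod_fintype]
      · rfl
      · intro i
        exact pow_zero _
    rw [h1, C_mul, map_natCast, ← mul_assoc]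
    congr 2
    rw [map_prod]
    exact Finset.prod_congr rfl fun i _ => (C_pow _ _).symm

theorem eval_form (w : Fin n → ℂ) {m : ℕ} (b : Exps n m → ℂ) :
    eval w (form b) = ∑ β : Exps n m, b β * ∏ i, w i ^ β.1 i := by
  unfold form
  rw [map_sum]
  refine Finset.sum_congr rfl fun β _ => ?_
  rw [eval_monomial, Finsupp.prod_fintype]
  intro i
  exact pow_zero _

/-- **The main construction.** -/
theorem exists_P (hd : 2 ≤ d) (D : MvPolynomial (Exps n d) ℂ)
    (hD : ∀ c : Exps n d → ℂ, ¬ Nondeg c → eval c D = 0) :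
    ∃ P : Exps n (n * (d - 2)) → MvPolynomial (Exps n d) ℂ, ∀ (c : Exps n d → ℂ) (w : Fin n → ℂ),
      C (eval c D) * (∑ i, C (w i) * X i) ^ (n * (d - 2)) -
        C (eval w (form fun β => eval c (P β))) * hess (form c) ∈ idl c := by
  classical
  choose r hr using exists_r hd D hD
  refine ⟨fun β => C (Nat.multinomial Finset.univ β.1 : ℂ) * r β, fun c w => ?_⟩
  rw [multinomial_expansion, eval_form, map_sum, Finset.mul_sum, Finset.sum_mul,
    ← Finset.sum_sub_distrib]
  refine Ideal.sum_mem _ fun β _ => ?_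
  have h1 := map_mem (c := c) (hr β)
  rw [map_sub, map_mul, map_mul, map_C, map_C, map_hess, map_gen, map_monomial, map_one] at h1
  have h2 := Ideal.mul_mem_left _ (C ((Nat.multinomial Finset.univ β.1 : ℂ) * ∏ i, w i ^ β.1 i)) h1
  have h3 : C (eval c D) * (C ((Nat.multinomial Finset.univ β.1 : ℂ) * ∏ i, w i ^ β.1 i) *
        monomial β.1 1) - C (eval c (C (Nat.multinomial Finset.univ β.1 : ℂ) * r β) *
          ∏ i, w i ^ β.1 i) * hess (form c) =
      C ((Nat.multinomial Finset.univ β.1 : ℂ) * ∏ i, w i ^ β.1 i) *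
        (C (eval c D) * monomial β.1 1 - C (eval c (r β)) * hess (form c)) := by
    have e : eval c (C (Nat.multinomial Finset.univ β.1 : ℂ) * r β) =
        (Nat.multinomial Finset.univ β.1 : ℂ) * eval c (r β) := by
      rw [map_mul, eval_C]
    rw [e]
    simp only [C_mul]
    ring
  rw [h3]
  exact h2

theorem extends_of_vanish (hd : 2 ≤ d) (D : MvPolynomial (Exps n d) ℂ)
    (hD : ∀ c : Exps n d → ℂ, ¬ Nondeg c → eval c D = 0) : Extends n d D := by
  obtain ⟨P, hP⟩ := exists_P hd D hD
  refine ⟨P, fun c hc G hG => ?_⟩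
  refine eq_of_cong hd c hc (fun w => C (eval c D) * (∑ i, C (w i) * X i) ^ (n * (d - 2))) _ _
    (fun w => ?_) (fun w => hP c w)
  have h1 := Ideal.mul_mem_left _ (C (eval c D)) (assoc_mem c hG w)
  have h2 : C (eval c D) * ((∑ i, C (w i) * X i) ^ (n * (d - 2)) - C (eval w G) * hess (form c)) =
      C (eval c D) * (∑ i, C (w i) * X i) ^ (n * (d - 2)) -
        C (eval w (C (eval c D) * G)) * hess (form c) := by
    rw [map_mul, eval_C, C_mul]
    ring
  rwa [h2] at h1

theorem existsUnique_assoc (hd : 2 ≤ d) (c : Exps n d → ℂ) (hc : Nondeg c) :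
    ∃! G, IsAssociatedForm d (form c) G := by
  obtain ⟨D, hD1, hD⟩ := exists_D c hc
  obtain ⟨P, hP⟩ := exists_P hd D hD
  refine ⟨form fun β => eval c (P β), ⟨form_isHomogeneous _, fun w => ?_⟩, fun G hG => ?_⟩
  · have h1 := hP c w
    rw [hD1, C_1, one_mul] at h1
    exact toPowerSeries h1
  · refine eq_of_cong hd c hc (fun w => (∑ i, C (w i) * X i) ^ (n * (d - 2))) _ _
      (fun w => assoc_mem c hG w) (fun w => ?_)
    have h1 := hP c w
    rwa [hD1, C_1, one_mul] at h1

end Pool.Agent.H435.Assoc
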