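import Mathlib

open MeasureTheory Set Topology

namespace Pool.Agent.H435.Mass

variable {d : ℕ}

/-- An `o`-symmetric convex body of `ℝ^d`: compact, convex, with nonempty interior, and equal to
its reflection in the origin. -/
structure IsBody (M : Set (Fin d → ℝ)) : Prop where
  isCompact : IsCompact M
  convex : Convex ℝ M
  nonempty_interior : (interior M).Nonempty
  neg_mem : ∀ x ∈ M, -x ∈ M

/-- The determinant of the matrix with rows `v i`. -/
noncomputable abbrev dt (v : Fin d → Fin d → ℝ) : ℝ := (Pi.basisFun ℝ (Fin d)).det v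

theorem dt_eq (v : Fin d → Fin d → ℝ) : dt v = Matrix.det (Matrix.of v) := by
  unfold dt
  rw [Pi.basisFun_det]
  rfl

/-- All determinants of tuples of points of `M` are at most `c` in absolute value. -/
def DetLE (M : Set (Fin d → ℝ)) (c : ℝ) : Prop :=
  ∀ v : Fin d → Fin d → ℝ, (∀ i, v i ∈ M) → |dt v| ≤ c

theorem IsBody.zero_mem_interior {M : Set (Fin d → ℝ)} (hM : IsBody M) : (0 : Fin d → ℝ) ∈ interior M := by
  obtain ⟨x, hx⟩ := hM.nonempty_interior
  have hneg : -x ∈ interior M := by
    have h2 : -interior M ⊆ M := by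
      intro y hy
      have h3 : -y ∈ M := interior_subset hy
      have := hM.neg_mem _ h3
      simpa using this
    have h4 : -interior M ⊆ interior M := interior_maximal h2 isOpen_interior.neg
    exact h4 (by simpa using hx)
  have := hM.convex.interior hx hneg (by norm_num : (0:ℝ) ≤ 1/2) (by norm_num : (0:ℝ) ≤ 1/2) (by norm_num)
  simpa using this

theorem IsBody.mem_nhds {M : Set (Fin d → ℝ)} (hM : IsBody M) : M ∈ 𝓝 (0 : Fin d → ℝ) :=
  mem_interior_iff_mem_nhds.1 hM.zero_mem_interior

theorem IsBody.zero_mem {M : Set (Fin d → ℝ)} (hM : IsBody M) : (0 : Fin d → ℝ) ∈ M :=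
  interior_subset hM.zero_mem_interior

theorem IsBody.absorbent {M : Set (Fin d → ℝ)} (hM : IsBody M) : Absorbent ℝ M :=
  absorbent_nhds_zero hM.mem_nhds

theorem IsBody.isClosed {M : Set (Fin d → ℝ)} (hM : IsBody M) : IsClosed M := hM.isCompact.isClosed

theorem IsBody.smul_mem {M : Set (Fin d → ℝ)} (hM : IsBody M) {x : Fin d → ℝ} (hx : x ∈ M) {t : ℝ}
    (ht : |t| ≤ 1) : t • x ∈ M := by
  rw [abs_le] at ht
  have h1 := hM.convex hx (hM.neg_mem x hx) (by linarith : (0:ℝ) ≤ (1+t)/2) (by linarith : (0:ℝ) ≤ (1-t)/2)
    (by ring)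
  have h2 : ((1+t)/2) • x + ((1-t)/2) • (-x) = t • x := by
    rw [smul_neg, ← sub_eq_add_neg, ← sub_smul]; congr 1; ring
  rwa [h2] at h1

theorem IsBody.exists_closedBall {M : Set (Fin d → ℝ)} (hM : IsBody M) :
    ∃ r : ℝ, 0 < r ∧ Metric.closedBall (0 : Fin d → ℝ) r ⊆ M :=
  Metric.nhds_basis_closedBall.mem_iff.1 hM.mem_nhds

/-- linear images of bodies are bodies -/
theorem IsBody.image {M : Set (Fin d → ℝ)} (hM : IsBody M) (A : (Fin d → ℝ) ≃ₗ[ℝ] (Fin d → ℝ)) :
    IsBody (A '' M) where
  isCompact := hM.isCompact.image (A.toContinuousLinearEquiv.continuous)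
  convex := hM.convex.linear_image A.toLinearMap
  nonempty_interior := by
    have h1 : A.toContinuousLinearEquiv.toHomeomorph '' (interior M)
        = interior (A.toContinuousLinearEquiv.toHomeomorph '' M) :=
      A.toContinuousLinearEquiv.toHomeomorph.image_interior M
    have h2 : (interior (A.toContinuousLinearEquiv.toHomeomorph '' M)).Nonempty := by
      rw [← h1]; exact hM.nonempty_interior.image _
    exact h2
  neg_mem := by
    rintro _ ⟨x, hx, rfl⟩
    exact ⟨-x, hM.neg_mem x hx, by simp⟩

theorem dt_map (A : (Fin d → ℝ) →ₗ[ℝ] (Fin d → ℝ)) (v : Fin d → Fin d → ℝ) :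
    dt (fun i => A (v i)) = LinearMap.det A * dt v :=
  Module.Basis.det_comp (Pi.basisFun ℝ (Fin d)) A v

theorem DetLE.image {M : Set (Fin d → ℝ)} {c : ℝ} (h : DetLE M c) (A : (Fin d → ℝ) →ₗ[ℝ] (Fin d → ℝ)) :
    DetLE (A '' M) (|LinearMap.det A| * c) := by
  intro v hv
  choose w hw hwv using hv
  have : v = fun i => A (w i) := by ext i; rw [hwv i]
  rw [this, dt_map, abs_mul]
  exact mul_le_mul_of_nonneg_left (h w hw) (abs_nonneg _)

theorem volume_image (A : (Fin d → ℝ) →ₗ[ℝ] (Fin d → ℝ)) (M : Set (Fin d → ℝ)) :
    volume (A '' M) = ENNReal.ofReal |LinearMap.det A| * volume M :=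
  MeasureTheory.Measure.addHaar_image_linearMap volume A M

theorem IsBody.volume_ne_top {M : Set (Fin d → ℝ)} (hM : IsBody M) : volume M ≠ ⊤ :=
  hM.isCompact.measure_lt_top.ne

theorem IsBody.volume_pos {M : Set (Fin d → ℝ)} (hM : IsBody M) : 0 < volume M :=
  lt_of_lt_of_le (isOpen_interior.measure_pos volume hM.nonempty_interior) (measure_mono interior_subset)

/-- multilinear maps bounded on a set are bounded on its convex hull -/
theorem abs_le_of_convexHull {S : Set (Fin d → ℝ)} {C : ℝ}
    (h : DetLE S C) : DetLE (convexHull ℝ S) C := by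
  classical
  have key : ∀ s : Finset (Fin d), ∀ v : Fin d → Fin d → ℝ, (∀ i ∈ s, v i ∈ convexHull ℝ S) →
      (∀ i, i ∉ s → v i ∈ S) → |dt v| ≤ C := by
    intro s
    induction s using Finset.induction_on with
    | empty =>
      intro v _ hv
      exact h v (fun i => hv i (Finset.notMem_empty i))
    | insert a s ha ih =>
      intro v hv hv'
      have hconv : Convex ℝ {x : Fin d → ℝ | |dt (Function.update v a x)| ≤ C} := by
        intro x hx y hy p q hp hq hpq
        simp only [Set.mem_ofPred_eq] at hx hy ⊢
        have h1 : dt (Function.update v a (p • x + q • y)) =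
            p * dt (Function.update v a x) + q * dt (Function.update v a y) := by
          unfold dt
          rw [AlternatingMap.map_update_add, AlternatingMap.map_update_smul,
            AlternatingMap.map_update_smul]
          simp
        rw [h1]
        calc |p * dt (Function.update v a x) + q * dt (Function.update v a y)|
            ≤ |p * dt (Function.update v a x)| + |q * dt (Function.update v a y)| := abs_add_le _ _
          _ = p * |dt (Function.update v a x)| + q * |dt (Function.update v a y)| := by
              rw [abs_mul, abs_mul, abs_of_nonneg hp, abs_of_nonneg hq]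
          _ ≤ p * C + q * C := by gcongr
          _ = C := by rw [← add_mul, hpq, one_mul]
      have hsub : S ⊆ {x : Fin d → ℝ | |dt (Function.update v a x)| ≤ C} := by
        intro x hx
        apply ih
        · intro i hi
          have : i ≠ a := by rintro rfl; exact ha hi
          rw [Function.update_of_ne this]
          exact hv i (Finset.mem_insert_of_mem hi)
        · intro i hi
          by_cases hia : i = a
          · subst hia; simpa using hx
          · rw [Function.update_of_ne hia]
            exact hv' i (by simp [hia, hi])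
      have h2 := convexHull_min hsub hconv (hv a (Finset.mem_insert_self a s))
      simpa using h2
  intro v hv
  exact key Finset.univ v (fun i _ => hv i) (fun i hi => absurd (Finset.mem_univ i) hi)

/-- continuity of the determinant in the tuple -/
theorem continuous_dt : Continuous (fun v : Fin d → Fin d → ℝ => dt v) := by
  simp_rw [dt_eq]
  exact Continuous.matrix_det (by fun_prop)

end Pool.Agent.H435.Mass
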