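import Pool.Agent.H435.MassA

open MeasureTheory Set Topology Filter
open scoped Pointwise

namespace Pool.Agent.H435.Mass

variable {d : ℕ}

/-- `M` has the largest volume among the bodies all of whose determinants are at most one. -/
structure Ext (M : Set (Fin d → ℝ)) : Prop where
  body : IsBody M
  det_le : DetLE M 1
  max : ∀ M' : Set (Fin d → ℝ), IsBody M' → DetLE M' 1 → volume M' ≤ volume M

/-- a convex symmetric nonempty set containing the unit vectors contains the unit ball of `ℓ_1` -/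
theorem mem_of_sum_abs_le {K : Set (Fin d → ℝ)} (hc : Convex ℝ K) (hs : ∀ x ∈ K, -x ∈ K)
    (h0 : (0 : Fin d → ℝ) ∈ K) (he : ∀ i, (Pi.single i (1:ℝ) : Fin d → ℝ) ∈ K) {x : Fin d → ℝ}
    (hx : ∑ i, |x i| ≤ 1) : x ∈ K := by
  classical
  let w : Option (Fin d) → ℝ := fun o => o.elim (1 - ∑ i, |x i|) (fun i => |x i|)
  let p : Option (Fin d) → (Fin d → ℝ) := fun o => o.elim 0
    (fun i => if 0 ≤ x i then Pi.single i (1:ℝ) else -Pi.single i (1:ℝ))
  have h1 : ∑ o, w o • p o ∈ K := by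
    apply hc.sum_mem
    · intro o _
      cases o with
      | none => simp only [w, Option.elim]; linarith
      | some i => simp only [w, Option.elim]; exact abs_nonneg _
    · rw [Fintype.sum_option]; simp [w]
    · intro o _
      cases o with
      | none => simpa [p] using h0
      | some i =>
        simp only [p, Option.elim]
        split_ifs
        · exact he i
        · exact hs _ (he i)
  have h2 : ∑ o, w o • p o = x := by
    rw [Fintype.sum_option]
    simp only [w, p, Option.elim, smul_zero, zero_add]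
    have h3 : ∀ i, |x i| • (if 0 ≤ x i then Pi.single i (1:ℝ) else -Pi.single i (1:ℝ) : Fin d → ℝ)
        = Pi.single i (x i) := by
      intro i
      split_ifs with h
      · rw [abs_of_nonneg h, ← Pi.single_smul]; simp
      · rw [abs_of_neg (not_le.1 h), smul_neg, neg_smul, neg_neg, ← Pi.single_smul]; simp
    simp_rw [h3]
    exact Finset.univ_sum_single x
  rwa [h2] at h1

theorem closedBall_subset {K : Set (Fin d → ℝ)} (hc : Convex ℝ K) (hs : ∀ x ∈ K, -x ∈ K)
    (h0 : (0 : Fin d → ℝ) ∈ K) (he : ∀ i, (Pi.single i (1:ℝ) : Fin d → ℝ) ∈ K) :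
    Metric.closedBall (0 : Fin d → ℝ) (1 / (d + 1 : ℝ)) ⊆ K := by
  intro x hx
  apply mem_of_sum_abs_le hc hs h0 he
  rw [mem_closedBall_zero_iff] at hx
  calc ∑ i, |x i| ≤ ∑ _i : Fin d, (1 / (d + 1 : ℝ)) := by
        apply Finset.sum_le_sum
        intro i _
        exact (norm_le_pi_norm x i).trans hx
    _ = d * (1 / (d + 1 : ℝ)) := by simp
    _ ≤ 1 := by
        rw [mul_one_div, div_le_one (by positivity)]; linarith

theorem norm_single_le (i : Fin d) : ‖(Pi.single i (1:ℝ) : Fin d → ℝ)‖ ≤ 1 := by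
  rw [pi_norm_le_iff_of_nonneg zero_le_one]
  intro j
  by_cases h : j = i
  · subst h; simp
  · simp [Pi.single_eq_of_ne h]

theorem dt_single : dt (fun i => (Pi.single i (1:ℝ) : Fin d → ℝ)) = 1 := by
  have : (fun i => (Pi.single i (1:ℝ) : Fin d → ℝ)) = ⇑(Pi.basisFun ℝ (Fin d)) := by
    ext i j; simp
  unfold dt
  rw [this]
  exact Module.Basis.det_self _

/-- the maximal determinant is attained and positive -/
theorem IsBody.exists_max_dt {M : Set (Fin d → ℝ)} (hM : IsBody M) :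
    ∃ v : Fin d → Fin d → ℝ, (∀ i, v i ∈ M) ∧ 0 < |dt v| ∧ DetLE M |dt v| := by
  have hcomp : IsCompact (Set.pi univ (fun _ : Fin d => M)) := isCompact_univ_pi (fun _ => hM.isCompact)
  have hne : (Set.pi univ (fun _ : Fin d => M)).Nonempty := ⟨fun _ => 0, fun _ _ => hM.zero_mem⟩
  obtain ⟨v, hv, hmax⟩ := hcomp.exists_isMaxOn hne
    (f := fun v : Fin d → Fin d → ℝ => |dt v|) (continuous_dt.abs).continuousOn
  have hv' : ∀ i, v i ∈ M := fun i => hv i (mem_univ i)
  have hdet : DetLE M |dt v| := fun w hw => hmax (fun i _ => hw i)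
  refine ⟨v, hv', ?_, hdet⟩
  obtain ⟨r, hr, hrM⟩ := hM.exists_closedBall
  have h1 := hdet (fun i => r • (Pi.single i (1:ℝ) : Fin d → ℝ)) (fun i => hrM (by
    rw [mem_closedBall_zero_iff, norm_smul, Real.norm_eq_abs, abs_of_pos hr]
    calc r * ‖(Pi.single i (1:ℝ) : Fin d → ℝ)‖ ≤ r * 1 := by
          gcongr; exact norm_single_le i
      _ = r := mul_one r))
  have h2 : dt (fun i => r • (Pi.single i (1:ℝ) : Fin d → ℝ)) = r ^ d := by
    unfold dt
    have := (Pi.basisFun ℝ (Fin d)).det.map_smul_univ (fun _ => r) (fun i => (Pi.single i (1:ℝ) : Fin d → ℝ))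
    rw [this]
    have h3 := dt_single (d := d)
    unfold dt at h3
    rw [h3]; simp
  rw [h2] at h1
  have : 0 < |r ^ d| := abs_pos.2 (pow_pos hr d).ne'
  linarith

/-- every body can be put in a normalised position -/
theorem exists_image {M : Set (Fin d → ℝ)} (hM : IsBody M) :
    ∃ A : (Fin d → ℝ) ≃ₗ[ℝ] (Fin d → ℝ), ∃ v : Fin d → Fin d → ℝ, (∀ i, v i ∈ M) ∧
      |LinearMap.det (A : (Fin d → ℝ) →ₗ[ℝ] (Fin d → ℝ))| * |dt v| = 1 ∧
      IsBody (A '' M) ∧ DetLE (A '' M) 1 ∧ (∀ i, (Pi.single i (1:ℝ) : Fin d → ℝ) ∈ A '' M) ∧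
      A '' M ⊆ Metric.closedBall 0 1 := by
  obtain ⟨v, hv, hpos, hmax⟩ := hM.exists_max_dt
  have hne : dt v ≠ 0 := abs_pos.1 hpos
  have hb := ((Pi.basisFun ℝ (Fin d)).is_basis_iff_det).2 (isUnit_iff_ne_zero.2 hne)
  let b : Module.Basis (Fin d) ℝ (Fin d → ℝ) := Module.Basis.mk hb.1 (by rw [hb.2])
  have hbv : ∀ i, b i = v i := fun i => by simp [b]
  let A : (Fin d → ℝ) ≃ₗ[ℝ] (Fin d → ℝ) := b.equiv (Pi.basisFun ℝ (Fin d)) (Equiv.refl _)
  have hA : ∀ i, A (v i) = Pi.single i (1:ℝ) := by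
    intro i
    rw [← hbv i]
    simp [A]
  have hdet : LinearMap.det (A : (Fin d → ℝ) →ₗ[ℝ] (Fin d → ℝ)) * dt v = 1 := by
    rw [← dt_map]
    have : (fun i => (A : (Fin d → ℝ) →ₗ[ℝ] (Fin d → ℝ)) (v i)) = fun i => (Pi.single i (1:ℝ) : Fin d → ℝ) := by
      ext i; rw [LinearEquiv.coe_coe, hA i]
    rw [this, dt_single]
  have habs : |LinearMap.det (A : (Fin d → ℝ) →ₗ[ℝ] (Fin d → ℝ))| * |dt v| = 1 := by
    rw [← abs_mul, hdet, abs_one]
  have himg : DetLE (A '' M) 1 := by
    have := hmax.image (A : (Fin d → ℝ) →ₗ[ℝ] (Fin d → ℝ))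
    rwa [habs] at this
  have he : ∀ i, (Pi.single i (1:ℝ) : Fin d → ℝ) ∈ A '' M := fun i => ⟨v i, hv i, hA i⟩
  refine ⟨A, v, hv, habs, hM.image A, himg, he, ?_⟩
  intro x hx
  rw [mem_closedBall_zero_iff, pi_norm_le_iff_of_nonneg zero_le_one]
  intro i
  have h2 := himg (Function.update (fun j => (Pi.single j (1:ℝ) : Fin d → ℝ)) i x) (by
    intro j
    by_cases h : j = i
    · subst h; simpa using hx
    · rw [Function.update_of_ne h]; exact he j)
  have h3 : dt (Function.update (fun j => (Pi.single j (1:ℝ) : Fin d → ℝ)) i x) = x i := by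
    have h4 : (fun j => (Pi.single j (1:ℝ) : Fin d → ℝ)) = ⇑(Pi.basisFun ℝ (Fin d)) := by
      ext i j; simp
    have h5 : x = ∑ j, x j • (Pi.basisFun ℝ (Fin d)) j := by
      ext k; simp [Finset.sum_apply, Pi.single_apply]
    unfold dt
    rw [h4]
    have h6 := AlternatingMap.map_update_sum ((Pi.basisFun ℝ (Fin d)).det) Finset.univ i
      (fun j => x j • (Pi.basisFun ℝ (Fin d)) j) ⇑(Pi.basisFun ℝ (Fin d))
    rw [← h5] at h6
    rw [h6, Finset.sum_eq_single i]
    · rw [AlternatingMap.map_update_smul, Function.update_eq_self, Module.Basis.det_self]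
      simp
    · intro j _ hj
      rw [AlternatingMap.map_update_smul, AlternatingMap.map_update_self _ _ (Ne.symm hj), smul_zero]
    · intro h; exact absurd (Finset.mem_univ _) h
  rw [h3] at h2
  exact h2

/-- every body with determinants at most one has a normalised image of at least its volume -/
theorem exists_normalised {M : Set (Fin d → ℝ)} (hM : IsBody M) (h1 : DetLE M 1) :
    ∃ M' : Set (Fin d → ℝ), IsBody M' ∧ DetLE M' 1 ∧ (∀ i, (Pi.single i (1:ℝ) : Fin d → ℝ) ∈ M') ∧
      M' ⊆ Metric.closedBall 0 1 ∧ volume M ≤ volume M' := by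
  obtain ⟨A, v, hv, habs, hb, himg, he, hsub⟩ := exists_image hM
  refine ⟨A '' M, hb, himg, he, hsub, ?_⟩
  have h2 : volume (A '' M) = ENNReal.ofReal |LinearMap.det (A : (Fin d → ℝ) →ₗ[ℝ] (Fin d → ℝ))| * volume M :=
    volume_image (A : (Fin d → ℝ) →ₗ[ℝ] (Fin d → ℝ)) M
  rw [h2]
  have h3 : (1:ℝ) ≤ |LinearMap.det (A : (Fin d → ℝ) →ₗ[ℝ] (Fin d → ℝ))| := by
    have h4 : |dt v| ≤ 1 := h1 v hv
    nlinarith [abs_nonneg (LinearMap.det (A : (Fin d → ℝ) →ₗ[ℝ] (Fin d → ℝ)))]
  calc volume M = 1 * volume M := (one_mul _).symm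
    _ ≤ _ := by
      gcongr
      rw [← ENNReal.ofReal_one]
      exact ENNReal.ofReal_le_ofReal h3

theorem isBody_closedBall {r : ℝ} (hr : 0 < r) : IsBody (Metric.closedBall (0 : Fin d → ℝ) r) where
  isCompact := isCompact_closedBall 0 r
  convex := convex_closedBall 0 r
  nonempty_interior := ⟨0, by
    rw [mem_interior_iff_mem_nhds]; exact Metric.closedBall_mem_nhds 0 hr⟩
  neg_mem := by intro x hx; simpa using hx

/-- there is a body of largest volume among those with all determinants at most one -/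
theorem exists_ext (d : ℕ) : ∃ M : Set (Fin d → ℝ), Ext M := by
  classical
  let C : Set (Set (Fin d → ℝ)) := {M | IsBody M ∧ DetLE M 1 ∧
    (∀ i, (Pi.single i (1:ℝ) : Fin d → ℝ) ∈ M) ∧ M ⊆ Metric.closedBall 0 1}
  have hCne : C.Nonempty := by
    obtain ⟨A, v, hv, habs, hb, himg, he, hsub⟩ :=
      exists_image (isBody_closedBall (d := d) one_pos)
    exact ⟨_, hb, himg, he, hsub⟩
  obtain ⟨u, -, hu, huC⟩ := exists_seq_tendsto_sSup (S := (fun M : Set (Fin d → ℝ) => volume M) '' C)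
    (hCne.image _) (OrderTop.bddAbove _)
  choose M hMC hMu using huC
  have hMcomp : ∀ n, IsCompact (M n) := fun n => (hMC n).1.isCompact
  have hMne : ∀ n, (M n).Nonempty := fun n => ⟨0, (hMC n).1.zero_mem⟩
  let K : ℕ → TopologicalSpace.NonemptyCompacts (Fin d → ℝ) := fun n => ⟨⟨M n, hMcomp n⟩, hMne n⟩
  obtain ⟨L, hL, φ, hφ, hlim⟩ :=
    (TopologicalSpace.NonemptyCompacts.isCompact_subsets_of_isCompact
      (isCompact_closedBall (0 : Fin d → ℝ) 1)).tendsto_subseq (x := K) (fun n => (hMC n).2.2.2)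
  have hdist : Tendsto (fun n => Metric.hausdorffDist (M (φ n)) (L : Set (Fin d → ℝ))) atTop (𝓝 0) := by
    have := tendsto_iff_dist_tendsto_zero.1 hlim
    exact this
  have hfin : ∀ n, Metric.hausdorffEDist (M (φ n)) (L : Set (Fin d → ℝ)) ≠ ⊤ := fun n =>
    Metric.hausdorffEDist_ne_top_of_nonempty_of_bounded (hMne _) L.nonempty (hMcomp _).isBounded
      L.isCompact.isBounded
  -- approximation of points of the limit
  have happ : ∀ x ∈ (L : Set (Fin d → ℝ)), ∃ y : ℕ → (Fin d → ℝ), (∀ n, y n ∈ M (φ n)) ∧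
      Tendsto y atTop (𝓝 x) := by
    intro x hx
    have h1 : ∀ n, ∃ y ∈ M (φ n), dist y x < Metric.hausdorffDist (M (φ n)) (L : Set (Fin d → ℝ)) + 1 / (n + 1) := by
      intro n
      obtain ⟨y, hy, hyd⟩ := Metric.exists_dist_lt_of_hausdorffDist_lt' (r := Metric.hausdorffDist (M (φ n)) (L : Set (Fin d → ℝ)) + 1 / (n + 1)) hx
        (lt_add_of_pos_right _ (by positivity)) (hfin n)
      exact ⟨y, hy, hyd⟩
    choose y hy hyd using h1
    refine ⟨y, hy, ?_⟩
    rw [tendsto_iff_dist_tendsto_zero]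
    refine squeeze_zero (fun n => dist_nonneg) (fun n => (hyd n).le) ?_
    simpa using hdist.add tendsto_one_div_add_atTop_nhds_zero_nat
  -- limits of points belong to the limit
  have hlimmem : ∀ (y : ℕ → (Fin d → ℝ)) (x : Fin d → ℝ), (∀ n, y n ∈ M (φ n)) →
      Tendsto y atTop (𝓝 x) → x ∈ (L : Set (Fin d → ℝ)) := by
    intro y x hy hyx
    have hclosed : IsClosed (L : Set (Fin d → ℝ)) := L.isCompact.isClosed
    rw [hclosed.mem_iff_infDist_zero L.nonempty]
    have h1 : ∀ n, Metric.infDist x (L : Set (Fin d → ℝ)) ≤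
        Metric.hausdorffDist (M (φ n)) (L : Set (Fin d → ℝ)) + dist x (y n) := by
      intro n
      have h2 := Metric.infDist_le_infDist_add_dist (s := (L : Set (Fin d → ℝ))) (x := x) (y := y n)
      have h3 := Metric.infDist_le_hausdorffDist_of_mem (hy n) (hfin n)
      linarith
    have h4 : Tendsto (fun n => Metric.hausdorffDist (M (φ n)) (L : Set (Fin d → ℝ)) + dist x (y n))
        atTop (𝓝 0) := by
      have h5 : Tendsto (fun n => dist x (y n)) atTop (𝓝 0) := by
        have := tendsto_iff_dist_tendsto_zero.1 hyx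
        simpa [dist_comm] using this
      simpa using hdist.add h5
    exact le_antisymm (ge_of_tendsto' h4 h1) Metric.infDist_nonneg
  have hLneg : ∀ x ∈ (L : Set (Fin d → ℝ)), -x ∈ (L : Set (Fin d → ℝ)) := by
    intro x hx
    obtain ⟨y, hy, hyx⟩ := happ x hx
    exact hlimmem (fun n => -y n) (-x) (fun n => (hMC _).1.neg_mem _ (hy n)) hyx.neg
  have hLconv : Convex ℝ (L : Set (Fin d → ℝ)) := by
    intro x hx x' hx' p q hp hq hpq
    obtain ⟨y, hy, hyx⟩ := happ x hx
    obtain ⟨y', hy', hyx'⟩ := happ x' hx'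
    exact hlimmem (fun n => p • y n + q • y' n) _
      (fun n => (hMC _).1.convex (hy n) (hy' n) hp hq hpq) ((hyx.const_smul p).add (hyx'.const_smul q))
  have hLe : ∀ i, (Pi.single i (1:ℝ) : Fin d → ℝ) ∈ (L : Set (Fin d → ℝ)) := fun i =>
    hlimmem (fun _ => Pi.single i (1:ℝ)) _ (fun n => (hMC _).2.2.1 i) tendsto_const_nhds
  have hL0 : (0 : Fin d → ℝ) ∈ (L : Set (Fin d → ℝ)) :=
    hlimmem (fun _ => 0) _ (fun n => (hMC _).1.zero_mem) tendsto_const_nhds
  have hball := closedBall_subset hLconv hLneg hL0 hLe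
  have hr : (0:ℝ) < 1 / (d + 1 : ℝ) := by positivity
  have hLbody : IsBody (L : Set (Fin d → ℝ)) :=
    { isCompact := L.isCompact
      convex := hLconv
      nonempty_interior := ⟨0, by
        rw [mem_interior_iff_mem_nhds]
        exact mem_of_superset (Metric.closedBall_mem_nhds 0 hr) hball⟩
      neg_mem := hLneg }
  have hLdet : DetLE (L : Set (Fin d → ℝ)) 1 := by
    intro v hv
    have h1 : ∀ i, ∃ y : ℕ → (Fin d → ℝ), (∀ n, y n ∈ M (φ n)) ∧ Tendsto y atTop (𝓝 (v i)) :=
      fun i => happ _ (hv i)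
    choose y hy hyv using h1
    have h2 : Tendsto (fun n => |dt (fun i => y i n)|) atTop (𝓝 |dt v|) := by
      have h3 : Tendsto (fun n => (fun i => y i n)) atTop (𝓝 v) := tendsto_pi_nhds.2 hyv
      exact ((continuous_dt.abs).tendsto v).comp h3
    exact le_of_tendsto' h2 (fun n => (hMC _).2.1 _ (fun i => hy i n))
  -- volume
  have hvol : sSup ((fun M : Set (Fin d → ℝ) => volume M) '' C) ≤ volume (L : Set (Fin d → ℝ)) := by
    set r : ℝ := 1 / (d + 1 : ℝ) with hrdef
    have h1 : ∀ n, volume (M (φ n)) ≤ ENNReal.ofReal ((1 + (Metric.hausdorffDist (M (φ n)) (L : Set (Fin d → ℝ)) + 1 / (n + 1)) / r) ^ d) * volume (L : Set (Fin d → ℝ)) := by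
      intro n
      set δ : ℝ := Metric.hausdorffDist (M (φ n)) (L : Set (Fin d → ℝ)) + 1 / (n + 1) with hδ
      have hδ0 : 0 < δ := by
        have := Metric.hausdorffDist_nonneg (s := M (φ n)) (t := (L : Set (Fin d → ℝ)))
        positivity
      have h2 : M (φ n) ⊆ (1 + δ / r) • (L : Set (Fin d → ℝ)) := by
        intro x hx
        obtain ⟨y, hy, hyd⟩ := Metric.exists_dist_lt_of_hausdorffDist_lt (r := δ) hx
          (lt_add_of_pos_right _ (by positivity)) (hfin n)
        have h3 : (1 + δ / r) • (L : Set (Fin d → ℝ)) = (1:ℝ) • (L : Set (Fin d → ℝ)) + (δ / r) • (L : Set (Fin d → ℝ)) :=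
          hLconv.add_smul zero_le_one (by positivity)
        rw [h3, one_smul]
        refine ⟨y, hy, x - y, ?_, by simp⟩
        have h4 : x - y ∈ (δ / r) • Metric.closedBall (0 : Fin d → ℝ) r := by
          rw [smul_closedBall _ _ hr.le, smul_zero, Real.norm_of_nonneg (by positivity),
            div_mul_cancel₀ _ hr.ne', mem_closedBall_zero_iff, ← dist_eq_norm]
          exact hyd.le
        exact Set.smul_set_mono hball h4
      calc volume (M (φ n)) ≤ volume ((1 + δ / r) • (L : Set (Fin d → ℝ))) := measure_mono h2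
        _ = _ := by
          rw [MeasureTheory.Measure.addHaar_smul, abs_of_nonneg (by positivity)]
          simp
    have h5 : Tendsto (fun n => volume (M (φ n))) atTop (𝓝 (sSup ((fun M : Set (Fin d → ℝ) => volume M) '' C))) := by
      have h6 : (fun n => volume (M (φ n))) = u ∘ φ := by
        ext n; exact hMu (φ n)
      rw [h6]; exact hu.comp hφ.tendsto_atTop
    have h7 : Tendsto (fun n : ℕ => ENNReal.ofReal ((1 + (Metric.hausdorffDist (M (φ n)) (L : Set (Fin d → ℝ)) + 1 / (n + 1)) / r) ^ d) * volume (L : Set (Fin d → ℝ)))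
        atTop (𝓝 (ENNReal.ofReal ((1 + (0 + 0) / r) ^ d) * volume (L : Set (Fin d → ℝ)))) := by
      apply ENNReal.Tendsto.mul_const
      · apply ENNReal.tendsto_ofReal
        exact (((hdist.add tendsto_one_div_add_atTop_nhds_zero_nat).div_const r).const_add 1).pow d
      · left; simp
    have h8 := le_of_tendsto_of_tendsto' h5 h7 h1
    simpa using h8
  refine ⟨L, hLbody, hLdet, ?_⟩
  intro M' hM' hdM'
  obtain ⟨M'', h1, h2, h3, h4, h5⟩ := exists_normalised hM' hdM'
  have h6 : volume M'' ∈ (fun M : Set (Fin d → ℝ) => volume M) '' C := ⟨M'', ⟨h1, h2, h3, h4⟩, rfl⟩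
  exact h5.trans ((le_sSup h6).trans hvol)

end Pool.Agent.H435.Mass
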