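import Pool.Agent.H435.MassB

open MeasureTheory Set Topology Filter
open scoped Pointwise

namespace Pool.Agent.H435.Mass

variable {d n : ℕ}

theorem Ext.image {M : Set (Fin d → ℝ)} (hM : Ext M) (A : (Fin d → ℝ) ≃ₗ[ℝ] (Fin d → ℝ))
    (hA : |LinearMap.det (A : (Fin d → ℝ) →ₗ[ℝ] (Fin d → ℝ))| = 1) : Ext (A '' M) where
  body := hM.body.image A
  det_le := by
    have := hM.det_le.image (A : (Fin d → ℝ) →ₗ[ℝ] (Fin d → ℝ))
    rwa [hA, one_mul] at this
  max := by
    intro M' hM' hd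
    have hA' : |LinearMap.det (A.symm : (Fin d → ℝ) →ₗ[ℝ] (Fin d → ℝ))| = 1 := by
      have h1 := A.det_symm_mul_det
      have h2 : |LinearMap.det (A.symm : (Fin d → ℝ) →ₗ[ℝ] (Fin d → ℝ))| *
          |LinearMap.det (A : (Fin d → ℝ) →ₗ[ℝ] (Fin d → ℝ))| = 1 := by
        rw [← abs_mul, h1, abs_one]
      rwa [hA, mul_one] at h2
    have h3 : IsBody (A.symm '' M') := hM'.image A.symm
    have h4 : DetLE (A.symm '' M') 1 := by
      have := hd.image (A.symm : (Fin d → ℝ) →ₗ[ℝ] (Fin d → ℝ))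
      rwa [hA', one_mul] at this
    have h5 := hM.max _ h3 h4
    have h6 : volume (A.symm '' M') = volume M' := by
      have := volume_image (A.symm : (Fin d → ℝ) →ₗ[ℝ] (Fin d → ℝ)) M'
      rw [hA'] at this
      simpa using this
    have h7 : volume (A '' M) = volume M := by
      have := volume_image (A : (Fin d → ℝ) →ₗ[ℝ] (Fin d → ℝ)) M
      rw [hA] at this
      simpa using this
    rw [h7, ← h6]; exact h5

/-- Steiner symmetrisation in the direction of the first coordinate axis -/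
def steiner (M : Set (Fin (n + 1) → ℝ)) : Set (Fin (n + 1) → ℝ) :=
  {z | ∃ a b : ℝ, (Fin.cons a (Fin.tail z) : Fin (n + 1) → ℝ) ∈ M ∧
    (Fin.cons b (Fin.tail z) : Fin (n + 1) → ℝ) ∈ M ∧ z 0 = (a - b) / 2}

theorem cons_combo (p q a a' : ℝ) (y y' : Fin n → ℝ) :
    (Fin.cons (p * a + q * a') (p • y + q • y') : Fin (n + 1) → ℝ) =
      p • (Fin.cons a y : Fin (n + 1) → ℝ) + q • (Fin.cons a' y' : Fin (n + 1) → ℝ) := by
  ext i
  refine Fin.cases ?_ (fun j => ?_) i <;> simp

theorem cons_neg (a : ℝ) (y : Fin n → ℝ) :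
    (Fin.cons (-a) (-y) : Fin (n + 1) → ℝ) = -(Fin.cons a y : Fin (n + 1) → ℝ) := by
  ext i
  refine Fin.cases ?_ (fun j => ?_) i <;> simp

theorem continuous_cons : Continuous (fun p : ℝ × (Fin n → ℝ) => (Fin.cons p.1 p.2 : Fin (n + 1) → ℝ)) := by
  refine continuous_pi fun i => ?_
  refine Fin.cases ?_ (fun j => ?_) i
  · simp only [Fin.cons_zero]; exact continuous_fst
  · simp only [Fin.cons_succ]; exact (continuous_apply j).comp continuous_snd

theorem norm_cons_le {a : ℝ} {y : Fin n → ℝ} {r : ℝ} (hr : 0 ≤ r) (ha : |a| ≤ r) (hy : ∀ i, |y i| ≤ r) :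
    ‖(Fin.cons a y : Fin (n + 1) → ℝ)‖ ≤ r := by
  rw [pi_norm_le_iff_of_nonneg hr]
  intro i
  refine Fin.cases ?_ (fun j => ?_) i
  · simpa using ha
  · simpa using hy j

theorem IsBody.steiner {M : Set (Fin (n + 1) → ℝ)} (hM : IsBody M) : IsBody (steiner M) where
  isCompact := by
    let T : Set ((Fin (n + 1) → ℝ) × (Fin (n + 1) → ℝ)) :=
      (M ×ˢ M) ∩ {p | Fin.tail p.1 = Fin.tail p.2}
    have htail : Continuous (fun z : Fin (n + 1) → ℝ => Fin.tail z) := by
      refine continuous_pi fun i => ?_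
      exact continuous_apply _
    have hT : IsCompact T := (hM.isCompact.prod hM.isCompact).inter_right
      (isClosed_eq (htail.comp continuous_fst) (htail.comp continuous_snd))
    let g : ((Fin (n + 1) → ℝ) × (Fin (n + 1) → ℝ)) → (Fin (n + 1) → ℝ) :=
      fun p => Fin.cons ((p.1 0 - p.2 0) / 2) (Fin.tail p.1)
    have hg : Continuous g := by
      have h1 : Continuous (fun p : ((Fin (n + 1) → ℝ) × (Fin (n + 1) → ℝ)) =>
          (((p.1 0 - p.2 0) / 2 : ℝ), (Fin.tail p.1 : Fin n → ℝ))) := by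
        apply Continuous.prodMk
        · fun_prop
        · exact htail.comp continuous_fst
      exact continuous_cons.comp h1
    have h2 : Mass.steiner M = g '' T := by
      ext z
      constructor
      · rintro ⟨a, b, ha, hb, hz⟩
        refine ⟨(Fin.cons a (Fin.tail z), Fin.cons b (Fin.tail z)), ⟨⟨ha, hb⟩, by simp⟩, ?_⟩
        simp only [g, Fin.cons_zero, Fin.tail_cons]
        rw [← hz]; exact Fin.cons_self_tail z
      · rintro ⟨⟨x, y⟩, ⟨⟨hx, hy⟩, hxy⟩, rfl⟩
        simp only [Set.mem_ofPred_eq] at hx hy hxy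
        refine ⟨x 0, y 0, ?_, ?_, ?_⟩
        · simp only [g, Fin.tail_cons, Fin.cons_self_tail]; exact hx
        · simp only [g, Fin.tail_cons]; rw [hxy, Fin.cons_self_tail]; exact hy
        · simp [g]
    rw [h2]; exact hT.image hg
  convex := by
    rintro z ⟨a, b, ha, hb, hz⟩ z' ⟨a', b', ha', hb', hz'⟩ p q hp hq hpq
    have htail : Fin.tail (p • z + q • z') = p • Fin.tail z + q • Fin.tail z' := by
      ext i; simp [Fin.tail]
    refine ⟨p * a + q * a', p * b + q * b', ?_, ?_, ?_⟩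
    · rw [htail, cons_combo]; exact hM.convex ha ha' hp hq hpq
    · rw [htail, cons_combo]; exact hM.convex hb hb' hp hq hpq
    · simp only [Pi.add_apply, Pi.smul_apply, smul_eq_mul, hz, hz']; ring
  nonempty_interior := by
    obtain ⟨r, hr, hrM⟩ := hM.exists_closedBall
    refine ⟨0, ?_⟩
    rw [mem_interior_iff_mem_nhds]
    refine mem_of_superset (Metric.closedBall_mem_nhds 0 hr) ?_
    intro z hz
    rw [mem_closedBall_zero_iff, pi_norm_le_iff_of_nonneg hr.le] at hz
    refine ⟨z 0, -z 0, ?_, ?_, by ring⟩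
    · apply hrM
      rw [mem_closedBall_zero_iff]
      exact norm_cons_le hr.le (hz 0) (fun i => hz _)
    · apply hrM
      rw [mem_closedBall_zero_iff]
      exact norm_cons_le hr.le (by rw [abs_neg]; exact hz 0) (fun i => hz _)
  neg_mem := by
    rintro z ⟨a, b, ha, hb, hz⟩
    have htail : Fin.tail (-z) = -Fin.tail z := by ext i; simp [Fin.tail]
    refine ⟨-a, -b, ?_, ?_, ?_⟩
    · rw [htail, cons_neg]; exact hM.neg_mem _ ha
    · rw [htail, cons_neg]; exact hM.neg_mem _ hb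
    · simp only [Pi.neg_apply, hz]; ring

theorem volume_eq_lintegral {S : Set (Fin (n + 1) → ℝ)} (hS : MeasurableSet S) :
    volume S = ∫⁻ y : Fin n → ℝ, volume {t : ℝ | (Fin.cons t y : Fin (n + 1) → ℝ) ∈ S} := by
  have hmp := (volume_preserving_piFinSuccAbove (fun _ : Fin (n + 1) => ℝ) 0).symm
  have h1 : volume S = (volume : Measure (ℝ × (Fin n → ℝ)))
      ((MeasurableEquiv.piFinSuccAbove (fun _ : Fin (n + 1) => ℝ) 0).symm ⁻¹' S) :=
    (hmp.measure_preimage hS.nullMeasurableSet).symm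
  rw [h1]
  have h2 : MeasurableSet ((MeasurableEquiv.piFinSuccAbove (fun _ : Fin (n + 1) => ℝ) 0).symm ⁻¹' S) :=
    (MeasurableEquiv.measurable _) hS
  rw [Measure.volume_eq_prod, Measure.prod_apply_symm h2]
  apply lintegral_congr
  intro y
  congr 1
  ext t
  have h3 : (MeasurableEquiv.piFinSuccAbove (fun _ : Fin (n + 1) => ℝ) 0).symm (t, y) =
      (Fin.cons t y : Fin (n + 1) → ℝ) := by
    have : (MeasurableEquiv.piFinSuccAbove (fun _ : Fin (n + 1) => ℝ) 0).symm (t, y) =
      (Fin.insertNth 0 t y : Fin (n + 1) → ℝ) := rfl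
    rw [this, Fin.insertNth_zero']
  simp only [mem_preimage, h3, Set.mem_ofPred_eq]

theorem slice_isCompact {M : Set (Fin (n + 1) → ℝ)} (hM : IsCompact M) (y : Fin n → ℝ) :
    IsCompact {t : ℝ | (Fin.cons t y : Fin (n + 1) → ℝ) ∈ M} := by
  have hc : Continuous (fun t : ℝ => (Fin.cons t y : Fin (n + 1) → ℝ)) :=
    continuous_cons.comp (by fun_prop : Continuous (fun t : ℝ => (t, y)))
  apply Metric.isCompact_of_isClosed_isBounded
  · exact hM.isClosed.preimage hc
  · obtain ⟨R, hR⟩ := hM.isBounded.subset_closedBall 0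
    refine (Metric.isBounded_closedBall (x := (0:ℝ)) (r := R)).subset ?_
    intro t ht
    have h1 := hR ht
    rw [mem_closedBall_zero_iff] at h1 ⊢
    have h2 := norm_le_pi_norm (Fin.cons t y : Fin (n + 1) → ℝ) 0
    simp only [Fin.cons_zero] at h2
    exact h2.trans h1

theorem slice_convex {M : Set (Fin (n + 1) → ℝ)} (hM : Convex ℝ M) (y : Fin n → ℝ) :
    Convex ℝ {t : ℝ | (Fin.cons t y : Fin (n + 1) → ℝ) ∈ M} := by
  intro t ht t' ht' p q hp hq hpq
  have h := hM ht ht' hp hq hpq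
  rw [← cons_combo, ← add_smul, hpq, one_smul] at h
  exact h

theorem volume_slice_steiner {M : Set (Fin (n + 1) → ℝ)} (hM : IsBody M) (y : Fin n → ℝ) :
    volume {t : ℝ | (Fin.cons t y : Fin (n + 1) → ℝ) ∈ steiner M} =
      volume {t : ℝ | (Fin.cons t y : Fin (n + 1) → ℝ) ∈ M} := by
  set I : Set ℝ := {t : ℝ | (Fin.cons t y : Fin (n + 1) → ℝ) ∈ M} with hI
  have h1 : {t : ℝ | (Fin.cons t y : Fin (n + 1) → ℝ) ∈ steiner M} = {t | ∃ a ∈ I, ∃ b ∈ I, t = (a - b) / 2} := by
    ext t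
    simp only [steiner, Set.mem_ofPred_eq, Fin.tail_cons, Fin.cons_zero, hI]
    constructor
    · rintro ⟨a, b, ha, hb, h⟩; exact ⟨a, ha, b, hb, h⟩
    · rintro ⟨a, ha, b, hb, h⟩; exact ⟨a, b, ha, hb, h⟩
  rw [h1]
  rcases I.eq_empty_or_nonempty with hE | hne
  · rw [hE]; simp
  · have hIc : I = Icc (sInf I) (sSup I) :=
      eq_Icc_of_connected_compact ⟨hne, (slice_convex hM.convex y).isPreconnected⟩ (slice_isCompact hM.isCompact y)
    have hle : sInf I ≤ sSup I := by
      rw [← nonempty_Icc, ← hIc]; exact hne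
    generalize sInf I = α at *
    generalize sSup I = β at *
    have h2 : {t | ∃ a ∈ I, ∃ b ∈ I, t = (a - b) / 2} = Icc (-((β - α) / 2)) ((β - α) / 2) := by
      rw [hIc]
      ext t
      simp only [Set.mem_ofPred_eq, mem_Icc]
      constructor
      · rintro ⟨a, ⟨ha1, ha2⟩, b, ⟨hb1, hb2⟩, rfl⟩
        constructor <;> linarith
      · rintro ⟨h3, h4⟩
        exact ⟨(α + β) / 2 + t, ⟨by linarith, by linarith⟩, (α + β) / 2 - t, ⟨by linarith, by linarith⟩, by ring⟩
    rw [h2, hIc, Real.volume_Icc, Real.volume_Icc]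
    congr 1; ring

theorem volume_steiner {M : Set (Fin (n + 1) → ℝ)} (hM : IsBody M) :
    volume (steiner M) = volume M := by
  rw [volume_eq_lintegral hM.steiner.isClosed.measurableSet, volume_eq_lintegral hM.isClosed.measurableSet]
  exact lintegral_congr fun y => volume_slice_steiner hM y

/-- determinant of a tuple with first coordinates `(a - b) / 2` -/
theorem dt_half (y : Fin (n + 1) → Fin n → ℝ) (a b : Fin (n + 1) → ℝ) :
    dt (fun i => (Fin.cons ((a i - b i) / 2) (y i) : Fin (n + 1) → ℝ)) =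
      (dt (fun i => (Fin.cons (a i) (y i) : Fin (n + 1) → ℝ)) -
        dt (fun i => (Fin.cons (b i) (y i) : Fin (n + 1) → ℝ))) / 2 := by
  have key : ∀ c : Fin (n + 1) → ℝ, dt (fun i => (Fin.cons (c i) (y i) : Fin (n + 1) → ℝ)) =
      Matrix.det (Matrix.updateCol (Matrix.of (fun i => (Fin.cons 0 (y i) : Fin (n + 1) → ℝ))) 0 c) := by
    intro c
    rw [dt_eq]
    congr 1
    ext i j
    refine Fin.cases ?_ (fun k => ?_) j
    · simp
    · simp
  rw [key, key, key]
  have h1 : (fun i => (a i - b i) / 2) = (1/2 : ℝ) • a + (-(1/2) : ℝ) • b := by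
    ext i; simp; ring
  rw [h1, Matrix.det_updateCol_add, Matrix.det_updateCol_smul, Matrix.det_updateCol_smul]
  ring

theorem DetLE.steiner {M : Set (Fin (n + 1) → ℝ)} {c : ℝ} (h : DetLE M c) : DetLE (steiner M) c := by
  intro v hv
  choose a b ha hb hab using hv
  have h1 : v = fun i => (Fin.cons ((a i - b i) / 2) (Fin.tail (v i)) : Fin (n + 1) → ℝ) := by
    funext i
    rw [← hab i]; exact (Fin.cons_self_tail (v i)).symm
  rw [h1, dt_half]
  have h2 := h _ ha
  have h3 := h _ hb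
  rw [abs_le] at h2 h3 ⊢
  constructor <;> linarith [h2.1, h2.2, h3.1, h3.2]

theorem Ext.steiner {M : Set (Fin (n + 1) → ℝ)} (hM : Ext M) : Ext (steiner M) where
  body := hM.body.steiner
  det_le := hM.det_le.steiner
  max := by
    intro M' h1 h2
    rw [volume_steiner hM.body]
    exact hM.max M' h1 h2

end Pool.Agent.H435.Mass
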