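import Pool.Agent.H435.MassC

open MeasureTheory Set Topology Filter
open scoped Pointwise

namespace Pool.Agent.H435.Mass

variable {d n : ℕ}

theorem dt_update_smul (v : Fin d → Fin d → ℝ) (i : Fin d) (c : ℝ) (x : Fin d → ℝ) :
    dt (Function.update v i (c • x)) = c * dt (Function.update v i x) := by
  unfold dt
  rw [AlternatingMap.map_update_smul, smul_eq_mul]

theorem DetLE.closure {T : Set (Fin d → ℝ)} {c : ℝ} (h : DetLE T c) : DetLE (closure T) c := by
  intro v hv
  have h1 : v ∈ _root_.closure (Set.pi univ (fun _ : Fin d => T)) := by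
    rw [closure_pi_set]; exact fun i _ => hv i
  have h2 : Set.pi univ (fun _ : Fin d => T) ⊆ {v : Fin d → Fin d → ℝ | |dt v| ≤ c} :=
    fun w hw => h w (fun i => hw i (mem_univ i))
  exact closure_minimal h2 (isClosed_le continuous_dt.abs continuous_const) h1

/-- A boundary point of an extremal body belongs to a tuple of determinant `± 1`. -/
theorem Ext.exists_tuple {K : Set (Fin d → ℝ)} (hK : Ext K) {p : Fin d → ℝ} (hp : p ∈ K)
    (hbd : ∀ t : ℝ, 1 < t → t • p ∉ K) :
    ∃ i : Fin d, ∃ v : Fin d → Fin d → ℝ, (∀ j, v j ∈ K) ∧ v i = p ∧ |dt v| = 1 := by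
  classical
  by_contra hcon
  push Not at hcon
  have hp0 : p ≠ 0 := by
    rintro rfl
    exact hbd 2 (by norm_num) (by simpa using hK.body.zero_mem)
  obtain ⟨i0, hi0⟩ : ∃ i, p i ≠ 0 := by
    by_contra h
    push Not at h
    exact hp0 (funext h)
  let T : Set (Fin d → Fin d → ℝ) := (Set.pi univ (fun _ : Fin d => K)) ∩ ⋃ i, {v | v i = p}
  have hT : IsCompact T := by
    apply (isCompact_univ_pi (fun _ => hK.body.isCompact)).inter_right
    apply isClosed_iUnion_of_finite
    intro i
    exact isClosed_eq (continuous_apply i) continuous_const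
  have hTne : T.Nonempty := ⟨fun _ => p, fun _ _ => hp, mem_iUnion.2 ⟨i0, rfl⟩⟩
  obtain ⟨v0, hv0, hmax⟩ := hT.exists_isMaxOn hTne
    (f := fun v : Fin d → Fin d → ℝ => |dt v|) (continuous_dt.abs).continuousOn
  have hmaxT : ∀ v ∈ T, |dt v| ≤ |dt v0| := fun v hv => hmax hv
  set m := |dt v0| with hm
  have hm0 : 0 ≤ m := abs_nonneg _
  have hm1 : m < 1 := by
    obtain ⟨h1, h2⟩ := hv0
    obtain ⟨i, hi⟩ := mem_iUnion.1 h2
    have h3 : |dt v0| ≤ 1 := hK.det_le v0 (fun j => h1 j (mem_univ j))
    exact lt_of_le_of_ne h3 (hcon i v0 (fun j => h1 j (mem_univ j)) hi)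
  set t : ℝ := 2 / (1 + m) with ht
  have ht1 : 1 < t := by rw [ht, lt_div_iff₀ (by linarith)]; linarith
  have htm : t * m ≤ 1 := by
    rw [ht, div_mul_eq_mul_div, div_le_one (by linarith)]; linarith
  let S : Set (Fin d → ℝ) := K ∪ {t • p, -(t • p)}
  have hSdet : DetLE S 1 := by
    intro v hv
    by_cases hall : ∀ j, v j ∈ K
    · exact hK.det_le v hall
    · push Not at hall
      obtain ⟨i, hi⟩ := hall
      have hout : ∀ j, v j ∉ K → ∃ e : ℝ, |e| = 1 ∧ v j = e • (t • p) := by
        intro j hj
        rcases hv j with h | h | h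
        · exact absurd h hj
        · exact ⟨1, by simp, by rw [h, one_smul]⟩
        · rw [mem_singleton_iff] at h
          exact ⟨-1, by simp, by rw [h]; simp⟩
      obtain ⟨e, he, hvi⟩ := hout i hi
      by_cases hother : ∃ j, j ≠ i ∧ v j ∉ K
      · obtain ⟨j, hji, hj⟩ := hother
        obtain ⟨e', he', hvj⟩ := hout j hj
        have he'0 : e' ≠ 0 := by rintro rfl; simp at he'
        have h1 : v i = (e / e') • v j := by
          rw [hvi, hvj, smul_smul (e / e') e', div_mul_cancel₀ _ he'0]
        have h2 : dt v = 0 := by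
          have h3 : v = Function.update v i ((e / e') • v j) := by
            rw [← h1, Function.update_eq_self]
          rw [h3, dt_update_smul]
          have h4 : dt (Function.update v i (v j)) = 0 := by
            unfold dt
            exact AlternatingMap.map_update_self _ _ hji.symm
          rw [h4, mul_zero]
        rw [h2]; simp
      · push Not at hother
        have h3 : v = Function.update v i ((e * t) • p) := by
          rw [← smul_smul, ← hvi, Function.update_eq_self]
        rw [h3, dt_update_smul, abs_mul, abs_mul, he, one_mul, abs_of_pos (by linarith)]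
        have h4 : Function.update v i p ∈ T := by
          refine ⟨fun j _ => ?_, mem_iUnion.2 ⟨i, by simp⟩⟩
          by_cases hji : j = i
          · subst hji; simpa using hp
          · rw [Function.update_of_ne hji]; exact hother j hji
        have h5 := hmaxT _ h4
        calc t * |dt (Function.update v i p)| ≤ t * m := by gcongr
          _ ≤ 1 := htm
  have hneg : -S = S := by
    ext y
    simp only [S, Set.mem_neg, mem_union, mem_insert_iff, mem_singleton_iff]
    constructor
    · rintro (h | h | h)
      · left; have := hK.body.neg_mem _ h; simpa using this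
      · right; right; rw [← h, neg_neg]
      · right; left; exact neg_inj.1 h
    · rintro (h | h | h)
      · left; exact hK.body.neg_mem _ h
      · right; right; rw [h]
      · right; left; rw [h, neg_neg]
  have hCneg : ∀ x ∈ convexHull ℝ S, -x ∈ convexHull ℝ S := by
    intro x hx
    have h1 : -x ∈ -(convexHull ℝ S) := by simpa using hx
    rwa [← convexHull_neg, hneg] at h1
  set K' : Set (Fin d → ℝ) := closure (convexHull ℝ S) with hK'
  have hKS : K ⊆ K' := subset_union_left.trans ((subset_convexHull ℝ S).trans subset_closure)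
  have hbody : IsBody K' :=
    { isCompact := by
        have hb : Bornology.IsBounded S :=
          hK.body.isCompact.isBounded.union ((Set.toFinite _).isCompact.isBounded)
        exact Metric.isCompact_of_isClosed_isBounded isClosed_closure
          ((isBounded_convexHull.2 hb).closure)
      convex := (convex_convexHull ℝ S).closure
      nonempty_interior := hK.body.nonempty_interior.mono (interior_mono hKS)
      neg_mem := fun x hx => map_mem_closure continuous_neg hx hCneg }
  have hle := hK.max _ hbody (abs_le_of_convexHull hSdet).closure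
  -- strict increase of the volume
  have htp : t • p ∈ K' := subset_closure (subset_convexHull ℝ S (by simp [S]))
  set s : ℝ := (1 + t) / 2 with hs
  have hq : s • p ∈ interior K' := by
    apply hbody.convex.openSegment_interior_self_subset_interior hbody.zero_mem_interior htp
    refine ⟨1 - s / t, s / t, ?_, ?_, by ring, ?_⟩
    · have : s / t < 1 := by rw [div_lt_one (by linarith)]; linarith
      linarith
    · have : 0 < s := by linarith
      exact div_pos this (by linarith)
    · rw [smul_zero, zero_add, smul_smul, div_mul_cancel₀ _ (by linarith : t ≠ 0)]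
  have hqK : s • p ∉ K := hbd s (by linarith)
  let U : Set (Fin d → ℝ) := interior K' \ K
  have hU : IsOpen U := isOpen_interior.sdiff hK.body.isClosed
  have hUpos : 0 < volume U := hU.measure_pos volume ⟨_, hq, hqK⟩
  have hdisj : Disjoint K U := disjoint_left.2 (fun x hx hxU => hxU.2 hx)
  have h6 : volume K + volume U ≤ volume K' := by
    rw [← measure_union hdisj hU.measurableSet]
    exact measure_mono (union_subset hKS (sdiff_subset.trans interior_subset))
  have h7 : volume K < volume K + volume U := ENNReal.lt_add_right hK.body.volume_ne_top hUpos.ne'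
  exact absurd (h7.trans_le h6) (not_lt.2 hle)

/-- the determinant with a row replaced by the first unit vector only depends on the tails -/
theorem dt_update_e0 (v w : Fin (n + 1) → Fin (n + 1) → ℝ) (h : ∀ j, Fin.tail (v j) = Fin.tail (w j))
    (i : Fin (n + 1)) :
    dt (Function.update v i (Fin.cons 1 0 : Fin (n + 1) → ℝ)) =
      dt (Function.update w i (Fin.cons 1 0 : Fin (n + 1) → ℝ)) := by
  classical
  let y : Fin (n + 1) → Fin n → ℝ := Function.update (fun j => Fin.tail (v j)) i 0
  let a : Fin (n + 1) → ℝ := Function.update (fun j => v j 0) i 1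
  let b : Fin (n + 1) → ℝ := Function.update (fun j => w j 0) i 1
  have h1 : Function.update v i (Fin.cons 1 0 : Fin (n + 1) → ℝ) =
      fun j => (Fin.cons (a j) (y j) : Fin (n + 1) → ℝ) := by
    funext j
    by_cases hj : j = i
    · subst hj; simp [a, y]
    · simp only [Function.update_of_ne hj, a, y]; exact (Fin.cons_self_tail (v j)).symm
  have h2 : Function.update w i (Fin.cons 1 0 : Fin (n + 1) → ℝ) =
      fun j => (Fin.cons (b j) (y j) : Fin (n + 1) → ℝ) := by
    funext j
    by_cases hj : j = i
    · subst hj; simp [b, y]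
    · simp only [Function.update_of_ne hj, b, y]; rw [h j]; exact (Fin.cons_self_tail (w j)).symm
  have h3 := dt_half y a b
  have h4 : dt (fun j => (Fin.cons ((a j - b j) / 2) (y j) : Fin (n + 1) → ℝ)) = 0 := by
    unfold dt
    apply AlternatingMap.map_coord_zero _ i
    ext k
    refine Fin.cases ?_ (fun l => ?_) k <;> simp [a, b, y]
  rw [h1, h2]
  linarith

theorem Ext.exists_functionals_cons {M : Set (Fin (n + 1) → ℝ)} (hM : Ext M) {a b : ℝ}
    {y : Fin n → ℝ} (hab : b < a) (hP : (Fin.cons a y : Fin (n + 1) → ℝ) ∈ M)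
    (hQ : (Fin.cons b y : Fin (n + 1) → ℝ) ∈ M)
    (hend : ∀ t : ℝ, (Fin.cons t y : Fin (n + 1) → ℝ) ∈ M → b ≤ t ∧ t ≤ a) :
    ∃ f g : (Fin (n + 1) → ℝ) →ₗ[ℝ] ℝ, (∀ x ∈ M, f x ≤ 1) ∧ (∀ x ∈ M, g x ≤ 1) ∧
      f (Fin.cons a y) = 1 ∧ g (Fin.cons b y) = 1 ∧ f (Fin.cons b y) = g (Fin.cons a y) := by
  classical
  set p : Fin (n + 1) → ℝ := Fin.cons ((a - b) / 2) y with hp
  have hpK : p ∈ Mass.steiner M := ⟨a, b, by simpa [hp] using hP, by simpa [hp] using hQ, by simp [hp]⟩
  have hbd : ∀ t : ℝ, 1 < t → t • p ∉ Mass.steiner M := by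
    intro t ht htK
    have hint : p ∈ interior (Mass.steiner M) := by
      apply hM.steiner.body.convex.openSegment_interior_self_subset_interior
        hM.steiner.body.zero_mem_interior htK
      refine ⟨1 - 1 / t, 1 / t, ?_, by positivity, by ring, ?_⟩
      · have : 1 / t < 1 := by rw [div_lt_one (by linarith)]; exact ht
        linarith
      · rw [smul_zero, zero_add, smul_smul, one_div, inv_mul_cancel₀ (by linarith : t ≠ 0), one_smul]
    have hc : Continuous (fun s : ℝ => (Fin.cons s y : Fin (n + 1) → ℝ)) :=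
      continuous_cons.comp (by fun_prop : Continuous (fun s : ℝ => (s, y)))
    have hopen : IsOpen ((fun s : ℝ => (Fin.cons s y : Fin (n + 1) → ℝ)) ⁻¹' interior (Mass.steiner M)) :=
      isOpen_interior.preimage hc
    have hmem : (a - b) / 2 ∈ ((fun s : ℝ => (Fin.cons s y : Fin (n + 1) → ℝ)) ⁻¹' interior (Mass.steiner M)) := hint
    obtain ⟨ε, hε, hball⟩ := Metric.isOpen_iff.1 hopen _ hmem
    have h1 : (a - b) / 2 + ε / 2 ∈ Metric.ball ((a - b) / 2) ε := by
      rw [Metric.mem_ball, Real.dist_eq, add_sub_cancel_left, abs_of_pos (by linarith)]; linarith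
    obtain ⟨a', b', ha', hb', h2⟩ := interior_subset (hball h1)
    simp only [Fin.tail_cons, Fin.cons_zero] at ha' hb' h2
    have h3 := hend a' ha'
    have h4 := hend b' hb'
    linarith [h3.2, h4.1]
  obtain ⟨i, v, hv, hvi, hdet⟩ := hM.steiner.exists_tuple hpK hbd
  choose A B hA hB hAB using hv
  let A' : Fin (n + 1) → ℝ := Function.update A i a
  let B' : Fin (n + 1) → ℝ := Function.update B i b
  let vA : Fin (n + 1) → Fin (n + 1) → ℝ := fun j => Fin.cons (A' j) (Fin.tail (v j))
  let vB : Fin (n + 1) → Fin (n + 1) → ℝ := fun j => Fin.cons (B' j) (Fin.tail (v j))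
  have hti : Fin.tail (v i) = y := by rw [hvi, hp, Fin.tail_cons]
  have hvAi : vA i = Fin.cons a y := by simp only [vA, A', Function.update_self, hti]
  have hvBi : vB i = Fin.cons b y := by simp only [vB, B', Function.update_self, hti]
  have hvAM : ∀ j, vA j ∈ M := by
    intro j
    by_cases hj : j = i
    · subst hj; rw [hvAi]; exact hP
    · simp only [vA, A', Function.update_of_ne hj]; exact hA j
  have hvBM : ∀ j, vB j ∈ M := by
    intro j
    by_cases hj : j = i
    · subst hj; rw [hvBi]; exact hQ
    · simp only [vB, B', Function.update_of_ne hj]; exact hB j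
  have hveq : v = fun j => (Fin.cons ((A' j - B' j) / 2) (Fin.tail (v j)) : Fin (n + 1) → ℝ) := by
    funext j
    by_cases hj : j = i
    · subst hj
      simp only [A', B', Function.update_self]
      rw [hti]; exact hvi
    · simp only [A', B', Function.update_of_ne hj]
      rw [← hAB j]; exact (Fin.cons_self_tail (v j)).symm
  have hdt : dt v = (dt vA - dt vB) / 2 := by
    conv_lhs => rw [hveq]
    exact dt_half _ _ _
  have h1 := hM.det_le vA hvAM
  have h2 := hM.det_le vB hvBM
  set s := dt v with hs
  have hs2 : s * s = 1 := by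
    have := sq_abs s
    rw [hdet] at this
    nlinarith
  have hvA : dt vA = s ∧ dt vB = -s := by
    rw [abs_le] at h1 h2
    rcases abs_eq (zero_le_one) |>.1 hdet with h | h
    · rw [h] at hdt ⊢
      constructor <;> linarith [h1.1, h1.2, h2.1, h2.2]
    · rw [h] at hdt ⊢
      constructor <;> linarith [h1.1, h1.2, h2.1, h2.2]
  let D := (Pi.basisFun ℝ (Fin (n + 1))).det
  let f : (Fin (n + 1) → ℝ) →ₗ[ℝ] ℝ := s • (D.toMultilinearMap.toLinearMap vA i)
  let g : (Fin (n + 1) → ℝ) →ₗ[ℝ] ℝ := (-s) • (D.toMultilinearMap.toLinearMap vB i)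
  have hf : ∀ x, f x = s * dt (Function.update vA i x) := fun x => rfl
  have hg : ∀ x, g x = -s * dt (Function.update vB i x) := fun x => rfl
  have hsabs : |s| = 1 := hdet
  have hup : ∀ (w : Fin (n + 1) → Fin (n + 1) → ℝ), (∀ j, w j ∈ M) → ∀ x ∈ M, |dt (Function.update w i x)| ≤ 1 := by
    intro w hw x hx
    apply hM.det_le
    intro j
    by_cases hj : j = i
    · subst hj; simpa using hx
    · rw [Function.update_of_ne hj]; exact hw j
  have hfP : f (Fin.cons a y) = 1 := by
    rw [hf, ← hvAi, Function.update_eq_self, hvA.1, hs2]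
  have hgQ : g (Fin.cons b y) = 1 := by
    rw [hg, ← hvBi, Function.update_eq_self, hvA.2]; linarith
  refine ⟨f, g, ?_, ?_, hfP, hgQ, ?_⟩
  · intro x hx
    rw [hf]
    calc s * dt (Function.update vA i x) ≤ |s * dt (Function.update vA i x)| := le_abs_self _
      _ = |dt (Function.update vA i x)| := by rw [abs_mul, hsabs, one_mul]
      _ ≤ 1 := hup vA hvAM x hx
  · intro x hx
    rw [hg]
    calc -s * dt (Function.update vB i x) ≤ |-s * dt (Function.update vB i x)| := le_abs_self _
      _ = |dt (Function.update vB i x)| := by rw [abs_mul, abs_neg, hsabs, one_mul]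
      _ ≤ 1 := hup vB hvBM x hx
  · have he : (Fin.cons a y : Fin (n + 1) → ℝ) = Fin.cons b y + (a - b) • (Fin.cons 1 0 : Fin (n + 1) → ℝ) := by
      ext k
      refine Fin.cases ?_ (fun l => ?_) k <;> simp
    have h5 : f (Fin.cons 1 0) = - g (Fin.cons 1 0) := by
      rw [hf, hg, dt_update_e0 vA vB (fun j => by simp [vA, vB]) i]; ring
    have h6 : f (Fin.cons a y) = f (Fin.cons b y) + (a - b) * f (Fin.cons 1 0) := by
      conv_lhs => rw [he]
      rw [map_add, map_smul, smul_eq_mul]
    have h7 : g (Fin.cons a y) = g (Fin.cons b y) + (a - b) * g (Fin.cons 1 0) := by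
      conv_lhs => rw [he]
      rw [map_add, map_smul, smul_eq_mul]
    rw [h7, hgQ]
    rw [hfP, h5] at h6
    linarith

end Pool.Agent.H435.Mass
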