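import Pool.Agent.H435.MassD

open MeasureTheory Set Topology Filter
open scoped Pointwise

namespace Pool.Agent.H435.Mass

variable {d n : ℕ}

theorem Ext.exists_functionals {M : Set (Fin (n + 1) → ℝ)} (hM : Ext M) {P Q : Fin (n + 1) → ℝ}
    (hP : P ∈ M) (hQ : Q ∈ M) (hPQ : P ≠ Q)
    (hendP : ∀ ε : ℝ, 0 < ε → P + ε • (P - Q) ∉ M) (hendQ : ∀ ε : ℝ, 0 < ε → Q - ε • (P - Q) ∉ M) :
    ∃ f g : (Fin (n + 1) → ℝ) →ₗ[ℝ] ℝ, (∀ x ∈ M, f x ≤ 1) ∧ (∀ x ∈ M, g x ≤ 1) ∧
      f P = 1 ∧ g Q = 1 ∧ f Q = g P := by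
  classical
  have he0 : (Fin.cons 1 0 : Fin (n + 1) → ℝ) ≠ 0 := by
    intro h
    have := congrFun h 0
    simp at this
  obtain ⟨B0, hB0⟩ := SeparatingDual.exists_continuousLinearEquiv_apply_eq (R := ℝ)
    (sub_ne_zero.2 hPQ) he0
  let B : (Fin (n + 1) → ℝ) ≃ₗ[ℝ] (Fin (n + 1) → ℝ) := B0.toLinearEquiv
  have hB : B (P - Q) = Fin.cons 1 0 := hB0
  set D : ℝ := |LinearMap.det (B : (Fin (n + 1) → ℝ) →ₗ[ℝ] (Fin (n + 1) → ℝ))| with hD
  have hDpos : 0 < D := abs_pos.2 (LinearEquiv.isUnit_det' B).ne_zero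
  set t : ℝ := D⁻¹ ^ ((1 : ℝ) / (n + 1 : ℕ)) with ht
  have htpos : 0 < t := Real.rpow_pos_of_pos (inv_pos.2 hDpos) _
  have htpow : t ^ (n + 1) = D⁻¹ := by
    rw [ht, one_div]
    exact Real.rpow_inv_natCast_pow (inv_pos.2 hDpos).le (Nat.succ_ne_zero n)
  let A : (Fin (n + 1) → ℝ) ≃ₗ[ℝ] (Fin (n + 1) → ℝ) := B.trans (LinearEquiv.smulOfNeZero ℝ _ t htpos.ne')
  have hA : ∀ x, A x = t • B x := fun x => rfl
  have hAdet : |LinearMap.det (A : (Fin (n + 1) → ℝ) →ₗ[ℝ] (Fin (n + 1) → ℝ))| = 1 := by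
    have h1 : (A : (Fin (n + 1) → ℝ) →ₗ[ℝ] (Fin (n + 1) → ℝ)) = t • (B : (Fin (n + 1) → ℝ) →ₗ[ℝ] (Fin (n + 1) → ℝ)) := by
      ext x; rfl
    rw [h1, LinearMap.det_smul, Module.finrank_fin_fun, abs_mul, htpow, abs_of_pos (inv_pos.2 hDpos)]
    exact inv_mul_cancel₀ hDpos.ne'
  have hM' := hM.image A hAdet
  set a : ℝ := A P 0 with ha
  set b : ℝ := A Q 0 with hb
  set y : Fin n → ℝ := Fin.tail (A P) with hy
  have hdiff : A P - A Q = t • (Fin.cons 1 0 : Fin (n + 1) → ℝ) := by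
    rw [← map_sub, hA, hB]
  have hAP : A P = Fin.cons a y := (Fin.cons_self_tail (A P)).symm
  have hAQ : A Q = Fin.cons b y := by
    have h1 : Fin.tail (A Q) = y := by
      ext i
      have h2 := congrFun hdiff i.succ
      simp only [Pi.sub_apply, Pi.smul_apply, Fin.cons_succ, Pi.zero_apply, smul_zero] at h2
      simp only [Fin.tail, hy]
      linarith
    rw [← h1]; exact (Fin.cons_self_tail (A Q)).symm
  have hab : a - b = t := by
    have h2 := congrFun hdiff 0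
    simpa [ha, hb] using h2
  have hcons : ∀ s : ℝ, (Fin.cons s y : Fin (n + 1) → ℝ) = A (P + ((s - a) / t) • (P - Q)) := by
    intro s
    rw [map_add, map_smul, map_sub, hdiff, smul_smul, div_mul_cancel₀ _ htpos.ne', hAP]
    ext i
    refine Fin.cases ?_ (fun j => ?_) i <;> simp
  have hend : ∀ s : ℝ, (Fin.cons s y : Fin (n + 1) → ℝ) ∈ A '' M → b ≤ s ∧ s ≤ a := by
    intro s hs
    rw [hcons s] at hs
    obtain ⟨z, hz, hzz⟩ := hs
    have hz' : z = P + ((s - a) / t) • (P - Q) := A.injective hzz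
    rw [hz'] at hz
    constructor
    · by_contra h
      push Not at h
      have h1 : 0 < (b - s) / t := div_pos (by linarith) htpos
      apply hendQ _ h1
      have h2 : Q - ((b - s) / t) • (P - Q) = P + ((s - a) / t) • (P - Q) := by
        have h3 : (s - a) / t = -1 - (b - s) / t := by
          field_simp; linarith
        rw [h3]; module
      rw [h2]; exact hz
    · by_contra h
      push Not at h
      exact hendP _ (div_pos (by linarith) htpos) hz
  have hPm : (Fin.cons a y : Fin (n + 1) → ℝ) ∈ A '' M := by rw [← hAP]; exact ⟨P, hP, rfl⟩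
  have hQm : (Fin.cons b y : Fin (n + 1) → ℝ) ∈ A '' M := by rw [← hAQ]; exact ⟨Q, hQ, rfl⟩
  obtain ⟨f, g, hf, hg, hfP, hgQ, hfg⟩ := hM'.exists_functionals_cons (by linarith) hPm hQm hend
  refine ⟨f.comp (A : (Fin (n + 1) → ℝ) →ₗ[ℝ] (Fin (n + 1) → ℝ)),
    g.comp (A : (Fin (n + 1) → ℝ) →ₗ[ℝ] (Fin (n + 1) → ℝ)), ?_, ?_, ?_, ?_, ?_⟩
  · intro x hx; exact hf _ ⟨x, hx, rfl⟩
  · intro x hx; exact hg _ ⟨x, hx, rfl⟩
  · show f (A P) = 1; rw [hAP]; exact hfP
  · show g (A Q) = 1; rw [hAQ]; exact hgQ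
  · show f (A Q) = g (A P); rw [hAQ, hAP]; exact hfg

section gauge

variable {M : Set (Fin d → ℝ)}

theorem IsBody.mem_iff (hM : IsBody M) (x : Fin d → ℝ) : x ∈ M ↔ gauge M x ≤ 1 := by
  rw [gauge_le_one_iff_mem_closure hM.convex hM.mem_nhds, hM.isClosed.closure_eq]

theorem gauge_smul_nonneg' {t : ℝ} (ht : 0 ≤ t) (x : Fin d → ℝ) : gauge M (t • x) = t * gauge M x := by
  rw [gauge_smul_of_nonneg ht, smul_eq_mul]

theorem IsBody.gauge_pos (hM : IsBody M) {x : Fin d → ℝ} (hx : x ≠ 0) : 0 < gauge M x := by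
  rw [_root_.gauge_pos hM.absorbent ((NormedSpace.isVonNBounded_iff ℝ).2 hM.isCompact.isBounded)]
  exact hx

theorem IsBody.gauge_normalise (hM : IsBody M) {x : Fin d → ℝ} (hx : x ≠ 0) :
    gauge M ((gauge M x)⁻¹ • x) = 1 := by
  have h := hM.gauge_pos hx
  rw [gauge_smul_nonneg' (inv_pos.2 h).le, inv_mul_cancel₀ h.ne']

theorem IsBody.normalise_mem (hM : IsBody M) {x : Fin d → ℝ} (hx : x ≠ 0) :
    (gauge M x)⁻¹ • x ∈ M := by
  rw [hM.mem_iff, hM.gauge_normalise hx]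

theorem IsBody.le_gauge (hM : IsBody M) {f : (Fin d → ℝ) →ₗ[ℝ] ℝ} (hf : ∀ x ∈ M, f x ≤ 1) (x : Fin d → ℝ) :
    f x ≤ gauge M x := by
  by_cases hx : x = 0
  · subst hx; simp
  · have h := hf _ (hM.normalise_mem hx)
    rw [map_smul, smul_eq_mul, inv_mul_le_iff₀ (hM.gauge_pos hx), mul_one] at h
    exact h

/-- a supporting functional at a point of differentiability is the derivative -/
theorem IsBody.eq_fderiv (_hM : IsBody M) {x : Fin d → ℝ} (hx : DifferentiableAt ℝ (gauge M) x)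
    {f : (Fin d → ℝ) →L[ℝ] ℝ} (hf : ∀ z, f z ≤ gauge M z) (hfx : f x = gauge M x) :
    f = fderiv ℝ (gauge M) x := by
  have h1 : IsLocalMin (fun z => gauge M z - f z) x := by
    apply Filter.Eventually.of_forall
    intro z
    show gauge M x - f x ≤ gauge M z - f z
    rw [hfx]; linarith [hf z]
  have h2 := h1.fderiv_eq_zero
  have h3 : fderiv ℝ (fun z => gauge M z - f z) x = fderiv ℝ (gauge M) x - f := by
    have := hx.hasFDerivAt.sub f.hasFDerivAt (x := x)
    exact this.fderiv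
  rw [h3] at h2
  exact (sub_eq_zero.1 h2).symm

theorem IsBody.fderiv_le (hM : IsBody M) {x : Fin d → ℝ} (hx : DifferentiableAt ℝ (gauge M) x)
    (z : Fin d → ℝ) : fderiv ℝ (gauge M) x z ≤ gauge M z := by
  have h1 : HasDerivAt (fun t : ℝ => gauge M (x + t • z)) (fderiv ℝ (gauge M) x z) 0 := by
    have h2 : HasFDerivAt (gauge M) (fderiv ℝ (gauge M) x) (x + (0:ℝ) • z) := by
      simpa using hx.hasFDerivAt
    have h3 : HasDerivAt (fun t : ℝ => x + t • z) z 0 := by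
      simpa using ((hasDerivAt_id (0:ℝ)).smul_const z).const_add x
    exact h2.comp_hasDerivAt 0 h3
  have h4 := h1.tendsto_slope_zero_right
  refine le_of_tendsto h4 ?_
  filter_upwards [self_mem_nhdsWithin] with t ht
  have ht' : (0:ℝ) < t := ht
  simp only [zero_add, zero_smul, add_zero, smul_eq_mul]
  rw [inv_mul_le_iff₀ ht']
  have h5 := gauge_add_le hM.convex hM.absorbent x (t • z)
  rw [gauge_smul_nonneg' ht'.le] at h5
  linarith

theorem IsBody.fderiv_self (hM : IsBody M) {x : Fin d → ℝ} (hx : DifferentiableAt ℝ (gauge M) x) :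
    fderiv ℝ (gauge M) x x = gauge M x := by
  apply le_antisymm (hM.fderiv_le hx x)
  have h1 := hM.fderiv_le hx (-x)
  have h1 : HasDerivAt (fun t : ℝ => gauge M (x + t • x)) (fderiv ℝ (gauge M) x x) 0 := by
    have h2 : HasFDerivAt (gauge M) (fderiv ℝ (gauge M) x) (x + (0:ℝ) • x) := by
      simpa using hx.hasFDerivAt
    have h3 : HasDerivAt (fun t : ℝ => x + t • x) x 0 := by
      simpa using ((hasDerivAt_id (0:ℝ)).smul_const x).const_add x
    exact h2.comp_hasDerivAt 0 h3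
  have h4 := h1.tendsto_slope_zero_right
  refine ge_of_tendsto h4 ?_
  filter_upwards [self_mem_nhdsWithin] with t ht
  have ht' : (0:ℝ) < t := ht
  simp only [zero_add, zero_smul, add_zero, smul_eq_mul]
  have h6 : x + t • x = (1 + t) • x := by rw [add_smul, one_smul]
  rw [h6, gauge_smul_nonneg' (by linarith), le_inv_mul_iff₀ ht']
  linarith

end gauge

/-- the duality map of an extremal body is symmetric -/
theorem Ext.symmetric {M : Set (Fin (n + 1) → ℝ)} (hM : Ext M) {x y : Fin (n + 1) → ℝ}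
    (hx0 : x ≠ 0) (hy0 : y ≠ 0) (hx : DifferentiableAt ℝ (gauge M) x)
    (hy : DifferentiableAt ℝ (gauge M) y) :
    gauge M x * fderiv ℝ (gauge M) x y = gauge M y * fderiv ℝ (gauge M) y x := by
  have hb := hM.body
  have hxpos := hb.gauge_pos hx0
  have hypos := hb.gauge_pos hy0
  set P := (gauge M x)⁻¹ • x with hP
  set Q := (gauge M y)⁻¹ • y with hQ
  have hPM : P ∈ M := hb.normalise_mem hx0
  have hQM : Q ∈ M := hb.normalise_mem hy0
  have hxP : x = gauge M x • P := by rw [hP, smul_smul, mul_inv_cancel₀ hxpos.ne', one_smul]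
  have hyQ : y = gauge M y • Q := by rw [hQ, smul_smul, mul_inv_cancel₀ hypos.ne', one_smul]
  set J := fderiv ℝ (gauge M) x with hJ
  set L := fderiv ℝ (gauge M) y with hL
  have hJP : J P = 1 := by
    rw [hP, map_smul, hJ, hb.fderiv_self hx, smul_eq_mul, inv_mul_cancel₀ hxpos.ne']
  have hLQ : L Q = 1 := by
    rw [hQ, map_smul, hL, hb.fderiv_self hy, smul_eq_mul, inv_mul_cancel₀ hypos.ne']
  have hJM : ∀ z ∈ M, J z ≤ 1 := fun z hz => (hb.fderiv_le hx z).trans ((hb.mem_iff z).1 hz)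
  have hLM : ∀ z ∈ M, L z ≤ 1 := fun z hz => (hb.fderiv_le hy z).trans ((hb.mem_iff z).1 hz)
  have hJuniq : ∀ f : (Fin (n + 1) → ℝ) →L[ℝ] ℝ, (∀ z, f z ≤ gauge M z) → f P = 1 → f = J := by
    intro f hf hfP
    apply hb.eq_fderiv hx hf
    conv_lhs => rw [hxP]
    rw [map_smul, hfP, smul_eq_mul, mul_one]
  have hLuniq : ∀ f : (Fin (n + 1) → ℝ) →L[ℝ] ℝ, (∀ z, f z ≤ gauge M z) → f Q = 1 → f = L := by
    intro f hf hfQ
    apply hb.eq_fderiv hy hf
    conv_lhs => rw [hyQ]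
    rw [map_smul, hfQ, smul_eq_mul, mul_one]
  have key : J Q = L P := by
    by_cases hPQ : P = Q
    · have h1 : J Q = 1 := by rw [← hPQ]; exact hJP
      have h2 : L P = 1 := by rw [hPQ]; exact hLQ
      rw [h1, h2]
    by_cases h1 : ∃ ε : ℝ, 0 < ε ∧ P + ε • (P - Q) ∈ M
    · obtain ⟨ε, hε, hmem⟩ := h1
      have h2 := hJM _ hmem
      rw [map_add, map_smul J ε (P - Q), map_sub, hJP, smul_eq_mul] at h2
      have h3 : 1 - J Q ≤ 0 := by
        by_contra h
        push Not at h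
        have := mul_pos hε h
        linarith
      have h4 : J Q = 1 := le_antisymm (hJM Q hQM) (by linarith)
      have h5 : J = L := hLuniq J (hb.fderiv_le hx) h4
      rw [h4, ← h5, hJP]
    by_cases h2 : ∃ ε : ℝ, 0 < ε ∧ Q - ε • (P - Q) ∈ M
    · obtain ⟨ε, hε, hmem⟩ := h2
      have h2 := hLM _ hmem
      rw [map_sub, map_smul L ε (P - Q), map_sub, hLQ, smul_eq_mul] at h2
      have h3 : 1 - L P ≤ 0 := by
        by_contra h
        push Not at h
        have := mul_pos hε h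
        nlinarith
      have h4 : L P = 1 := le_antisymm (hLM P hPM) (by linarith)
      have h5 : L = J := hJuniq L (hb.fderiv_le hy) h4
      rw [h4, ← h5, hLQ]
    push Not at h1 h2
    obtain ⟨f, g, hf, hg, hfP, hgQ, hfg⟩ := hM.exists_functionals hPM hQM hPQ h1 h2
    have h6 : LinearMap.toContinuousLinearMap f = J :=
      hJuniq _ (fun z => hb.le_gauge hf z) hfP
    have h7 : LinearMap.toContinuousLinearMap g = L :=
      hLuniq _ (fun z => hb.le_gauge hg z) hgQ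
    rw [← h6, ← h7]
    exact hfg
  have h8 : J y = gauge M y * J Q := by
    conv_lhs => rw [hyQ]
    rw [map_smul, smul_eq_mul]
  have h9 : L x = gauge M x * L P := by
    conv_lhs => rw [hxP]
    rw [map_smul, smul_eq_mul]
  rw [h8, h9, key]; ring

end Pool.Agent.H435.Mass
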