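import Pool.Agent.H435.MassE

open MeasureTheory Set Topology Filter
open scoped Pointwise

namespace Pool.Agent.H435.Mass

variable {d n : ℕ}

/-- `M` is an ellipsoid centred at the origin: an invertible linear image of the Euclidean unit
ball. -/
def IsEllipsoid (M : Set (Fin d → ℝ)) : Prop :=
  ∃ A : (Fin d → ℝ) ≃ₗ[ℝ] (Fin d → ℝ), M = A '' {x : Fin d → ℝ | ∑ i, x i ^ 2 ≤ 1}

/-- the square of the norm of an extremal body is a quadratic form -/
theorem Ext.exists_bilin {M : Set (Fin (n + 1) → ℝ)} (hM : Ext M) :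
    ∃ B : (Fin (n + 1) → ℝ) →ₗ[ℝ] (Fin (n + 1) → ℝ) →ₗ[ℝ] ℝ, ∀ x, gauge M x ^ 2 = B x x := by
  classical
  have hb := hM.body
  obtain ⟨K, hK⟩ := hb.convex.lipschitz_gauge hb.mem_nhds
  have hdense : Dense {x : Fin (n + 1) → ℝ | DifferentiableAt ℝ (gauge M) x} :=
    Measure.dense_of_ae (μ := volume) hK.ae_differentiableAt
  let D : Set (Fin (n + 1) → ℝ) := {x | DifferentiableAt ℝ (gauge M) x} ∩ {0}ᶜ
  have hD : Dense D := hdense.inter_of_isOpen_right (dense_compl_singleton 0) isOpen_compl_singleton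
  have hpi : Dense (Set.pi (univ : Set (Fin (n + 1))) (fun _ => D)) := dense_pi _ (fun _ _ => hD)
  have hopen : IsOpen {v : Fin (n + 1) → Fin (n + 1) → ℝ | dt v ≠ 0} :=
    isOpen_ne_fun continuous_dt continuous_const
  obtain ⟨v, hv1, hv2⟩ := hpi.inter_open_nonempty _ hopen
    ⟨fun i => Pi.single i (1:ℝ), by show dt _ ≠ 0; rw [dt_single]; exact one_ne_zero⟩
  have hvD : ∀ i, v i ∈ D := fun i => hv2 i (mem_univ i)
  have hbas := ((Pi.basisFun ℝ (Fin (n + 1))).is_basis_iff_det).2 (isUnit_iff_ne_zero.2 hv1)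
  let b : Module.Basis (Fin (n + 1)) ℝ (Fin (n + 1) → ℝ) := Module.Basis.mk hbas.1 (by rw [hbas.2])
  have hbv : ∀ i, b i = v i := fun i => by simp [b]
  let J : Fin (n + 1) → ((Fin (n + 1) → ℝ) →L[ℝ] ℝ) := fun i => fderiv ℝ (gauge M) (v i)
  let B : (Fin (n + 1) → ℝ) →ₗ[ℝ] (Fin (n + 1) → ℝ) →ₗ[ℝ] ℝ :=
    LinearMap.mk₂ ℝ (fun x y => ∑ i, b.repr y i * (gauge M (v i) * J i x))
      (by intro x x' y; rw [← Finset.sum_add_distrib]; congr 1; ext i; rw [map_add]; ring)
      (by intro c x y; rw [smul_eq_mul, Finset.mul_sum]; congr 1; ext i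
          rw [map_smul, smul_eq_mul]; ring)
      (by intro x y y'; rw [← Finset.sum_add_distrib]; congr 1; ext i
          rw [map_add, Finsupp.add_apply]; ring)
      (by intro c x y; rw [smul_eq_mul, Finset.mul_sum]; congr 1; ext i
          rw [map_smul, Finsupp.smul_apply, smul_eq_mul]; ring)
  have hB : ∀ x y, B x y = ∑ i, b.repr y i * (gauge M (v i) * J i x) := fun x y => rfl
  refine ⟨B, ?_⟩
  have hon : ∀ x ∈ D, gauge M x ^ 2 = B x x := by
    intro x hx
    have h1 : ∀ y, gauge M x * fderiv ℝ (gauge M) x y = B x y := by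
      intro y
      have h2 : y = ∑ i, b.repr y i • v i := by
        conv_lhs => rw [← b.sum_repr y]
        simp_rw [hbv]
      conv_lhs => rw [h2]
      rw [map_sum, Finset.mul_sum, hB]
      congr 1; ext i
      rw [map_smul, smul_eq_mul]
      have h3 := hM.symmetric hx.2 (hvD i).2 hx.1 (hvD i).1
      show gauge M x * ((b.repr y) i * (fderiv ℝ (gauge M) x) (v i)) = (b.repr y) i * (gauge M (v i) * fderiv ℝ (gauge M) (v i) x)
      rw [← h3]; ring
    rw [← h1 x, hb.fderiv_self hx.1]; ring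
  have hcont1 : Continuous (fun x => gauge M x ^ 2) := (continuous_gauge hb.convex hb.mem_nhds).pow 2
  have hcont2 : Continuous (fun x => B x x) := by
    simp_rw [hB]
    apply continuous_finsetSum
    intro i _
    apply Continuous.mul
    · have : Continuous ((b.coord i : (Fin (n + 1) → ℝ) →ₗ[ℝ] ℝ)) :=
        LinearMap.continuous_of_finiteDimensional _
      exact this
    · exact continuous_const.mul (J i).continuous
  have := Continuous.ext_on hD hcont1 hcont2 hon
  exact fun x => congrFun this x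

theorem Ext.isEllipsoid {M : Set (Fin (n + 1) → ℝ)} (hM : Ext M) : IsEllipsoid M := by
  classical
  obtain ⟨B, hB⟩ := hM.exists_bilin
  let Q : QuadraticForm ℝ (Fin (n + 1) → ℝ) := LinearMap.BilinMap.toQuadraticMap B
  have hQ : ∀ x, Q x = gauge M x ^ 2 := fun x => by rw [hB x]; rfl
  obtain ⟨w, hw, ⟨e⟩⟩ := QuadraticForm.equivalent_one_zero_neg_one_weighted_sum_squared Q
  have hfr : Module.finrank ℝ (Fin (n + 1) → ℝ) = n + 1 := Module.finrank_fin_fun ℝ
  have he : ∀ x, ∑ i, w i * (e x i) ^ 2 = gauge M x ^ 2 := by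
    intro x
    rw [← hQ x, ← e.map_app x, QuadraticMap.weightedSumSquares_apply]
    simp [sq]
  have hw1 : ∀ i, w i = 1 := by
    intro i
    have h1 := he (e.symm (Pi.single i 1))
    have h2 : e (e.symm (Pi.single i (1:ℝ))) = Pi.single i 1 := e.toLinearEquiv.apply_symm_apply _
    rw [h2, Finset.sum_eq_single i] at h1
    · simp only [Pi.single_eq_same, one_pow, mul_one] at h1
      have h3 : e.symm (Pi.single i (1:ℝ)) ≠ 0 := by
        intro h
        have : (Pi.single i (1:ℝ) : Fin (Module.finrank ℝ (Fin (n + 1) → ℝ)) → ℝ) = 0 := by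
          rw [← h2, h]; exact map_zero e.toLinearEquiv
        have := congrFun this i
        simp at this
      have h4 := hM.body.gauge_pos h3
      have h5 : 0 < w i := by rw [h1]; positivity
      rcases hw i with h | h | h
      · rw [h] at h5; norm_num at h5
      · rw [h] at h5; norm_num at h5
      · exact h
    · intro j _ hj
      rw [Pi.single_eq_of_ne hj]; ring
    · intro h; exact absurd (Finset.mem_univ _) h
  let e' : (Fin (n + 1) → ℝ) ≃ₗ[ℝ] (Fin (n + 1) → ℝ) :=
    e.toLinearEquiv.trans (LinearEquiv.funCongrLeft ℝ ℝ (finCongr hfr.symm))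
  have he' : ∀ x, ∑ i, (e' x i) ^ 2 = gauge M x ^ 2 := by
    intro x
    rw [← he x]
    simp_rw [hw1, one_mul]
    exact Fintype.sum_equiv (finCongr hfr.symm) _ _ (fun i => rfl)
  refine ⟨e'.symm, ?_⟩
  ext x
  rw [hM.body.mem_iff]
  have hnn : 0 ≤ gauge M x := gauge_nonneg x
  constructor
  · intro hx
    refine ⟨e' x, ?_, e'.symm_apply_apply x⟩
    show ∑ i, (e' x i) ^ 2 ≤ 1
    rw [he' x]; nlinarith
  · rintro ⟨z, hz, rfl⟩
    have hz' : ∑ i, z i ^ 2 ≤ 1 := hz
    have h1 := he' (e'.symm z)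
    rw [e'.apply_symm_apply] at h1
    rw [h1] at hz'
    nlinarith [gauge_nonneg (s := M) (e'.symm z)]

end Pool.Agent.H435.Mass
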