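import Pool.Agent.H435.MassF

open MeasureTheory Set Topology Filter
open scoped Pointwise

namespace Pool.Agent.H435.Mass

variable {d n : ℕ}

/-- the Euclidean unit ball -/
def unitBall (d : ℕ) : Set (Fin d → ℝ) := {x : Fin d → ℝ | ∑ i, x i ^ 2 ≤ 1}

theorem unitBall_preimage : (WithLp.toLp 2 : (Fin d → ℝ) → EuclideanSpace ℝ (Fin d)) ⁻¹'
    Metric.closedBall 0 1 = unitBall d := by
  ext x
  simp only [mem_preimage, mem_closedBall_zero_iff, EuclideanSpace.norm_eq, unitBall,
    Set.mem_ofPred_eq, Real.norm_eq_abs, sq_abs]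
  rw [Real.sqrt_le_one]

theorem volume_unitBall (hd : 1 ≤ d) :
    volume (unitBall d) = ENNReal.ofReal (√Real.pi ^ d / Real.Gamma (d / 2 + 1)) := by
  have : Nonempty (Fin d) := ⟨⟨0, hd⟩⟩
  have h1 := (PiLp.volume_preserving_toLp (Fin d)).measure_preimage
    (s := Metric.closedBall (0 : EuclideanSpace ℝ (Fin d)) 1)
    Metric.isClosed_closedBall.measurableSet.nullMeasurableSet
  rw [← unitBall_preimage, h1, EuclideanSpace.volume_closedBall]
  simp

theorem isBody_unitBall (d : ℕ) : IsBody (unitBall d) := by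
  let e : EuclideanSpace ℝ (Fin d) ≃L[ℝ] (Fin d → ℝ) := EuclideanSpace.equiv (Fin d) ℝ
  have himg : unitBall d = e '' Metric.closedBall 0 1 := by
    rw [← unitBall_preimage]
    ext x
    constructor
    · intro hx; exact ⟨WithLp.toLp 2 x, hx, rfl⟩
    · rintro ⟨y, hy, rfl⟩; exact hy
  refine ⟨?_, ?_, ?_, ?_⟩
  · rw [himg]; exact (isCompact_closedBall _ _).image e.continuous
  · rw [himg]; exact (convex_closedBall _ _).linear_image (e : EuclideanSpace ℝ (Fin d) ≃ₗ[ℝ] (Fin d → ℝ)).toLinearMap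
  · refine ⟨0, ?_⟩
    have hopen : IsOpen {x : Fin d → ℝ | ∑ i, x i ^ 2 < 1} :=
      isOpen_lt (by fun_prop) continuous_const
    have hsub : {x : Fin d → ℝ | ∑ i, x i ^ 2 < 1} ⊆ unitBall d := by
      intro x hx
      have hx' : ∑ i, x i ^ 2 < 1 := hx
      exact hx'.le
    have h0 : (0 : Fin d → ℝ) ∈ {x : Fin d → ℝ | ∑ i, x i ^ 2 < 1} := by
      show ∑ i, (0 : Fin d → ℝ) i ^ 2 < 1
      simp
    exact interior_maximal hsub hopen h0
  · intro x hx
    have hx' : ∑ i, x i ^ 2 ≤ 1 := hx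
    show ∑ i, (-x) i ^ 2 ≤ 1
    simpa using hx'

theorem detLE_unitBall (d : ℕ) : DetLE (unitBall d) 1 := by
  classical
  intro v hv
  have : Fact (Module.finrank ℝ (EuclideanSpace ℝ (Fin d)) = d) := ⟨finrank_euclideanSpace_fin⟩
  let b := EuclideanSpace.basisFun (Fin d) ℝ
  let o := b.toBasis.orientation
  let v' : Fin d → EuclideanSpace ℝ (Fin d) := fun i => WithLp.toLp 2 (v i)
  have h1 := o.abs_volumeForm_apply_le v'
  rw [o.volumeForm_robust b rfl] at h1
  have h2 : b.toBasis.det v' = dt v := by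
    rw [dt_eq, Module.Basis.det_apply, ← Matrix.det_transpose]
    congr 1
  rw [h2] at h1
  refine h1.trans (Finset.prod_le_one (fun i _ => norm_nonneg _) (fun i _ => ?_))
  have h3 : v' i ∈ Metric.closedBall (0 : EuclideanSpace ℝ (Fin d)) 1 := by
    have := hv i
    rw [← unitBall_preimage] at this
    exact this
  simpa using h3

theorem unitBall_single (i : Fin d) : (Pi.single i (1:ℝ) : Fin d → ℝ) ∈ unitBall d := by
  classical
  show ∑ j, (Pi.single i (1:ℝ) : Fin d → ℝ) j ^ 2 ≤ 1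
  rw [Finset.sum_eq_single i]
  · simp
  · intro j _ hj; rw [Pi.single_eq_of_ne hj]; ring
  · intro h; exact absurd (Finset.mem_univ _) h

theorem Ext.volume_eq {M : Set (Fin (n + 1) → ℝ)} (hM : Ext M) :
    volume M = volume (unitBall (n + 1)) := by
  obtain ⟨A, hA⟩ := hM.isEllipsoid
  have hA' : M = A '' unitBall (n + 1) := hA
  apply le_antisymm
  · have h1 : volume M = ENNReal.ofReal |LinearMap.det (A : (Fin (n + 1) → ℝ) →ₗ[ℝ] (Fin (n + 1) → ℝ))| * volume (unitBall (n + 1)) := by
      rw [hA']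
      exact volume_image (A : (Fin (n + 1) → ℝ) →ₗ[ℝ] (Fin (n + 1) → ℝ)) (unitBall (n + 1))
    have h2 : |LinearMap.det (A : (Fin (n + 1) → ℝ) →ₗ[ℝ] (Fin (n + 1) → ℝ))| ≤ 1 := by
      have h3 := hM.det_le (fun i => A (Pi.single i (1:ℝ))) (fun i => by
        rw [hA']; exact ⟨_, unitBall_single i, rfl⟩)
      have h4 := dt_map (A : (Fin (n + 1) → ℝ) →ₗ[ℝ] (Fin (n + 1) → ℝ)) (fun i => (Pi.single i (1:ℝ) : Fin (n + 1) → ℝ))
      rw [dt_single, mul_one] at h4
      rw [← h4]; exact h3
    rw [h1]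
    calc ENNReal.ofReal |LinearMap.det (A : (Fin (n + 1) → ℝ) →ₗ[ℝ] (Fin (n + 1) → ℝ))| * volume (unitBall (n + 1))
        ≤ ENNReal.ofReal 1 * volume (unitBall (n + 1)) := by gcongr
      _ = volume (unitBall (n + 1)) := by simp
  · exact hM.max _ (isBody_unitBall _) (detLE_unitBall _)

/-- The cross-polytope `conv {± v_1, …, ± v_d}`. -/
def crossPolytope (v : Fin d → Fin d → ℝ) : Set (Fin d → ℝ) :=
  convexHull ℝ (Set.range v ∪ Set.range fun i => -v i)

theorem crossPolytope_single (hd : 1 ≤ d) :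
    crossPolytope (fun i => (Pi.single i (1:ℝ) : Fin d → ℝ)) = {x : Fin d → ℝ | ∑ i, |x i| ≤ 1} := by
  classical
  apply Subset.antisymm
  · apply convexHull_min
    · rintro x (⟨i, rfl⟩ | ⟨i, rfl⟩)
      · show ∑ j, |(Pi.single i (1:ℝ) : Fin d → ℝ) j| ≤ 1
        rw [Finset.sum_eq_single i]
        · simp
        · intro j _ hj; rw [Pi.single_eq_of_ne hj]; simp
        · intro h; exact absurd (Finset.mem_univ _) h
      · show ∑ j, |(-(Pi.single i (1:ℝ) : Fin d → ℝ)) j| ≤ 1
        rw [Finset.sum_eq_single i]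
        · simp
        · intro j _ hj; rw [Pi.neg_apply, Pi.single_eq_of_ne hj]; simp
        · intro h; exact absurd (Finset.mem_univ _) h
    · intro x hx y hy p q hp hq hpq
      simp only [Set.mem_ofPred_eq] at hx hy ⊢
      calc ∑ i, |(p • x + q • y) i| ≤ ∑ i, (p * |x i| + q * |y i|) := by
            apply Finset.sum_le_sum
            intro i _
            simp only [Pi.add_apply, Pi.smul_apply, smul_eq_mul]
            calc |p * x i + q * y i| ≤ |p * x i| + |q * y i| := abs_add_le _ _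
              _ = p * |x i| + q * |y i| := by rw [abs_mul, abs_mul, abs_of_nonneg hp, abs_of_nonneg hq]
        _ = p * ∑ i, |x i| + q * ∑ i, |y i| := by
            rw [Finset.sum_add_distrib, Finset.mul_sum, Finset.mul_sum]
        _ ≤ p * 1 + q * 1 := by gcongr
        _ = 1 := by linarith
  · intro x hx
    have hsub : ∀ i, (Pi.single i (1:ℝ) : Fin d → ℝ) ∈ crossPolytope (fun i => (Pi.single i (1:ℝ) : Fin d → ℝ)) :=
      fun i => subset_convexHull ℝ _ (Or.inl ⟨i, rfl⟩)
    have hneg : ∀ y ∈ crossPolytope (fun i => (Pi.single i (1:ℝ) : Fin d → ℝ)),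
        -y ∈ crossPolytope (fun i => (Pi.single i (1:ℝ) : Fin d → ℝ)) := by
      intro y hy
      have h1 : -(Set.range (fun i => (Pi.single i (1:ℝ) : Fin d → ℝ)) ∪
          Set.range fun i => -(Pi.single i (1:ℝ) : Fin d → ℝ)) =
          Set.range (fun i => (Pi.single i (1:ℝ) : Fin d → ℝ)) ∪
          Set.range fun i => -(Pi.single i (1:ℝ) : Fin d → ℝ) := by
        ext z
        simp only [Set.mem_neg, mem_union, mem_range]
        constructor
        · rintro (⟨i, hi⟩ | ⟨i, hi⟩)
          · right; exact ⟨i, by rw [hi, neg_neg]⟩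
          · left; exact ⟨i, neg_inj.1 hi⟩
        · rintro (⟨i, hi⟩ | ⟨i, hi⟩)
          · right; exact ⟨i, by rw [hi]⟩
          · left; exact ⟨i, by rw [← hi, neg_neg]⟩
      have h2 : -y ∈ -(crossPolytope (fun i => (Pi.single i (1:ℝ) : Fin d → ℝ))) := by simpa using hy
      unfold crossPolytope at h2 ⊢
      rwa [← convexHull_neg, h1] at h2
    have hconv : Convex ℝ (crossPolytope (fun i => (Pi.single i (1:ℝ) : Fin d → ℝ))) := convex_convexHull ℝ _
    have h0 : (0 : Fin d → ℝ) ∈ crossPolytope (fun i => (Pi.single i (1:ℝ) : Fin d → ℝ)) := by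
      have h1 := hsub ⟨0, hd⟩
      have h2 := hconv h1 (hneg _ h1) (by norm_num : (0:ℝ) ≤ 1/2) (by norm_num : (0:ℝ) ≤ 1/2) (by norm_num)
      simpa using h2
    exact mem_of_sum_abs_le hconv hneg h0 hsub hx

theorem volume_crossPolytope (hd : 1 ≤ d) (v : Fin d → Fin d → ℝ) :
    volume (crossPolytope v) = ENNReal.ofReal (2 ^ d / (d.factorial : ℝ) * |dt v|) := by
  classical
  have : Nonempty (Fin d) := ⟨⟨0, hd⟩⟩
  let L : (Fin d → ℝ) →ₗ[ℝ] (Fin d → ℝ) := (Pi.basisFun ℝ (Fin d)).constr ℝ v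
  have hL : ∀ i, L (Pi.single i (1:ℝ)) = v i := by
    intro i
    have h := (Pi.basisFun ℝ (Fin d)).constr_basis ℝ v i
    rwa [Pi.basisFun_apply] at h
  have hdet : LinearMap.det L = dt v := by
    have h := dt_map L (fun i => (Pi.single i (1:ℝ) : Fin d → ℝ))
    rw [dt_single, mul_one] at h
    rw [← h]
    congr 1
    funext i
    exact hL i
  have himg : crossPolytope v = L '' crossPolytope (fun i => (Pi.single i (1:ℝ) : Fin d → ℝ)) := by
    unfold crossPolytope
    rw [LinearMap.image_convexHull, image_union, ← range_comp, ← range_comp]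
    congr 3
    · funext i; exact (hL i).symm
    · funext i
      simp only [Function.comp, map_neg, hL]
  have hvol : volume {x : Fin d → ℝ | ∑ i, |x i| ≤ 1} = ENNReal.ofReal (2 ^ d / (d.factorial : ℝ)) := by
    have h := MeasureTheory.volume_sum_rpow_le (Fin d) (p := 1) le_rfl 1
    simp only [Real.rpow_one, div_one, Fintype.card_fin, ENNReal.ofReal_one, one_pow, one_mul] at h
    rw [h]
    congr 1
    have h2 : Real.Gamma (1 + 1) = 1 := by
      have := Real.Gamma_nat_eq_factorial 1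
      simpa using this
    rw [h2, Real.Gamma_nat_eq_factorial]
    norm_num
  rw [himg, volume_image, crossPolytope_single hd, hvol, hdet, ← ENNReal.ofReal_mul (abs_nonneg _), mul_comm]

end Pool.Agent.H435.Mass
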